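import Mathlib

open Topology Set Filter

namespace QReg

/-! ### states on `C(K, ℝ)` -/

section States

variable {K : Type*} [TopologicalSpace K] [CompactSpace K]

/-- Positive normalised functionals on `C(K, ℝ)`. -/
def St (K : Type*) [TopologicalSpace K] [CompactSpace K] : Set (WeakDual ℝ C(K, ℝ)) :=
  {m | (∀ f : C(K, ℝ), 0 ≤ f → 0 ≤ m f) ∧ m 1 = 1}

theorem St.mono {m : WeakDual ℝ C(K, ℝ)} (hm : m ∈ St K) {f g : C(K, ℝ)} (h : f ≤ g) :
    m f ≤ m g := by
  have := hm.1 (g - f) (sub_nonneg.2 h)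
  rw [map_sub] at this
  linarith

theorem St.abs_le {m : WeakDual ℝ C(K, ℝ)} (hm : m ∈ St K) (f : C(K, ℝ)) : |m f| ≤ ‖f‖ := by
  have h1 : f ≤ ‖f‖ • (1 : C(K, ℝ)) := by
    intro x
    simpa using (le_abs_self _).trans (f.norm_coe_le_norm x)
  have h2 : -(‖f‖ • (1 : C(K, ℝ))) ≤ f := by
    intro x
    have := (neg_abs_le (f x))
    have h3 := f.norm_coe_le_norm x
    rw [Real.norm_eq_abs] at h3
    change -(‖f‖ * 1) ≤ f x
    linarith
  have e1 := St.mono hm h1
  have e2 := St.mono hm h2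
  rw [map_neg] at e2
  rw [map_smul, hm.2, smul_eq_mul, mul_one] at e1 e2
  exact _root_.abs_le.2 ⟨by linarith, e1⟩

theorem isClosed_St : IsClosed (St K) := by
  have : St K = (⋂ (f : C(K, ℝ)) (_ : 0 ≤ f), {m : WeakDual ℝ C(K, ℝ) | 0 ≤ m f}) ∩
      {m | m 1 = 1} := by
    ext m; simp [St]
  rw [this]
  refine IsClosed.inter ?_ ?_
  · refine isClosed_iInter fun f => isClosed_iInter fun _ => ?_
    exact isClosed_le continuous_const (WeakDual.eval_continuous f)
  · exact isClosed_eq (WeakDual.eval_continuous _) continuous_const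

theorem isCompact_of_abs_le {V : Type*} [NormedAddCommGroup V] [NormedSpace ℝ V]
    {S : Set (WeakDual ℝ V)} (hS : IsClosed S) (hb : ∀ m ∈ S, ∀ v : V, |m v| ≤ ‖v‖) :
    IsCompact S := by
  refine (WeakDual.isCompact_closedBall (𝕜 := ℝ) (E := V) 0 1).of_isClosed_subset hS ?_
  intro m hm
  simp only [mem_preimage, Metric.mem_closedBall, dist_zero_right]
  refine ContinuousLinearMap.opNorm_le_bound _ zero_le_one fun v => ?_
  simpa using hb m hm v

theorem isCompact_St : IsCompact (St K) :=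
  isCompact_of_abs_le isClosed_St fun _ hm v => St.abs_le hm v

theorem convex_St : Convex ℝ (St K) := by
  intro m hm n hn a b ha hb hab
  refine ⟨fun f hf => ?_, ?_⟩
  · change 0 ≤ a * m f + b * n f
    have := hm.1 f hf
    have := hn.1 f hf
    positivity
  · change a * m 1 + b * n 1 = 1
    rw [hm.2, hn.2]; linarith

/-- evaluation state -/
noncomputable def dirac (x : K) : WeakDual ℝ C(K, ℝ) :=
  StrongDual.toWeakDual (ContinuousMap.evalCLM ℝ x)

@[simp] theorem dirac_apply (x : K) (f : C(K, ℝ)) : dirac x f = f x := rfl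

theorem dirac_mem (x : K) : dirac x ∈ St K :=
  ⟨fun f hf => hf x, rfl⟩

theorem continuous_dirac : Continuous (dirac : K → WeakDual ℝ C(K, ℝ)) :=
  WeakDual.continuous_of_continuous_eval fun f => f.continuous

/-- A multiplicative state is a point evaluation. -/
theorem St.exists_dirac_of_mul [T2Space K] {m : WeakDual ℝ C(K, ℝ)} (hm : m ∈ St K)
    (hmul : ∀ f g, m (f * g) = m f * m g) : ∃ x, m = dirac x := by
  let φ : WeakDual.characterSpace ℝ C(K, ℝ) := ⟨m, by
    rw [WeakDual.CharacterSpace.eq_set_map_one_map_mul]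
    exact ⟨hm.2, hmul⟩⟩
  obtain ⟨x, hx⟩ := (WeakDual.CharacterSpace.continuousMapEval_bijective K ℝ).2 φ
  refine ⟨x, ?_⟩
  have := congrArg Subtype.val hx
  rw [show m = φ.1 from rfl, ← this]
  rfl

end States

end QReg
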