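import Mathlib

/-!
# Definitions for the problem MP_b0e80c_an

Boundaries, the Furstenberg boundary, the Chabauty topology, the stabilizer map, quasi-regular
representations, the C*-algebra `C*_π(G)` of a representation, simplicity.
-/

open MeasureTheory Topology Set Filter
open scoped ENNReal

namespace Pool.Agent.Lib.MP_b0e80c_an

section Boundary

variable (G : Type*) (X : Type*) [Group G] [TopologicalSpace G] [TopologicalSpace X]
  [CompactSpace X] [T2Space X] [MeasurableSpace X] [BorelSpace X] [MulAction G X]
  [ContinuousSMul G X]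

/-- `X` is strongly proximal: for every Radon (i.e. regular Borel) probability measure `m` on `X`
there is a point `x` such that the Dirac mass at `x` lies in the weak-* closure of
`{g m : g ∈ G}`; here `∫ f d(g m) = ∫ f (g y) dm(y)`, and the basic weak-* neighbourhoods of the
Dirac mass at `x` are given by a finite set `F` of continuous functions and an `ε > 0`. -/
def StronglyProximal : Prop :=
  ∀ m : Measure X, IsProbabilityMeasure m → m.Regular →
    ∃ x : X, ∀ (F : Finset C(X, ℝ)) (ε : ℝ), 0 < ε →
      ∃ g : G, ∀ f ∈ F, |(∫ y, f (g • y) ∂m) - f x| < ε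

/-- A compact Hausdorff `G`-space is a `G`-boundary if it is (nonempty and) minimal and strongly
proximal. -/
structure IsBoundary : Prop where
  nonempty : Nonempty X
  minimal : ∀ x : X, Dense (MulAction.orbit G x)
  stronglyProximal : StronglyProximal G X

/-- `X` is (a model of) the Furstenberg boundary of `G`: it is a `G`-boundary, and every
`G`-boundary is a continuous `G`-equivariant image of `X`. -/
def IsFurstenbergBoundary : Prop :=
  IsBoundary G X ∧
    ∀ (Y : Type) [TopologicalSpace Y] [CompactSpace Y] [T2Space Y] [MeasurableSpace Y]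
      [BorelSpace Y] [MulAction G Y] [ContinuousSMul G Y], IsBoundary G Y →
        ∃ φ : X → Y, Continuous φ ∧ Function.Surjective φ ∧ ∀ (g : G) (x : X), φ (g • x) = g • φ x

end Boundary

section Chabauty

/-- The set of closed subgroups of `G`. -/
def Sub (G : Type*) [Group G] [TopologicalSpace G] : Type _ :=
  {H : Subgroup G // IsClosed (H : Set G)}

/-- The Chabauty topology on the set of closed subgroups. -/
instance chabauty (G : Type*) [Group G] [TopologicalSpace G] : TopologicalSpace (Sub G) :=
  TopologicalSpace.generateFrom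
    ({S | ∃ C : Set G, IsCompact C ∧ S = {H : Sub G | (H.1 : Set G) ∩ C = ∅}} ∪
      {S | ∃ U : Set G, IsOpen U ∧ S = {H : Sub G | ((H.1 : Set G) ∩ U).Nonempty}})

variable (G : Type*) (X : Type*) [Group G] [TopologicalSpace G] [TopologicalSpace X]
  [T2Space X] [MulAction G X] [ContinuousSMul G X]

/-- The stabilizer map `z ↦ G_z`. -/
def stabilizerMap (z : X) : Sub G :=
  ⟨MulAction.stabilizer G z, by
    have : ((MulAction.stabilizer G z : Subgroup G) : Set G) = (fun g : G => g • z) ⁻¹' {z} := by
      ext g; simp [MulAction.mem_stabilizer_iff]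
    rw [this]
    exact isClosed_singleton.preimage (by fun_prop)⟩

end Chabauty

section Hilbert

/-- The Hilbert space `L²(X, ν)` of complex valued functions. -/
def L2 {X : Type*} [MeasurableSpace X] (ν : Measure X) : Type _ := Lp ℂ 2 ν

noncomputable instance instL2Normed {X : Type*} [MeasurableSpace X] (ν : Measure X) :
    NormedAddCommGroup (L2 ν) := (inferInstance : NormedAddCommGroup (Lp ℂ 2 ν))

noncomputable instance instL2Inner {X : Type*} [MeasurableSpace X] (ν : Measure X) :
    InnerProductSpace ℂ (L2 ν) := (inferInstance : InnerProductSpace ℂ (Lp ℂ 2 ν))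

/-- The function underlying an element of `L²(X, ν)` (it is defined up to null sets). -/
noncomputable def L2.fn {X : Type*} [MeasurableSpace X] {ν : Measure X} (f : L2 ν) : X → ℂ :=
  AEEqFun.cast (Subtype.val f)

variable {E : Type*} [NormedAddCommGroup E] [InnerProductSpace ℂ E]

variable (E) in
/-- `B(E)`, the bounded operators on `E`. -/
def Op : Type _ := E →L[ℂ] E

/-- Application of an operator to a vector. -/
def Op.app (T : Op E) (x : E) : E := ContinuousLinearMap.toLinearMap T x

noncomputable instance instOpRing : NormedRing (Op E) := (inferInstance : NormedRing (E →L[ℂ] E))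

noncomputable instance instOpAlg : NormedAlgebra ℂ (Op E) :=
  (inferInstance : NormedAlgebra ℂ (E →L[ℂ] E))

end Hilbert

section QuasiRegular

/-- The coset space `G/H` (with its quotient topology, its left `G`-action and its Borel
`σ`-algebra). -/
def Quo {G : Type*} [Group G] (H : Subgroup G) : Type _ := G ⧸ H

variable {G : Type*} [Group G] [TopologicalSpace G] (H : Subgroup G)

instance : TopologicalSpace (Quo H) := (inferInstance : TopologicalSpace (G ⧸ H))

instance : MulAction G (Quo H) := (inferInstance : MulAction G (G ⧸ H))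

instance : MeasurableSpace (Quo H) := borel _

instance : BorelSpace (Quo H) := ⟨rfl⟩

/-- `ν` is a (nonzero) `G`-quasi-invariant Radon measure on `G/H`. -/
structure IsQuasiInvariantRadon (ν : Measure (Quo H)) : Prop where
  regular : ν.Regular
  ne_zero : ν ≠ 0
  quasiInvariant : ∀ g : G, Measure.map (fun x : Quo H => g • x) ν ≪ ν

/-- `π` is the quasi-regular representation `λ_{G/H}` on `L²(G/H, ν)`:
`(π(g) f)(x) = √(d gν / dν (x)) f(g⁻¹ x)`. -/
def IsQuasiRegularRep (ν : Measure (Quo H)) (π : G → Op (L2 ν)) : Prop :=
  ∀ (g : G) (f : L2 ν), ((π g).app f).fn =ᵐ[ν] fun x =>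
    ((Real.sqrt ((Measure.map (fun x : Quo H => g • x) ν).rnDeriv ν x).toReal : ℝ) : ℂ) *
      f.fn (g⁻¹ • x)

end QuasiRegular

section CStar

variable {G : Type*} [Group G] [TopologicalSpace G] [IsTopologicalGroup G]
  [LocallyCompactSpace G] [MeasurableSpace G] [BorelSpace G]

/-- `lam` is the left regular representation of `G` on `L²(G)` (with respect to left Haar
measure): `(lam(g) f)(x) = f(g⁻¹ x)`. -/
def IsRegularRep (lam : G → Op (L2 (Measure.haar : Measure G))) : Prop :=
  ∀ (g : G) (f : L2 (Measure.haar : Measure G)),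
    ((lam g).app f).fn =ᵐ[(Measure.haar : Measure G)] fun x => f.fn (g⁻¹ * x)

variable {E : Type*} [NormedAddCommGroup E] [InnerProductSpace ℂ E]

/-- `T` is the operator `π(F) = ∫ F(g) π(g) dg` (integral with respect to left Haar measure, in
the weak sense). -/
def IsIntegratedForm (π : G → Op E) (F : G → ℂ) (T : Op E) : Prop :=
  ∀ ξ η : E, inner ℂ η (T.app ξ) =
    ∫ g, F g * inner ℂ η ((π g).app ξ) ∂(Measure.haar : Measure G)

/-- `C*_π(G)`: the norm closure of `π(L¹(G))` in `B(E)`. -/
def cstar (π : G → Op E) : Set (Op E) :=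
  closure {T | ∃ F : G → ℂ, Integrable F (Measure.haar : Measure G) ∧ IsIntegratedForm π F T}

/-- `I` is a (norm) closed two-sided ideal of the C*-algebra `A ⊆ B(E)`. -/
structure IsClosedIdeal (A I : Set (Op E)) : Prop where
  subset : I ⊆ A
  isClosed : IsClosed I
  zero_mem : 0 ∈ I
  add_mem : ∀ x ∈ I, ∀ y ∈ I, x + y ∈ I
  smul_mem : ∀ c : ℂ, ∀ x ∈ I, c • x ∈ I
  mul_mem_left : ∀ a ∈ A, ∀ x ∈ I, a * x ∈ I
  mul_mem_right : ∀ a ∈ A, ∀ x ∈ I, x * a ∈ I

/-- A C*-algebra `A ⊆ B(E)` is simple if its only closed two-sided ideals are `0` and `A`. -/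
def IsSimpleCstar (A : Set (Op E)) : Prop :=
  ∀ I : Set (Op E), IsClosedIdeal A I → I = {0} ∨ I = A

/-- The C*-algebra `C*_π(G)` of the quasi-regular representation `π = λ_{G/H}` on `L²(G/H, ν)` is
simple, for every `G`-quasi-invariant Radon measure `ν`. -/
def QuasiRegularSimple (H : Subgroup G) : Prop :=
  ∀ ν : Measure (Quo H), IsQuasiInvariantRadon H ν →
    ∀ π : G → Op (L2 ν), IsQuasiRegularRep H ν π → IsSimpleCstar (cstar π)

variable (G) in
/-- The reduced group C*-algebra `C*_r(G)` is simple. -/
def ReducedSimple : Prop :=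
  ∀ lam : G → Op (L2 (Measure.haar : Measure G)), IsRegularRep lam → IsSimpleCstar (cstar lam)

end CStar

end Pool.Agent.Lib.MP_b0e80c_an
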