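import Mathlib
import Pool.Agent.Lib.MP_b0e80c_an.Conv

open Topology Set Filter

set_option linter.unusedSectionVars false

namespace QReg

section Abs

variable {V : Type*} [NormedAddCommGroup V] [NormedSpace ℝ V]

/-- evaluation map `V → C(A)` for a bounded compact set `A` of functionals. -/
noncomputable def evA (A : Set (WeakDual ℝ V)) [CompactSpace A]
    (hA : ∀ m ∈ A, ∀ v : V, |m v| ≤ ‖v‖) : V →L[ℝ] C(A, ℝ) :=
  LinearMap.mkContinuous
    { toFun := fun v => ⟨fun a => (a : WeakDual ℝ V) v,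
        (WeakDual.eval_continuous v).comp continuous_subtype_val⟩
      map_add' := fun v w => by ext a; exact map_add (a : WeakDual ℝ V) v w
      map_smul' := fun c v => by ext a; exact map_smul (a : WeakDual ℝ V) c v } 1 (by
    intro v
    rw [one_mul]
    refine (ContinuousMap.norm_le _ (norm_nonneg _)).2 fun a => ?_
    exact hA a a.2 v)

@[simp] theorem evA_apply (A : Set (WeakDual ℝ V)) [CompactSpace A]
    (hA : ∀ m ∈ A, ∀ v : V, |m v| ≤ ‖v‖) (v : V) (a : A) :
    evA A hA v a = (a : WeakDual ℝ V) v := rfl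

/-- barycenter -/
noncomputable def bary (A : Set (WeakDual ℝ V)) [CompactSpace A]
    (hA : ∀ m ∈ A, ∀ v : V, |m v| ≤ ‖v‖) (n : WeakDual ℝ C(A, ℝ)) : WeakDual ℝ V :=
  StrongDual.toWeakDual ((WeakDual.toStrongDual n).comp (evA A hA))

@[simp] theorem bary_apply (A : Set (WeakDual ℝ V)) [CompactSpace A]
    (hA : ∀ m ∈ A, ∀ v : V, |m v| ≤ ‖v‖) (n : WeakDual ℝ C(A, ℝ)) (v : V) :
    bary A hA n v = n (evA A hA v) := rfl

theorem continuous_bary (A : Set (WeakDual ℝ V)) [CompactSpace A]
    (hA : ∀ m ∈ A, ∀ v : V, |m v| ≤ ‖v‖) : Continuous (bary A hA) :=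
  WeakDual.continuous_of_continuous_eval fun v => WeakDual.eval_continuous (evA A hA v)

theorem bary_dirac (A : Set (WeakDual ℝ V)) [CompactSpace A]
    (hA : ∀ m ∈ A, ∀ v : V, |m v| ≤ ‖v‖) (a : A) : bary A hA (dirac a) = a := by
  refine DFunLike.ext _ _ fun v => rfl

theorem bary_mem {A Q : Set (WeakDual ℝ V)} [CompactSpace A]
    (hA : ∀ m ∈ A, ∀ v : V, |m v| ≤ ‖v‖) (hQc : IsClosed Q) (hQv : Convex ℝ Q) (hAQ : A ⊆ Q)
    {n : WeakDual ℝ C(A, ℝ)} (hn : n ∈ St A) : bary A hA n ∈ Q := by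
  by_contra hx
  have : LocallyConvexSpace ℝ (WeakDual ℝ V) :=
    inferInstanceAs (LocallyConvexSpace ℝ (WeakBilin (topDualPairing ℝ V)))
  obtain ⟨f, u, hf, hu⟩ := geometric_hahn_banach_closed_point hQv hQc hx
  obtain ⟨v, hv⟩ := LinearMap.dualEmbedding_surjective (topDualPairing ℝ V) f
  have hfv : ∀ m : WeakDual ℝ V, f m = m v := by
    intro m; rw [← hv]; rfl
  rw [hfv, bary_apply] at hu
  have h1 : evA A hA v ≤ u • (1 : C(A, ℝ)) := by
    intro a
    have := hf a (hAQ a.2)
    rw [hfv] at this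
    change (a : WeakDual ℝ V) v ≤ u * 1
    linarith
  have h2 := St.mono hn h1
  rw [map_smul, hn.2, smul_eq_mul, mul_one] at h2
  linarith

/-- the functional `f ↦ c⁻¹ n (h f)` -/
noncomputable def tilt {K : Type*} [TopologicalSpace K] [CompactSpace K]
    (n : WeakDual ℝ C(K, ℝ)) (h : C(K, ℝ)) (c : ℝ) : WeakDual ℝ C(K, ℝ) :=
  StrongDual.toWeakDual (c⁻¹ • (WeakDual.toStrongDual n).comp (ContinuousLinearMap.mul ℝ _ h))

@[simp] theorem tilt_apply {K : Type*} [TopologicalSpace K] [CompactSpace K]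
    (n : WeakDual ℝ C(K, ℝ)) (h : C(K, ℝ)) (c : ℝ) (f : C(K, ℝ)) :
    tilt n h c f = c⁻¹ * n (h * f) := rfl

theorem tilt_mem {K : Type*} [TopologicalSpace K] [CompactSpace K]
    {n : WeakDual ℝ C(K, ℝ)} (hn : n ∈ St K) {h : C(K, ℝ)} (h0 : 0 ≤ h) (hc : 0 < n h) :
    tilt n h (n h) ∈ St K := by
  refine ⟨fun f hf => ?_, ?_⟩
  · rw [tilt_apply]
    have := hn.1 (h * f) (mul_nonneg h0 hf)
    positivity
  · rw [tilt_apply, mul_one, inv_mul_cancel₀ hc.ne']

theorem St.mul_eq_zero {K : Type*} [TopologicalSpace K] [CompactSpace K]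
    {n : WeakDual ℝ C(K, ℝ)} (hn : n ∈ St K) {h : C(K, ℝ)} (h0 : 0 ≤ h) (hc : n h = 0)
    (f : C(K, ℝ)) : n (h * f) = 0 := by
  have h1 : h * f ≤ ‖f‖ • h := by
    intro x
    have := h0 x
    have h3 := f.norm_coe_le_norm x
    rw [Real.norm_eq_abs] at h3
    change h x * f x ≤ ‖f‖ * h x
    have h4 : (0:ℝ) ≤ h x := this
    nlinarith [le_abs_self (f x)]
  have h2 : -(‖f‖ • h) ≤ h * f := by
    intro x
    have := h0 x
    have h3 := f.norm_coe_le_norm x
    rw [Real.norm_eq_abs] at h3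
    change -(‖f‖ * h x) ≤ h x * f x
    have h4 : (0:ℝ) ≤ h x := this
    nlinarith [neg_abs_le (f x)]
  have e1 := St.mono hn h1
  have e2 := St.mono hn h2
  rw [map_neg] at e2
  rw [map_smul, hc, smul_zero] at e1 e2
  linarith

theorem bauer {A Q : Set (WeakDual ℝ V)} [CompactSpace A]
    (hA : ∀ m ∈ A, ∀ v : V, |m v| ≤ ‖v‖) (hQc : IsClosed Q) (hQv : Convex ℝ Q) (hAQ : A ⊆ Q)
    {n : WeakDual ℝ C(A, ℝ)} (hn : n ∈ St A) (hx : bary A hA n ∈ Q.extremePoints ℝ) :
    ∃ a : A, n = dirac a := by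
  -- multiplicativity against evaluations
  have key : ∀ h : C(A, ℝ), 0 ≤ h → h ≤ 1 → ∀ v : V,
      n (h * evA A hA v) = n h * n (evA A hA v) := by
    intro h h0 h1 v
    have hc0 : 0 ≤ n h := hn.1 h h0
    have hc1 : n h ≤ 1 := by have := St.mono hn h1; rwa [hn.2] at this
    rcases hc0.eq_or_lt with hc | hc
    · rw [St.mul_eq_zero hn h0 hc.symm, ← hc, zero_mul]
    rcases hc1.eq_or_lt with hc' | hc'
    · have h2 : n (1 - h) = 0 := by rw [map_sub, hn.2, hc', sub_self]
      have h3 := St.mul_eq_zero hn (sub_nonneg.2 h1) h2 (evA A hA v)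
      rw [sub_mul, one_mul, map_sub] at h3
      rw [hc', one_mul]; linarith
    · have hc2 : 0 < n (1 - h) := by rw [map_sub, hn.2]; linarith
      set m1 := bary A hA (tilt n h (n h)) with hm1
      set m2 := bary A hA (tilt n (1 - h) (n (1 - h))) with hm2
      have hm1Q : m1 ∈ Q := bary_mem hA hQc hQv hAQ (tilt_mem hn h0 hc)
      have hm2Q : m2 ∈ Q := bary_mem hA hQc hQv hAQ (tilt_mem hn (sub_nonneg.2 h1) hc2)
      have hseg : bary A hA n ∈ openSegment ℝ m1 m2 := by
        refine ⟨n h, n (1 - h), hc, hc2, by rw [map_sub, hn.2]; ring, ?_⟩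
        refine DFunLike.ext _ _ fun w => ?_
        change n h * m1 w + n (1 - h) * m2 w = n (evA A hA w)
        rw [hm1, hm2, bary_apply, bary_apply, tilt_apply, tilt_apply, ← mul_assoc, ← mul_assoc,
          mul_inv_cancel₀ hc.ne', mul_inv_cancel₀ hc2.ne', one_mul, one_mul, ← map_add]
        congr 1
        ring
      have := (mem_extremePoints.1 hx).2 m1 hm1Q m2 hm2Q hseg
      have h4 : m1 v = n (evA A hA v) := by rw [this.1]; rfl
      rw [hm1, bary_apply, tilt_apply] at h4
      field_simp at h4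
      linarith
  have key2 : ∀ h : C(A, ℝ), ∀ v : V, n (h * evA A hA v) = n h * n (evA A hA v) := by
    intro h v
    set C : ℝ := ‖h‖ + 1 with hC
    have hCpos : 0 < C := by positivity
    set h' : C(A, ℝ) := (2 * C)⁻¹ • (h + C • (1 : C(A, ℝ))) with hh'
    have hx' : ∀ x : A, h' x = (2 * C)⁻¹ * (h x + C * 1) := fun x => rfl
    have h0 : 0 ≤ h' := by
      intro x
      change (0:ℝ) ≤ h' x
      rw [hx']
      have h3 := h.norm_coe_le_norm x
      rw [Real.norm_eq_abs] at h3
      have := neg_abs_le (h x)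
      have h5 : 0 ≤ h x + C * 1 := by rw [hC]; linarith
      positivity
    have h1 : h' ≤ 1 := by
      intro x
      change h' x ≤ 1
      rw [hx']
      have h3 := h.norm_coe_le_norm x
      rw [Real.norm_eq_abs] at h3
      have := le_abs_self (h x)
      rw [inv_mul_le_iff₀ (by positivity)]
      rw [hC]; linarith
    have e := key h' h0 h1 v
    rw [hh', smul_mul_assoc, map_smul, map_smul, add_mul, map_add, map_add, smul_mul_assoc,
      one_mul, map_smul, map_smul, hn.2] at e
    simp only [smul_eq_mul] at e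
    have h2C : (2 * C)⁻¹ ≠ 0 := by positivity
    have e' : (2 * C)⁻¹ * (n (h * evA A hA v) + C * n (evA A hA v)) =
        (2 * C)⁻¹ * ((n h + C * 1) * n (evA A hA v)) := by rw [e]; ring
    have := mul_left_cancel₀ h2C e'
    linarith
  -- the algebra of multiplicative elements
  let M : Subalgebra ℝ C(A, ℝ) :=
    { carrier := {f | ∀ h, n (h * f) = n h * n f}
      mul_mem' := by
        intro f g hf hg h
        change n (h * (f * g)) = n h * n (f * g)
        rw [← mul_assoc, hg, hf, hg, mul_assoc]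
      add_mem' := by
        intro f g hf hg h
        change n (h * (f + g)) = n h * n (f + g)
        rw [mul_add, map_add, map_add, hf, hg, mul_add]
      algebraMap_mem' := by
        intro r h
        change n (h * algebraMap ℝ _ r) = n h * n (algebraMap ℝ _ r)
        rw [Algebra.algebraMap_eq_smul_one, mul_smul_comm, mul_one, map_smul, map_smul, hn.2]
        simp [mul_comm] }
  have hMc : IsClosed (M : Set C(A, ℝ)) := by
    have : (M : Set C(A, ℝ)) = ⋂ h, {f | n (h * f) = n h * n f} := by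
      ext f; simp [M]
    rw [this]
    have hnc : Continuous n := (WeakDual.toStrongDual n).continuous
    refine isClosed_iInter fun h => isClosed_eq ?_ ?_
    · exact hnc.comp (continuous_const.mul continuous_id)
    · exact continuous_const.mul hnc
  have hMs : M.SeparatesPoints := by
    intro a b hab
    obtain ⟨v, hv⟩ : ∃ v, (a : WeakDual ℝ V) v ≠ (b : WeakDual ℝ V) v := by
      by_contra hcon
      push Not at hcon
      exact hab (Subtype.ext (DFunLike.ext _ _ hcon))
    exact ⟨evA A hA v, ⟨evA A hA v, fun h => key2 h v, rfl⟩, hv⟩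
  have hMt := ContinuousMap.subalgebra_topologicalClosure_eq_top_of_separatesPoints M hMs
  have hall : ∀ f : C(A, ℝ), f ∈ M := by
    intro f
    have h1 : f ∈ M.topologicalClosure := by rw [hMt]; trivial
    have h2 : f ∈ closure (M : Set C(A, ℝ)) := h1
    rwa [hMc.closure_eq] at h2
  exact St.exists_dirac_of_mul hn fun f g => hall g f

end Abs

end QReg
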