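import Mathlib
import Pool.Agent.Lib.MP_b0e80c_an.Irred

open Topology Set Filter

set_option linter.unusedSectionVars false

namespace QReg

section Push

variable {K K' K'' : Type*} [TopologicalSpace K] [CompactSpace K] [TopologicalSpace K']
  [CompactSpace K'] [TopologicalSpace K''] [CompactSpace K'']

/-- composition with `φ` on the right as a continuous linear map -/
noncomputable def compR (φ : C(K, K')) : C(K', ℝ) →L[ℝ] C(K, ℝ) :=
  LinearMap.mkContinuous
    { toFun := fun f => f.comp φ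
      map_add' := fun _ _ => rfl
      map_smul' := fun _ _ => rfl } 1 (by
    intro f
    rw [one_mul]
    refine (ContinuousMap.norm_le _ (norm_nonneg _)).2 fun a => ?_
    exact f.norm_coe_le_norm (φ a))

/-- push-forward of functionals -/
noncomputable def push (φ : C(K, K')) (n : WeakDual ℝ C(K, ℝ)) : WeakDual ℝ C(K', ℝ) :=
  StrongDual.toWeakDual ((WeakDual.toStrongDual n).comp (compR φ))

@[simp] theorem push_apply (φ : C(K, K')) (n : WeakDual ℝ C(K, ℝ)) (f : C(K', ℝ)) :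
    push φ n f = n (f.comp φ) := rfl

theorem continuous_push (φ : C(K, K')) : Continuous (push φ) :=
  WeakDual.continuous_of_continuous_eval fun f => WeakDual.eval_continuous (f.comp φ)

theorem push_mem (φ : C(K, K')) {n : WeakDual ℝ C(K, ℝ)} (hn : n ∈ St K) : push φ n ∈ St K' :=
  ⟨fun f hf => hn.1 _ fun x => hf (φ x), hn.2⟩

@[simp] theorem push_dirac (φ : C(K, K')) (x : K) : push φ (dirac x) = dirac (φ x) := rfl

end Push

section Act

variable {G V : Type*} [Group G] [TopologicalSpace G] [IsTopologicalGroup G]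
  [NormedAddCommGroup V] [NormedSpace ℝ V]
  [DistribMulAction G V] [SMulCommClass G ℝ V] [ContinuousSMul G V]

/-- the action of `g` on `V` as a continuous linear map -/
noncomputable def smL (g : G) : V →L[ℝ] V :=
  { toFun := fun v => g • v
    map_add' := smul_add g
    map_smul' := fun c v => smul_comm g c v
    cont := continuous_const_smul g }

@[simp] theorem smL_apply (g : G) (v : V) : smL g v = g • v := rfl

/-- the dual action -/
noncomputable def dact (g : G) (m : WeakDual ℝ V) : WeakDual ℝ V :=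
  StrongDual.toWeakDual ((WeakDual.toStrongDual m).comp (smL g⁻¹))

@[simp] theorem dact_apply (g : G) (m : WeakDual ℝ V) (v : V) : dact g m v = m (g⁻¹ • v) := rfl

theorem dact_one (m : WeakDual ℝ V) : dact (1 : G) m = m := by
  refine DFunLike.ext _ _ fun v => ?_
  simp

theorem dact_mul (g h : G) (m : WeakDual ℝ V) : dact (g * h) m = dact g (dact h m) := by
  refine DFunLike.ext _ _ fun v => ?_
  simp [mul_smul]

theorem continuous_dact (g : G) : Continuous (dact g : WeakDual ℝ V → WeakDual ℝ V) :=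
  WeakDual.continuous_of_continuous_eval fun v => WeakDual.eval_continuous (g⁻¹ • v)

/-- invariance of a set of functionals -/
def Inv (G : Type*) [Group G] [TopologicalSpace G] [DistribMulAction G V] [SMulCommClass G ℝ V]
    [ContinuousSMul G V] (A : Set (WeakDual ℝ V)) : Prop :=
  ∀ g : G, ∀ m ∈ A, dact g m ∈ A

/-- the action map on an invariant set, as a continuous map -/
noncomputable def actMap {A : Set (WeakDual ℝ V)} (hA : Inv G A) (g : G) : C(A, A) :=
  ⟨fun a => ⟨dact g a, hA g a a.2⟩, by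
    exact Continuous.subtype_mk ((continuous_dact g).comp continuous_subtype_val) _⟩

theorem Inv.closure {A : Set (WeakDual ℝ V)} (hA : Inv G A) : Inv G (closure A) := by
  intro g m hm
  exact map_mem_closure (continuous_dact g) hm (hA g)

theorem bary_push {A : Set (WeakDual ℝ V)} [CompactSpace A]
    (hb : ∀ m ∈ A, ∀ v : V, |m v| ≤ ‖v‖) (hA : Inv G A) (g : G) (n : WeakDual ℝ C(A, ℝ)) :
    bary A hb (push (actMap hA g) n) = dact g (bary A hb n) := by
  refine DFunLike.ext _ _ fun v => ?_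
  rfl

/-- linear structure: `dact g` is affine -/
theorem dact_comb (g : G) (a b : ℝ) (m n : WeakDual ℝ V) :
    dact g (a • m + b • n) = a • dact g m + b • dact g n := by
  refine DFunLike.ext _ _ fun v => rfl

/-- the family of closed convex invariant nonempty subsets -/
def Fam (G : Type*) [Group G] [TopologicalSpace G] [DistribMulAction G V] [SMulCommClass G ℝ V]
    [ContinuousSMul G V] : Set (Set (WeakDual ℝ V)) :=
  {Q | Q.Nonempty ∧ IsClosed Q ∧ Convex ℝ Q ∧ Inv G Q}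

theorem exists_minimal {S : Set (WeakDual ℝ V)} (hS : S ∈ Fam (V := V) G) (hSc : IsCompact S) :
    ∃ Q ⊆ S, Minimal (· ∈ Fam (V := V) G) Q := by
  let F : Set (Set (WeakDual ℝ V)) := {Q | Q ⊆ S ∧ Q ∈ Fam (V := V) G}
  have hz : ∃ m, m ⊆ S ∧ Minimal (· ∈ F) m := by
    refine zorn_superset_nonempty F ?_ S ⟨Subset.rfl, hS⟩
    intro c hc hchain hcne
    refine ⟨⋂₀ c, ⟨?_, ?_, ?_, ?_, ?_⟩, fun t ht => sInter_subset_of_mem ht⟩
    · obtain ⟨t, ht⟩ := hcne
      exact (sInter_subset_of_mem ht).trans (hc ht).1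
    · have : Nonempty c := hcne.to_subtype
      rw [sInter_eq_iInter]
      refine IsCompact.nonempty_iInter_of_directed_nonempty_isCompact_isClosed _ (fun t u => ?_)
        (fun t => (hc t.2).2.1) (fun t => hSc.of_isClosed_subset (hc t.2).2.2.1 (hc t.2).1)
        fun t => (hc t.2).2.2.1
      obtain h | h := hchain.total t.2 u.2
      exacts [⟨t, Subset.rfl, h⟩, ⟨u, h, Subset.rfl⟩]
    · exact isClosed_sInter fun t ht => (hc ht).2.2.1
    · exact convex_sInter fun t ht => (hc ht).2.2.2.1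
    · intro g m hm t ht
      exact (hc ht).2.2.2.2 g m (hm t ht)
  obtain ⟨Q, hQS, hQ⟩ := hz
  refine ⟨Q, hQS, hQ.prop.2, fun R hR hRQ => ?_⟩
  exact hQ.2 ⟨hRQ.trans hQS, hR⟩ hRQ

theorem ext_subset {Q A : Set (WeakDual ℝ V)} (hQ : Minimal (· ∈ Fam (V := V) G) Q)
    (hb : ∀ m ∈ Q, ∀ v : V, |m v| ≤ ‖v‖) (hAQ : A ⊆ Q) (hAne : A.Nonempty) (hAc : IsClosed A)
    (hAi : Inv G A) : Q.extremePoints ℝ ⊆ A := by
  have hQF := hQ.prop
  have hbA : ∀ m ∈ A, ∀ v : V, |m v| ≤ ‖v‖ := fun m hm => hb m (hAQ hm)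
  have hAcomp : IsCompact A := isCompact_of_abs_le hAc hbA
  haveI : CompactSpace A := isCompact_iff_compactSpace.1 hAcomp
  have himg : bary A hbA '' St A ∈ Fam (V := V) G := by
    refine ⟨?_, ?_, ?_, ?_⟩
    · obtain ⟨a, ha⟩ := hAne
      exact ⟨_, dirac ⟨a, ha⟩, dirac_mem _, rfl⟩
    · exact (isCompact_St.image (continuous_bary A hbA)).isClosed
    · rintro _ ⟨m, hm, rfl⟩ _ ⟨n, hn, rfl⟩ a b ha hb' hab
      refine ⟨a • m + b • n, convex_St hm hn ha hb' hab, ?_⟩
      refine DFunLike.ext _ _ fun v => rfl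
    · rintro g _ ⟨m, hm, rfl⟩
      exact ⟨push (actMap hAi g) m, push_mem _ hm, bary_push hbA hAi g m⟩
  have hsub : bary A hbA '' St A ⊆ Q := by
    rintro _ ⟨m, hm, rfl⟩
    exact bary_mem hbA hQF.2.1 hQF.2.2.1 hAQ hm
  have hle : Q ⊆ bary A hbA '' St A := hQ.2 himg hsub
  intro x hx
  obtain ⟨n, hn, hnx⟩ := hle hx.1
  rw [← hnx] at hx
  obtain ⟨a, ha⟩ := bauer hbA hQF.2.1 hQF.2.2.1 hAQ hn hx
  rw [← hnx, ha, bary_dirac]
  exact a.2

theorem Inv.extremePoints {Q : Set (WeakDual ℝ V)} (hQ : Inv G Q) :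
    Inv G (Q.extremePoints ℝ) := by
  intro g m hm
  rw [mem_extremePoints] at hm ⊢
  refine ⟨hQ g m hm.1, fun x1 h1 x2 h2 hseg => ?_⟩
  obtain ⟨a, b, ha, hb, hab, hsum⟩ := hseg
  have hsum' : a • dact g⁻¹ x1 + b • dact g⁻¹ x2 = m := by
    rw [← dact_comb, hsum, ← dact_mul, inv_mul_cancel, dact_one]
  have := hm.2 _ (hQ g⁻¹ x1 h1) _ (hQ g⁻¹ x2 h2) ⟨a, b, ha, hb, hab, hsum'⟩
  constructor
  · rw [← this.1, ← dact_mul, mul_inv_cancel, dact_one]
  · rw [← this.2, ← dact_mul, mul_inv_cancel, dact_one]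

/-- every compact convex invariant set contains a minimal strongly proximal closed invariant
subset. -/
theorem exists_boundary {S : Set (WeakDual ℝ V)} (hS : S ∈ Fam (V := V) G)
    (hb : ∀ m ∈ S, ∀ v : V, |m v| ≤ ‖v‖) :
    ∃ X ⊆ S, X.Nonempty ∧ IsClosed X ∧ ∃ hX : Inv G X,
      (∀ A ⊆ X, A.Nonempty → IsClosed A → Inv G A → A = X) ∧
      (∀ [CompactSpace X], ∀ n ∈ St X, ∃ x : X,
        dirac x ∈ closure (range fun g : G => push (actMap hX g) n)) := by
  obtain ⟨Q, hQS, hQ⟩ := exists_minimal hS (isCompact_of_abs_le hS.2.1 hb)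
  have hQF := hQ.prop
  have hbQ : ∀ m ∈ Q, ∀ v : V, |m v| ≤ ‖v‖ := fun m hm => hb m (hQS hm)
  have hQcomp : IsCompact Q := isCompact_of_abs_le hQF.2.1 hbQ
  haveI : LocallyConvexSpace ℝ (WeakDual ℝ V) :=
    inferInstanceAs (LocallyConvexSpace ℝ (WeakBilin (topDualPairing ℝ V)))
  have hext : (Q.extremePoints ℝ).Nonempty := hQcomp.extremePoints_nonempty hQF.1
  obtain ⟨X, hXd⟩ : ∃ X, X = closure (Q.extremePoints ℝ) := ⟨_, rfl⟩
  have hXQ : X ⊆ Q := hXd ▸ closure_minimal extremePoints_subset hQF.2.1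
  have hXi : Inv G X := hXd ▸ hQF.2.2.2.extremePoints.closure
  refine ⟨X, hXQ.trans hQS, hXd ▸ hext.closure, hXd ▸ isClosed_closure, hXi, ?_, ?_⟩
  · intro A hAX hAne hAc hAi
    refine hAX.antisymm ?_
    rw [hXd]
    refine closure_minimal ?_ hAc
    exact ext_subset hQ hbQ (hAX.trans hXQ) hAne hAc hAi
  · intro _ n hn
    have hbX : ∀ m ∈ X, ∀ v : V, |m v| ≤ ‖v‖ := fun m hm => hbQ m (hXQ hm)
    set Z := closure (range fun g : G => push (actMap hXi g) n) with hZ
    have hZS : Z ⊆ St X := by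
      refine closure_minimal ?_ isClosed_St
      rintro _ ⟨g, rfl⟩
      exact push_mem _ hn
    have hZc : IsCompact Z := isCompact_St.of_isClosed_subset isClosed_closure hZS
    have hZinv : ∀ g : G, ∀ m ∈ Z, push (actMap hXi g) m ∈ Z := by
      intro g m hm
      refine map_mem_closure (continuous_push _) hm ?_
      rintro _ ⟨h, rfl⟩
      refine ⟨g * h, ?_⟩
      refine DFunLike.ext _ _ fun f => ?_
      simp only [push_apply]
      congr 1
      ext a
      simp only [ContinuousMap.comp_apply, actMap, ContinuousMap.coe_mk]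
      congr 1
      exact Subtype.ext (dact_mul g h _)
    have hBc : IsClosed (bary X hbX '' Z) := (hZc.image (continuous_bary X hbX)).isClosed
    have hBne : (bary X hbX '' Z).Nonempty := by
      refine Set.Nonempty.image _ ⟨_, subset_closure ⟨1, rfl⟩⟩
    have hBi : Inv G (bary X hbX '' Z) := by
      rintro g _ ⟨m, hm, rfl⟩
      exact ⟨_, hZinv g m hm, bary_push hbX hXi g m⟩
    have hBQ : bary X hbX '' Z ⊆ Q := by
      rintro _ ⟨m, hm, rfl⟩
      exact bary_mem hbX hQF.2.1 hQF.2.2.1 hXQ (hZS hm)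
    have hsub := ext_subset hQ hbQ hBQ hBne hBc hBi
    obtain ⟨x, hx⟩ := hext
    obtain ⟨m, hmZ, hmx⟩ := hsub hx
    rw [← hmx] at hx
    obtain ⟨a, ha⟩ := bauer hbX hQF.2.1 hQF.2.2.1 hXQ (hZS hmZ) hx
    exact ⟨a, ha ▸ hmZ⟩

/-- joint continuity of the dual action on a bounded set -/
theorem continuous_dact_joint {A : Set (WeakDual ℝ V)} (hb : ∀ m ∈ A, ∀ v : V, |m v| ≤ ‖v‖) :
    Continuous fun p : G × A => dact p.1 (p.2 : WeakDual ℝ V) := by
  refine WeakDual.continuous_of_continuous_eval fun v => ?_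
  rw [continuous_iff_continuousAt]
  rintro ⟨g0, m0⟩
  rw [ContinuousAt, tendsto_iff_norm_sub_tendsto_zero]
  have hlim : Tendsto (fun p : G × A => ‖p.1⁻¹ • v - g0⁻¹ • v‖ +
      |(p.2 : WeakDual ℝ V) (g0⁻¹ • v) - (m0 : WeakDual ℝ V) (g0⁻¹ • v)|)
      (𝓝 (g0, m0)) (𝓝 (0 + 0)) := by
    refine Tendsto.add ?_ ?_
    · rw [← tendsto_iff_norm_sub_tendsto_zero (f := fun p : G × A => p.1⁻¹ • v)]
      exact (Continuous.tendsto (by fun_prop) _ : Tendsto (fun p : G × A => p.1⁻¹ • v) _ _)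
    · have h : Tendsto (fun p : G × A => (p.2 : WeakDual ℝ V) (g0⁻¹ • v)) (𝓝 (g0, m0))
          (𝓝 ((m0 : WeakDual ℝ V) (g0⁻¹ • v))) :=
        (((WeakDual.eval_continuous (g0⁻¹ • v)).comp continuous_subtype_val).comp
          continuous_snd).tendsto _
      exact tendsto_iff_norm_sub_tendsto_zero.1 h
  rw [add_zero] at hlim
  refine squeeze_zero (fun _ => norm_nonneg _) (fun p => ?_) hlim
  simp only [dact_apply]
  have e : (p.2 : WeakDual ℝ V) (p.1⁻¹ • v) - (m0 : WeakDual ℝ V) (g0⁻¹ • v) =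
      (p.2 : WeakDual ℝ V) (p.1⁻¹ • v - g0⁻¹ • v) +
      ((p.2 : WeakDual ℝ V) (g0⁻¹ • v) - (m0 : WeakDual ℝ V) (g0⁻¹ • v)) := by
    rw [map_sub]; ring
  rw [e]
  refine (norm_add_le _ _).trans ?_
  exact add_le_add (hb _ p.2.2 _) le_rfl

end Act

end QReg
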