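import Mathlib
import Pool.Agent.Lib.MP_b0e80c_an.GAct

open Topology Set Filter
open scoped BoundedContinuousFunction

set_option linter.unusedSectionVars false

namespace QReg

section LUC

variable (G : Type*) [Group G] [TopologicalSpace G] [IsTopologicalGroup G]

/-- bounded continuous functions on `G` with norm continuous left translation -/
def LUC : Submodule ℝ (G →ᵇ ℝ) where
  carrier := {f | ∀ ε : ℝ, 0 < ε → ∀ᶠ u in 𝓝 (1 : G), ∀ x, |f (u⁻¹ * x) - f x| ≤ ε}
  add_mem' := by
    intro f g hf hg ε hε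
    filter_upwards [hf (ε / 2) (half_pos hε), hg (ε / 2) (half_pos hε)] with u h1 h2 x
    have e : (f + g) (u⁻¹ * x) - (f + g) x = (f (u⁻¹ * x) - f x) + (g (u⁻¹ * x) - g x) := by
      simp only [BoundedContinuousFunction.coe_add, Pi.add_apply]; ring
    rw [e]
    refine (abs_add_le _ _).trans ?_
    linarith [h1 x, h2 x]
  zero_mem' := by
    intro ε hε
    filter_upwards with u x
    simpa using hε.le
  smul_mem' := by
    intro c f hf ε hε
    filter_upwards [hf (ε / (|c| + 1)) (by positivity)] with u h1 x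
    have e : (c • f) (u⁻¹ * x) - (c • f) x = c * (f (u⁻¹ * x) - f x) := by
      simp only [BoundedContinuousFunction.coe_smul, smul_eq_mul]; ring
    rw [e, abs_mul]
    have h2 := h1 x
    calc |c| * |f (u⁻¹ * x) - f x| ≤ (|c| + 1) * (ε / (|c| + 1)) := by
          refine mul_le_mul (by linarith) h2 (abs_nonneg _) (by positivity)
      _ = ε := by field_simp

variable {G}

theorem mem_LUC {f : G →ᵇ ℝ} :
    f ∈ LUC G ↔ ∀ ε : ℝ, 0 < ε → ∀ᶠ u in 𝓝 (1 : G), ∀ x, |f (u⁻¹ * x) - f x| ≤ ε := Iff.rfl

/-- left translate of a bounded continuous function -/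
def trans (g : G) (f : G →ᵇ ℝ) : G →ᵇ ℝ :=
  f.compContinuous ⟨fun x => g⁻¹ * x, by fun_prop⟩

@[simp] theorem trans_apply (g : G) (f : G →ᵇ ℝ) (x : G) : trans g f x = f (g⁻¹ * x) := rfl

theorem trans_mem (g : G) {f : G →ᵇ ℝ} (hf : f ∈ LUC G) : trans g f ∈ LUC G := by
  intro ε hε
  have h1 : Tendsto (fun u : G => g⁻¹ * u * g) (𝓝 1) (𝓝 1) := by
    have : Tendsto (fun u : G => g⁻¹ * u * g) (𝓝 1) (𝓝 (g⁻¹ * 1 * g)) :=
      (Continuous.tendsto (by fun_prop) _)
    simpa using this
  filter_upwards [h1 (hf ε hε)] with u hu x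
  have := hu (g⁻¹ * x)
  simp only [trans_apply]
  convert this using 4
  group

variable (G) in
/-- `LUC G` as a normed space (type synonym) -/
def LU : Type _ := LUC G

noncomputable instance : NormedAddCommGroup (LU G) :=
  inferInstanceAs (NormedAddCommGroup (LUC G))
noncomputable instance : NormedSpace ℝ (LU G) := inferInstanceAs (NormedSpace ℝ (LUC G))

/-- underlying function -/
def LU.fn (f : LU G) : G →ᵇ ℝ := Subtype.val (p := fun f => f ∈ LUC G) f

theorem LU.ext {f g : LU G} (h : f.fn = g.fn) : f = g := Subtype.ext h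

theorem LU.mem (f : LU G) : f.fn ∈ LUC G := Subtype.property (p := fun f => f ∈ LUC G) f

noncomputable instance : DistribMulAction G (LU G) where
  smul g f := ⟨trans g f.fn, trans_mem g f.mem⟩
  one_smul f := by
    refine LU.ext ?_
    ext x
    change f.fn (1⁻¹ * x) = _
    simp
  mul_smul g h f := by
    refine LU.ext ?_
    ext x
    change f.fn ((g * h)⁻¹ * x) = f.fn (h⁻¹ * (g⁻¹ * x))
    rw [mul_inv_rev, mul_assoc]
  smul_zero g := rfl
  smul_add g f1 f2 := rfl

theorem LUC.smul_apply (g : G) (f : LU G) (x : G) :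
    (g • f).fn x = f.fn (g⁻¹ * x) := rfl

instance : SMulCommClass G ℝ (LU G) where
  smul_comm _ _ _ := rfl

theorem LUC.norm_smul_le (g : G) (f : LU G) : ‖g • f‖ ≤ ‖f‖ := by
  change ‖(g • f).fn‖ ≤ ‖f.fn‖
  refine (BoundedContinuousFunction.norm_le (norm_nonneg _)).2 fun x => ?_
  exact f.fn.norm_coe_le_norm _

instance : ContinuousSMul G (LU G) where
  continuous_smul := by
    rw [continuous_iff_continuousAt]
    rintro ⟨g0, f0⟩
    rw [ContinuousAt, tendsto_iff_norm_sub_tendsto_zero, Metric.tendsto_nhds]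
    intro ε hε
    have h1 : ∀ᶠ g in 𝓝 g0, ‖g • f0 - g0 • f0‖ ≤ ε / 2 := by
      have h2 : Tendsto (fun g : G => g0⁻¹ * g) (𝓝 g0) (𝓝 1) := by
        have : Tendsto (fun g : G => g0⁻¹ * g) (𝓝 g0) (𝓝 (g0⁻¹ * g0)) :=
          (Continuous.tendsto (by fun_prop) _)
        simpa using this
      filter_upwards [h2 (f0.mem (ε / 2) (half_pos hε))] with g hg
      change ‖(g • f0 - g0 • f0).fn‖ ≤ ε / 2
      refine (BoundedContinuousFunction.norm_le (half_pos hε).le).2 fun x => ?_
      have := hg (g0⁻¹ * x)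
      change |f0.fn (g⁻¹ * x) - f0.fn (g0⁻¹ * x)| ≤ ε / 2
      convert this using 4
      group
    have h3 : ∀ᶠ f in 𝓝 f0, ‖f - f0‖ < ε / 2 := by
      have := Metric.ball_mem_nhds f0 (half_pos hε)
      filter_upwards [this] with f hf
      rwa [Metric.mem_ball, dist_eq_norm] at hf
    filter_upwards [h1.prod_nhds h3] with p hp
    simp only [dist_zero_right, norm_norm]
    have e : p.1 • p.2 - g0 • f0 = p.1 • (p.2 - f0) + (p.1 • f0 - g0 • f0) := by
      rw [smul_sub]; abel
    rw [e]
    refine (norm_add_le _ _).trans_lt ?_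
    have := LUC.norm_smul_le p.1 (p.2 - f0)
    linarith [hp.1, hp.2]

theorem const_mem (c : ℝ) : BoundedContinuousFunction.const G c ∈ LUC G := by
  intro ε hε
  filter_upwards with u x
  simpa using hε.le

/-- the constant function 1 -/
noncomputable def lone : LU G := ⟨BoundedContinuousFunction.const G 1, const_mem 1⟩

@[simp] theorem lone_apply (x : G) : (lone : LU G).fn x = 1 := rfl

variable (G)

/-- means on `LUC(G)` -/
def Means : Set (WeakDual ℝ (LU G)) :=
  {m | (∀ f : LU G, (∀ x, 0 ≤ f.fn x) → 0 ≤ m f) ∧ m lone = 1}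

variable {G}

theorem Means.mono {m : WeakDual ℝ (LU G)} (hm : m ∈ Means G) {f g : LU G}
    (h : ∀ x, f.fn x ≤ g.fn x) : m f ≤ m g := by
  have := hm.1 (g - f) (fun x => by
    change 0 ≤ g.fn x - f.fn x
    linarith [h x])
  rw [map_sub] at this
  linarith

theorem Means.abs_le {m : WeakDual ℝ (LU G)} (hm : m ∈ Means G) (f : LU G) : |m f| ≤ ‖f‖ := by
  have hn : ∀ x, |f.fn x| ≤ ‖f‖ := fun x => f.fn.norm_coe_le_norm x
  have h1 : m f ≤ m (‖f‖ • lone) := Means.mono hm fun x => by
    change f.fn x ≤ ‖f‖ * 1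
    linarith [hn x, le_abs_self (f.fn x)]
  have h2 : m ((-‖f‖) • lone) ≤ m f := Means.mono hm fun x => by
    change -‖f‖ * 1 ≤ f.fn x
    linarith [hn x, neg_abs_le (f.fn x)]
  rw [map_smul, hm.2, smul_eq_mul, mul_one] at h1 h2
  exact _root_.abs_le.2 ⟨h2, h1⟩

theorem Means.mem_Fam : Means G ∈ Fam (V := LU G) G := by
  refine ⟨?_, ?_, ?_, ?_⟩
  · refine ⟨StrongDual.toWeakDual (LinearMap.mkContinuous
      { toFun := fun f : LU G => f.fn 1
        map_add' := fun _ _ => rfl
        map_smul' := fun _ _ => rfl } 1 (fun f => by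
          rw [one_mul]; exact f.fn.norm_coe_le_norm 1)), fun f hf => hf 1, rfl⟩
  · have : Means G = (⋂ (f : LU G) (_ : ∀ x, 0 ≤ f.fn x),
        {m : WeakDual ℝ (LU G) | 0 ≤ m f}) ∩ {m | m lone = 1} := by
      ext m; simp [Means]
    rw [this]
    refine IsClosed.inter ?_ ?_
    · refine isClosed_iInter fun f => isClosed_iInter fun _ => ?_
      exact isClosed_le continuous_const (WeakDual.eval_continuous f)
    · exact isClosed_eq (WeakDual.eval_continuous _) continuous_const
  · intro m hm n hn a b ha hb hab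
    refine ⟨fun f hf => ?_, ?_⟩
    · change 0 ≤ a * m f + b * n f
      have := hm.1 f hf
      have := hn.1 f hf
      positivity
    · change a * m lone + b * n lone = 1
      rw [hm.2, hn.2]; linarith
  · intro g m hm
    refine ⟨fun f hf => ?_, ?_⟩
    · rw [dact_apply]
      exact hm.1 _ fun x => hf _
    · rw [dact_apply]
      exact hm.2

variable (G)

/-- the carrier of the Furstenberg boundary inside the means on `LUC(G)` -/
noncomputable def fbSet : Set (WeakDual ℝ (LU G)) :=
  Classical.choose (exists_boundary (G := G) Means.mem_Fam fun _ hm v => Means.abs_le hm v)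

theorem fbSet_spec : fbSet G ⊆ Means G ∧ (fbSet G).Nonempty ∧ IsClosed (fbSet G) ∧
    ∃ hX : Inv G (fbSet G),
      (∀ A ⊆ fbSet G, A.Nonempty → IsClosed A → Inv G A → A = fbSet G) ∧
      (∀ [CompactSpace (fbSet G)], ∀ n ∈ St (fbSet G), ∃ x : fbSet G,
        dirac x ∈ closure (range fun g : G => push (actMap hX g) n)) :=
  Classical.choose_spec
    (exists_boundary (G := G) Means.mem_Fam fun _ hm v => Means.abs_le hm v)

/-- the Furstenberg boundary, as a set of means on `LUC(G)` -/
def FB : Type _ := fbSet G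

variable {G}

theorem fbSet_inv : Inv G (fbSet G) := (fbSet_spec G).2.2.2.choose

theorem fbSet_bound : ∀ m ∈ fbSet G, ∀ v : LU G, |m v| ≤ ‖v‖ :=
  fun _ hm v => Means.abs_le ((fbSet_spec G).1 hm) v

instance : TopologicalSpace (FB G) := inferInstanceAs (TopologicalSpace (fbSet G))
instance : T2Space (FB G) := inferInstanceAs (T2Space (fbSet G))
instance : CompactSpace (fbSet G) :=
  isCompact_iff_compactSpace.1 (isCompact_of_abs_le (fbSet_spec G).2.2.1 fbSet_bound)
instance : CompactSpace (FB G) := inferInstanceAs (CompactSpace (fbSet G))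
instance : Nonempty (FB G) := (fbSet_spec G).2.1.to_subtype

/-- underlying mean -/
def FB.val (x : FB G) : WeakDual ℝ (LU G) := Subtype.val (p := fun m => m ∈ fbSet G) x

theorem FB.val_mem (x : FB G) : x.val ∈ fbSet G := Subtype.property (p := fun m => m ∈ fbSet G) x

theorem FB.ext {x y : FB G} (h : x.val = y.val) : x = y := Subtype.ext h

theorem FB.continuous_val : Continuous (FB.val : FB G → WeakDual ℝ (LU G)) :=
  continuous_subtype_val

theorem FB.val_means (x : FB G) : x.val ∈ Means G := (fbSet_spec G).1 x.val_mem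

noncomputable instance : MulAction G (FB G) where
  smul g x := ⟨dact g x.val, fbSet_inv g _ x.val_mem⟩
  one_smul x := FB.ext (dact_one _)
  mul_smul g h x := FB.ext (dact_mul g h _)

theorem FB.val_smul (g : G) (x : FB G) : (g • x).val = dact g x.val := rfl

instance : ContinuousSMul G (FB G) where
  continuous_smul := by
    refine Continuous.subtype_mk ?_ _
    exact continuous_dact_joint (G := G) (fbSet_bound (G := G))

instance : MeasurableSpace (FB G) := borel _
instance : BorelSpace (FB G) := ⟨rfl⟩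

/-- minimality in terms of subsets of `FB G` -/
theorem FB.minimal_set {A : Set (FB G)} (hne : A.Nonempty) (hc : IsClosed A)
    (hi : ∀ g : G, ∀ x ∈ A, g • x ∈ A) : A = univ := by
  have h := (fbSet_spec G).2.2.2.choose_spec.1 (FB.val '' A) ?_ (hne.image _) ?_ ?_
  · refine eq_univ_of_forall fun x => ?_
    have hx : x.val ∈ FB.val '' A := h ▸ x.val_mem
    obtain ⟨y, hy, hyx⟩ := hx
    rwa [← FB.ext hyx]
  · rintro _ ⟨x, _, rfl⟩; exact x.val_mem
  · exact (hc.isCompact.image FB.continuous_val).isClosed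
  · rintro g _ ⟨x, hx, rfl⟩
    exact ⟨g • x, hi g x hx, rfl⟩

theorem FB.dense_orbit (x : FB G) : Dense (MulAction.orbit G x) := by
  rw [dense_iff_closure_eq]
  refine FB.minimal_set ((MulAction.nonempty_orbit x).closure) isClosed_closure ?_
  intro g y hy
  refine map_mem_closure (continuous_const_smul g) hy ?_
  rintro _ ⟨h, rfl⟩
  exact ⟨g * h, mul_smul g h x⟩

/-- action map -/
def smulMap {X : Type*} [TopologicalSpace X] [MulAction G X] [ContinuousSMul G X] (g : G) :
    C(X, X) := ⟨fun x => g • x, continuous_const_smul g⟩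

theorem FB.sprox (n : WeakDual ℝ C(FB G, ℝ)) (hn : n ∈ St (FB G)) :
    ∃ x : FB G, dirac x ∈ closure (range fun g : G => push (smulMap g) n) :=
  (fbSet_spec G).2.2.2.choose_spec.2 n hn

end LUC

end QReg
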