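import Mathlib
import Pool.Agent.Lib.MP_b0e80c_an.LUC
import Pool.Agent.Lib.MP_b0e80c_an.Defs

open Topology Set Filter MeasureTheory
open scoped BoundedContinuousFunction

set_option linter.unusedSectionVars false

namespace QReg

open Pool.Agent.Lib.MP_b0e80c_an

section Meas

variable {X : Type*} [TopologicalSpace X] [CompactSpace X] [T2Space X] [MeasurableSpace X]
  [BorelSpace X]

theorem integrable_cont (m : Measure X) [IsFiniteMeasure m] (f : C(X, ℝ)) :
    Integrable (fun x => f x) m := by
  refine Integrable.of_bound (C := ‖f‖) (f.continuous.aestronglyMeasurable) ?_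
  exact ae_of_all _ fun x => f.norm_coe_le_norm x

/-- the state associated with a probability measure -/
noncomputable def stateOf (m : Measure X) [IsProbabilityMeasure m] : WeakDual ℝ C(X, ℝ) :=
  StrongDual.toWeakDual (LinearMap.mkContinuous
    { toFun := fun f : C(X, ℝ) => ∫ x, f x ∂m
      map_add' := fun f g => by
        simp only [ContinuousMap.coe_add, Pi.add_apply]
        exact integral_add (integrable_cont m f) (integrable_cont m g)
      map_smul' := fun c f => by
        simp only [ContinuousMap.coe_smul, Pi.smul_apply, RingHom.id_apply]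
        exact integral_smul c _ } 1 (fun f => by
      rw [one_mul]
      have := norm_integral_le_of_norm_le_const (μ := m) (f := fun x => f x) (C := ‖f‖)
        (ae_of_all _ fun x => f.norm_coe_le_norm x)
      simpa using this))

@[simp] theorem stateOf_apply (m : Measure X) [IsProbabilityMeasure m] (f : C(X, ℝ)) :
    stateOf m f = ∫ x, f x ∂m := rfl

theorem stateOf_mem (m : Measure X) [IsProbabilityMeasure m] : stateOf m ∈ St X := by
  refine ⟨fun f hf => ?_, ?_⟩
  · rw [stateOf_apply]
    exact integral_nonneg fun x => hf x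
  · rw [stateOf_apply]
    simp

theorem exists_measure {n : WeakDual ℝ C(X, ℝ)} (hn : n ∈ St X) :
    ∃ m : Measure X, IsProbabilityMeasure m ∧ m.Regular ∧
      ∀ f : C(X, ℝ), ∫ x, f x ∂m = n f := by
  let Λ : CompactlySupportedContinuousMap X ℝ →ₚ[ℝ] ℝ :=
    { toFun := fun f => n (f : C(X, ℝ))
      map_add' := fun f g => map_add n (f : C(X, ℝ)) (g : C(X, ℝ))
      map_smul' := fun c f => map_smul n c (f : C(X, ℝ))
      monotone' := fun f g hfg => St.mono hn hfg }
  have hint : ∀ f : C(X, ℝ), ∫ x, f x ∂(RealRMK.rieszMeasure Λ) = n f := fun f =>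
    RealRMK.integral_rieszMeasure Λ (CompactlySupportedContinuousMap.continuousMapEquiv f)
  refine ⟨RealRMK.rieszMeasure Λ, ?_, inferInstance, hint⟩
  have h1 := hint 1
  rw [hn.2] at h1
  simp only [ContinuousMap.one_apply, integral_const, smul_eq_mul, mul_one] at h1
  constructor
  have h2 : (RealRMK.rieszMeasure Λ).real univ = 1 := h1
  rw [measureReal_def, ENNReal.toReal_eq_one_iff] at h2
  exact h2

/-- closure in the weak-* topology versus the explicit condition. -/
theorem mem_closure_iff_fin {K : Type*} [TopologicalSpace K] [CompactSpace K]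
    {S : Set (WeakDual ℝ C(K, ℝ))} {x : WeakDual ℝ C(K, ℝ)} :
    x ∈ closure S ↔ ∀ (F : Finset C(K, ℝ)) (ε : ℝ), 0 < ε →
      ∃ m ∈ S, ∀ f ∈ F, |m f - x f| < ε := by
  constructor
  · intro h F ε hε
    have hopen : IsOpen {m : WeakDual ℝ C(K, ℝ) | ∀ f ∈ F, |m f - x f| < ε} := by
      have : {m : WeakDual ℝ C(K, ℝ) | ∀ f ∈ F, |m f - x f| < ε} =
          ⋂ f ∈ F, {m : WeakDual ℝ C(K, ℝ) | |m f - x f| < ε} := by ext m; simp
      rw [this]
      refine isOpen_biInter_finset fun f _ => ?_
      exact isOpen_lt (((WeakDual.eval_continuous f).sub continuous_const).abs) continuous_const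
    obtain ⟨m, hm1, hm2⟩ := mem_closure_iff.1 h _ hopen (by
      intro f _; simpa using hε)
    exact ⟨m, hm2, hm1⟩
  · intro h
    rw [mem_closure_iff_nhds]
    intro t ht
    -- use the embedding into the product
    have hemb : Topology.IsInducing (fun (m : WeakDual ℝ C(K, ℝ)) (f : C(K, ℝ)) => m f) := ⟨rfl⟩
    rw [hemb.nhds_eq_comap, mem_comap] at ht
    obtain ⟨s, hs, hst⟩ := ht
    rw [nhds_pi, Filter.mem_pi] at hs
    obtain ⟨I, hI, u, hu, hus⟩ := hs
    have hball : ∀ f : C(K, ℝ), ∃ ε > 0, Metric.ball (x f) ε ⊆ u f := fun f =>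
      Metric.mem_nhds_iff.1 (hu f)
    choose e he hesub using hball
    let F := hI.toFinset
    obtain ⟨ε, hε, hεle⟩ : ∃ ε > 0, ∀ f ∈ F, ε ≤ e f := by
      rcases F.eq_empty_or_nonempty with hF | hF
      · exact ⟨1, one_pos, by simp [hF]⟩
      · obtain ⟨f0, hf0, hmin⟩ := F.exists_min_image e hF
        exact ⟨e f0, he f0, hmin⟩
    obtain ⟨m, hmS, hm⟩ := h F ε hε
    refine ⟨m, hst (hus ?_), hmS⟩
    intro f hf
    refine hesub f ?_
    rw [Metric.mem_ball, Real.dist_eq]
    exact (hm f (hI.mem_toFinset.2 hf)).trans_le (hεle f (hI.mem_toFinset.2 hf))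

end Meas

section Prox

variable {G : Type*} {X : Type*} [Group G] [TopologicalSpace G] [TopologicalSpace X]
  [CompactSpace X] [T2Space X] [MeasurableSpace X] [BorelSpace X] [MulAction G X]
  [ContinuousSMul G X]

theorem stronglyProximal_of_states
    (h : ∀ n ∈ St X, ∃ x : X, dirac x ∈ closure (range fun g : G => push (smulMap g) n)) :
    StronglyProximal G X := by
  intro m hm _
  obtain ⟨x, hx⟩ := h (stateOf m) (stateOf_mem m)
  refine ⟨x, fun F ε hε => ?_⟩
  obtain ⟨_, ⟨g, rfl⟩, hg⟩ := mem_closure_iff_fin.1 hx F ε hε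
  exact ⟨g, hg⟩

theorem states_of_sprox (h : StronglyProximal G X) {n : WeakDual ℝ C(X, ℝ)}
    (hn : n ∈ St X) : ∃ x : X, dirac x ∈ closure (range fun g : G => push (smulMap g) n) := by
  obtain ⟨m, hm, hreg, hint⟩ := exists_measure hn
  obtain ⟨x, hx⟩ := h m hm hreg
  refine ⟨x, mem_closure_iff_fin.2 fun F ε hε => ?_⟩
  obtain ⟨g, hg⟩ := hx F ε hε
  refine ⟨_, ⟨g, rfl⟩, fun f hf => ?_⟩
  have := hg f hf
  rw [push_apply, dirac_apply, ← hint]
  exact this

end Prox

section Univ

variable {G : Type*} [Group G] [TopologicalSpace G] [IsTopologicalGroup G]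

theorem FB.isBoundary : IsBoundary G (FB G) :=
  ⟨inferInstance, FB.dense_orbit, stronglyProximal_of_states FB.sprox⟩

variable {Y : Type*} [TopologicalSpace Y] [CompactSpace Y] [T2Space Y] [MeasurableSpace Y]
  [BorelSpace Y] [MulAction G Y] [ContinuousSMul G Y]

/-- pull-back of continuous functions along an orbit map -/
def orbFn (y : Y) (f : C(Y, ℝ)) : G →ᵇ ℝ :=
  (BoundedContinuousFunction.mkOfCompact f).compContinuous ⟨fun g => g • y, by fun_prop⟩

@[simp] theorem orbFn_apply (y : Y) (f : C(Y, ℝ)) (g : G) : orbFn y f g = f (g • y) := rfl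

theorem orbFn_mem (y : Y) (f : C(Y, ℝ)) : (orbFn y f : G →ᵇ ℝ) ∈ LUC G := by
  intro ε hε
  let F : C(G × Y, ℝ) := ⟨fun p => f (p.1⁻¹ • p.2), by fun_prop⟩
  have hc : Continuous F.curry := F.curry.continuous
  have h1 : ∀ᶠ u in 𝓝 (1 : G), F.curry u ∈ Metric.ball (F.curry 1) ε :=
    hc.continuousAt.eventually (Metric.ball_mem_nhds _ hε)
  filter_upwards [h1] with u hu x
  rw [Metric.mem_ball, dist_eq_norm] at hu
  have := (F.curry u - F.curry 1).norm_coe_le_norm (x • y)
  have h2 : (F.curry u - F.curry 1) (x • y) = f (u⁻¹ • x • y) - f ((1 : G)⁻¹ • x • y) := rfl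
  rw [h2, Real.norm_eq_abs, inv_one, one_smul] at this
  simp only [orbFn_apply, mul_smul]
  linarith

/-- `C(Y) → LUC(G)` -/
noncomputable def Theta (y : Y) : C(Y, ℝ) →L[ℝ] LU G :=
  LinearMap.mkContinuous
    { toFun := fun f => (⟨orbFn y f, orbFn_mem y f⟩ : LU G)
      map_add' := fun _ _ => rfl
      map_smul' := fun _ _ => rfl } 1 (fun f => by
      rw [one_mul]
      refine (BoundedContinuousFunction.norm_le (norm_nonneg _)).2 fun x => ?_
      exact f.norm_coe_le_norm _)

theorem Theta_fn (y : Y) (f : C(Y, ℝ)) (g : G) : (Theta (G := G) y f).fn g = f (g • y) := rfl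

/-- the induced map on functionals -/
noncomputable def indSt (y : Y) (m : WeakDual ℝ (LU G)) : WeakDual ℝ C(Y, ℝ) :=
  StrongDual.toWeakDual ((WeakDual.toStrongDual m).comp (Theta (G := G) y))

@[simp] theorem indSt_apply (y : Y) (m : WeakDual ℝ (LU G)) (f : C(Y, ℝ)) :
    indSt y m f = m (Theta y f) := rfl

theorem continuous_indSt (y : Y) : Continuous (indSt (G := G) y) :=
  WeakDual.continuous_of_continuous_eval fun f => WeakDual.eval_continuous (Theta (G := G) y f)

theorem indSt_mem (y : Y) {m : WeakDual ℝ (LU G)} (hm : m ∈ Means G) : indSt y m ∈ St Y := by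
  refine ⟨fun f hf => hm.1 _ fun x => hf _, ?_⟩
  rw [indSt_apply, ← hm.2]
  congr 1

theorem indSt_dact (y : Y) (g : G) (m : WeakDual ℝ (LU G)) :
    indSt y (dact g m) = push (smulMap g) (indSt y m) := by
  refine DFunLike.ext _ _ fun f => ?_
  simp only [indSt_apply, dact_apply, push_apply]
  congr 1
  refine LU.ext ?_
  ext x
  change f ((g⁻¹⁻¹ * x) • y) = f (g • (x • y))
  rw [inv_inv, mul_smul]

theorem dirac_injective : Function.Injective (dirac : Y → WeakDual ℝ C(Y, ℝ)) := by
  intro a b hab
  by_contra hne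
  obtain ⟨f, hf0, hf1, -⟩ := exists_continuous_zero_one_of_isClosed (isClosed_singleton (x := a))
    (isClosed_singleton (x := b)) (by simpa using hne)
  have h0 : dirac a f = dirac b f := by rw [hab]
  rw [dirac_apply, dirac_apply, hf0 rfl, hf1 rfl] at h0
  simp at h0

theorem FB.exists_map (hY : IsBoundary G Y) :
    ∃ φ : FB G → Y, Continuous φ ∧ Function.Surjective φ ∧
      ∀ (g : G) (x : FB G), φ (g • x) = g • φ x := by
  obtain ⟨y0⟩ := hY.nonempty
  set A : Set (FB G) := {x | indSt y0 x.val ∈ range (dirac : Y → WeakDual ℝ C(Y, ℝ))} with hA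
  have hcont : Continuous fun x : FB G => indSt y0 x.val :=
    (continuous_indSt y0).comp FB.continuous_val
  have hAc : IsClosed A := by
    have : IsClosed (range (dirac : Y → WeakDual ℝ C(Y, ℝ))) :=
      (isCompact_range continuous_dirac).isClosed
    exact this.preimage hcont
  have hAi : ∀ g : G, ∀ x ∈ A, g • x ∈ A := by
    rintro g x ⟨y, hy⟩
    refine ⟨g • y, ?_⟩
    change dirac (g • y) = indSt y0 (dact g x.val)
    rw [indSt_dact, ← hy, push_dirac]
    rfl
  have hAne : A.Nonempty := by
    obtain ⟨x0⟩ : Nonempty (FB G) := inferInstance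
    obtain ⟨y, hy⟩ := states_of_sprox hY.stronglyProximal (indSt_mem y0 x0.val_means)
    -- the image of FB is closed and contains the orbit
    have himg : IsClosed (range fun x : FB G => indSt y0 x.val) := (isCompact_range hcont).isClosed
    have hsub : (range fun g : G => push (smulMap g) (indSt y0 x0.val)) ⊆
        range fun x : FB G => indSt y0 x.val := by
      rintro _ ⟨g, rfl⟩
      exact ⟨g • x0, indSt_dact y0 g x0.val⟩
    obtain ⟨x, hx⟩ := closure_minimal hsub himg hy
    exact ⟨x, y, hx.symm⟩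
  have hAu := FB.minimal_set hAne hAc hAi
  have hex : ∀ x : FB G, ∃ y : Y, dirac y = indSt y0 x.val := fun x => by
    have : x ∈ A := hAu ▸ mem_univ x
    exact this
  choose φ hφ using hex
  have hφc : Continuous φ := by
    have hemb : Topology.IsClosedEmbedding (dirac : Y → WeakDual ℝ C(Y, ℝ)) :=
      continuous_dirac.isClosedEmbedding dirac_injective
    rw [hemb.isInducing.continuous_iff]
    have : (dirac : Y → WeakDual ℝ C(Y, ℝ)) ∘ φ = fun x : FB G => indSt y0 x.val := by
      funext x; exact hφ x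
    rw [this]
    exact hcont
  have hφe : ∀ (g : G) (x : FB G), φ (g • x) = g • φ x := by
    intro g x
    apply dirac_injective
    rw [hφ]
    change indSt y0 (dact g x.val) = _
    rw [indSt_dact, ← hφ x, push_dirac]
    rfl
  refine ⟨φ, hφc, ?_, hφe⟩
  rw [← range_eq_univ]
  obtain ⟨x0⟩ : Nonempty (FB G) := inferInstance
  have hcl : IsClosed (range φ) := (isCompact_range hφc).isClosed
  have hor : MulAction.orbit G (φ x0) ⊆ range φ := by
    rintro _ ⟨g, rfl⟩
    exact ⟨g • x0, hφe g x0⟩
  have := closure_minimal hor hcl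
  rw [(hY.minimal (φ x0)).closure_eq] at this
  exact univ_subset_iff.1 this

end Univ

theorem FB.isFurstenberg (G : Type) [Group G] [TopologicalSpace G] [IsTopologicalGroup G] :
    IsFurstenbergBoundary G (FB G) := by
  refine ⟨FB.isBoundary, ?_⟩
  intro Y _ _ _ _ _ _ _ hY
  exact FB.exists_map hY

end QReg
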