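import Mathlib
import Pool.Agent.Lib.MP_b0e80c_an.Furst

open Topology Set Filter MeasureTheory
open scoped BoundedContinuousFunction Pointwise

set_option linter.unusedSectionVars false

namespace QReg

open Pool.Agent.Lib.MP_b0e80c_an

section Ind

variable {G : Type*} [Group G] [TopologicalSpace G] [IsTopologicalGroup G]
variable {Z : Type*} [MulAction G Z]

/-- The action on the set `Z` is trivial near the identity. -/
def TrivNear (G : Type*) [Group G] [TopologicalSpace G] (Z : Type*) [MulAction G Z] : Prop :=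
  ∀ᶠ u in 𝓝 (1 : G), ∀ z : Z, u • z = z

open Classical in
/-- `g ↦ 1_A(g z₀)` as a function -/
noncomputable def indFun (z0 : Z) (A : Set Z) (g : G) : ℝ := if g • z0 ∈ A then 1 else 0

theorem indFun_nonneg (z0 : Z) (A : Set Z) (g : G) : 0 ≤ indFun z0 A g := by
  unfold indFun; split_ifs <;> norm_num

theorem indFun_le_one (z0 : Z) (A : Set Z) (g : G) : indFun z0 A g ≤ 1 := by
  unfold indFun; split_ifs <;> norm_num

theorem indFun_inv_mul (z0 : Z) (A : Set Z) {u : G} (hu : ∀ z : Z, u • z = z) (g : G) :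
    indFun z0 A (u⁻¹ * g) = indFun z0 A g := by
  have : ∀ z : Z, u⁻¹ • z = z := fun z => by
    rw [inv_smul_eq_iff, hu]
  unfold indFun
  rw [mul_smul, this]

theorem continuous_indFun (hZ : TrivNear G Z) (z0 : Z) (A : Set Z) :
    Continuous (indFun (G := G) z0 A) := by
  rw [continuous_iff_continuousAt]
  intro g0
  have h : ∀ᶠ g in 𝓝 g0, indFun z0 A g = indFun z0 A g0 := by
    have h2 : Tendsto (fun g : G => g0 * g⁻¹) (𝓝 g0) (𝓝 1) := by
      have : Tendsto (fun g : G => g0 * g⁻¹) (𝓝 g0) (𝓝 (g0 * g0⁻¹)) :=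
        (Continuous.tendsto (by fun_prop) _)
      simpa using this
    filter_upwards [h2 hZ] with g hg
    have := indFun_inv_mul z0 A hg g0
    rw [← this]
    congr 1
    group
  exact (continuousAt_const (y := indFun z0 A g0)).congr (h.mono fun g hg => hg.symm)

/-- bounded function version -/
noncomputable def indB (hZ : TrivNear G Z) (z0 : Z) (A : Set Z) : G →ᵇ ℝ :=
  BoundedContinuousFunction.ofNormedAddCommGroup (indFun z0 A) (continuous_indFun hZ z0 A) 1
    (fun g => by
      rw [Real.norm_eq_abs, abs_of_nonneg (indFun_nonneg z0 A g)]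
      exact indFun_le_one z0 A g)

theorem indB_mem (hZ : TrivNear G Z) (z0 : Z) (A : Set Z) : indB hZ z0 A ∈ LUC G := by
  intro ε hε
  filter_upwards [hZ] with u hu x
  have : indB hZ z0 A (u⁻¹ * x) = indB hZ z0 A x := indFun_inv_mul z0 A hu x
  rw [this, sub_self, abs_zero]
  exact hε.le

/-- element of `LU` -/
noncomputable def indL (hZ : TrivNear G Z) (z0 : Z) (A : Set Z) : LU G :=
  ⟨indB hZ z0 A, indB_mem hZ z0 A⟩

theorem indL_fn (hZ : TrivNear G Z) (z0 : Z) (A : Set Z) (g : G) :
    (indL hZ z0 A).fn g = indFun z0 A g := rfl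

theorem smul_indL (hZ : TrivNear G Z) (z0 : Z) (A : Set Z) (h : G) :
    h • indL hZ z0 A = indL hZ z0 (h • A) := by
  refine LU.ext ?_
  ext g
  change indFun z0 A (h⁻¹ * g) = indFun z0 (h • A) g
  unfold indFun
  rw [mul_smul, Set.mem_smul_set_iff_inv_smul_mem]

theorem smul_val_indL (hZ : TrivNear G Z) (z0 : Z) (A : Set Z) (h : G) (x : FB G) :
    (h • x).val (indL hZ z0 A) = x.val (indL hZ z0 (h⁻¹ • A)) := by
  rw [FB.val_smul, dact_apply, smul_indL]

/-- Main averaging argument. -/
theorem exists_not_fixed (hZ : TrivNear G Z) [Nonempty Z] (C : Set G) (U : Set Z)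
    (hU : ∀ c ∈ C, ∀ z ∈ U, c • z ∉ U) (g : Fin 3 → G)
    (hg : ∀ i j, i ≠ j → ∀ z : Z, z ∈ g i • U ∨ z ∈ g j • U) :
    ∃ x : FB G, ∀ c ∈ C, c • x ≠ x := by
  obtain ⟨z0⟩ : Nonempty Z := inferInstance
  obtain ⟨x0⟩ : Nonempty (FB G) := inferInstance
  have hm := x0.val_means
  -- the measures of the complements
  have hsum : x0.val (lone - indL hZ z0 (g 0 • U)) + x0.val (lone - indL hZ z0 (g 1 • U)) +
      x0.val (lone - indL hZ z0 (g 2 • U)) ≤ 1 := by
    rw [← map_add, ← map_add, ← hm.2]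
    refine Means.mono hm fun y => ?_
    change (1 - indFun z0 (g 0 • U) y) + (1 - indFun z0 (g 1 • U) y) +
      (1 - indFun z0 (g 2 • U) y) ≤ 1
    have h01 := hg 0 1 (by decide) (y • z0)
    have h02 := hg 0 2 (by decide) (y • z0)
    have h12 := hg 1 2 (by decide) (y • z0)
    unfold indFun
    split_ifs with a b c <;> norm_num <;> tauto
  have hex : ∃ i, 2 / 3 ≤ x0.val (indL hZ z0 (g i • U)) := by
    by_contra hcon
    push Not at hcon
    have e0 := hcon 0
    have e1 := hcon 1
    have e2 := hcon 2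
    rw [map_sub, map_sub, map_sub, hm.2] at hsum
    linarith
  obtain ⟨i, hi⟩ := hex
  refine ⟨(g i)⁻¹ • x0, fun c hc hfix => ?_⟩
  set x := (g i)⁻¹ • x0 with hx
  have h1 : 2 / 3 ≤ x.val (indL hZ z0 U) := by
    rw [hx, smul_val_indL, inv_inv]
    exact hi
  have h2 : x.val (indL hZ z0 (c • U)) = x.val (indL hZ z0 U) := by
    conv_lhs => rw [← hfix]
    rw [smul_val_indL, inv_smul_smul]
  have h3 : x.val (indL hZ z0 U) + x.val (indL hZ z0 (c • U)) ≤ 1 := by
    rw [← map_add, ← x.val_means.2]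
    refine Means.mono x.val_means fun y => ?_
    change indFun z0 U y + indFun z0 (c • U) y ≤ 1
    unfold indFun
    split_ifs with a b
    · exfalso
      obtain ⟨w, hw, hwy⟩ := b
      have := hU c hc w hw
      simp only at hwy
      rw [hwy] at this
      exact this a
    all_goals norm_num
  linarith

end Ind

section Baire

variable {G : Type*} [Group G] [TopologicalSpace G] [IsTopologicalGroup G]

instance : MulAction.IsMinimal G (FB G) := ⟨FB.dense_orbit⟩

theorem isOpen_notfixed {C : Set G} (hC : IsCompact C) :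
    IsOpen {x : FB G | ∀ c ∈ C, c • x ≠ x} := by
  rw [← isClosed_compl_iff]
  have : {x : FB G | ∀ c ∈ C, c • x ≠ x}ᶜ =
      Prod.snd '' ((C ×ˢ (univ : Set (FB G))) ∩ {p : G × FB G | p.1 • p.2 = p.2}) := by
    ext x
    simp only [mem_compl_iff, mem_ofPred_eq, not_forall, not_not, mem_image, mem_inter_iff,
      mem_prod, mem_univ, and_true, Prod.exists, exists_eq_right, exists_prop]
  rw [this]
  refine IsCompact.isClosed ?_
  refine IsCompact.image ?_ continuous_snd
  refine (hC.prod isCompact_univ).inter_right ?_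
  exact isClosed_eq (by fun_prop) continuous_snd

theorem dense_notfixed
    (H : ∀ C : Set G, IsCompact C → (1 : G) ∉ C → ∃ x : FB G, ∀ c ∈ C, c • x ≠ x)
    {C : Set G} (hC : IsCompact C) (h1 : (1 : G) ∉ C) :
    Dense {x : FB G | ∀ c ∈ C, c • x ≠ x} := by
  rw [dense_iff_inter_open]
  intro V hV hVne
  obtain ⟨F, hF⟩ := isCompact_univ.exists_finite_cover_smul (G := G) hV hVne
  set C' : Set G := ⋃ h ∈ F, (fun c => h * c * h⁻¹) '' C with hC'
  have hC'c : IsCompact C' := F.isCompact_biUnion fun h _ => hC.image (by fun_prop)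
  have hC'1 : (1 : G) ∉ C' := by
    rw [hC']
    simp only [mem_iUnion, mem_image, not_exists]
    rintro h _ c ⟨hc, hce⟩
    have : c = 1 := by
      have e : c = h⁻¹ * (h * c * h⁻¹) * h := by group
      rw [e, hce]; group
    exact h1 (this ▸ hc)
  obtain ⟨x, hx⟩ := H C' hC'c hC'1
  have hxu := hF (mem_univ x)
  rw [mem_iUnion₂] at hxu
  obtain ⟨h, hhF, hxh⟩ := hxu
  obtain ⟨y, hy, hyx⟩ := hxh
  simp only at hyx
  refine ⟨y, hy, fun c hc hcy => ?_⟩
  refine hx (h * c * h⁻¹) (mem_biUnion hhF ⟨c, hc, rfl⟩) ?_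
  rw [← hyx, mul_smul, mul_smul, inv_smul_smul, hcy]

theorem exists_free_point [LocallyCompactSpace G] [T2Space G] [SecondCountableTopology G]
    (H : ∀ C : Set G, IsCompact C → (1 : G) ∉ C → ∃ x : FB G, ∀ c ∈ C, c • x ≠ x) :
    ∃ x : FB G, MulAction.stabilizer G x = ⊥ := by
  let W := {g : G // g ∈ ({1}ᶜ : Set G)}
  have hWo : IsOpen ({1}ᶜ : Set G) := isOpen_compl_singleton
  haveI : LocallyCompactSpace ({1}ᶜ : Set G) := hWo.locallyCompactSpace
  haveI : SigmaCompactSpace ({1}ᶜ : Set G) := inferInstance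
  let C : ℕ → Set G := fun k => Subtype.val '' (compactCovering ({1}ᶜ : Set G) k)
  have hCc : ∀ k, IsCompact (C k) := fun k =>
    (isCompact_compactCovering _ k).image continuous_subtype_val
  have hC1 : ∀ k, (1 : G) ∉ C k := by
    rintro k ⟨w, _, hw⟩
    exact w.2 hw
  have hcov : ∀ g : G, g ≠ 1 → ∃ k, g ∈ C k := by
    intro g hg
    have : (⟨g, hg⟩ : ({1}ᶜ : Set G)) ∈ ⋃ k, compactCovering ({1}ᶜ : Set G) k := by
      rw [iUnion_compactCovering]; trivial
    obtain ⟨k, hk⟩ := mem_iUnion.1 this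
    exact ⟨k, _, hk, rfl⟩
  have hd : Dense (⋂ k, {x : FB G | ∀ c ∈ C k, c • x ≠ x}) :=
    dense_iInter_of_isOpen (fun k => isOpen_notfixed (hCc k))
      fun k => dense_notfixed H (hCc k) (hC1 k)
  obtain ⟨x, hx⟩ := hd.nonempty
  refine ⟨x, ?_⟩
  rw [Subgroup.eq_bot_iff_forall]
  intro g hg
  by_contra hg1
  obtain ⟨k, hk⟩ := hcov g hg1
  exact mem_iInter.1 hx k g hk hg

end Baire

section Cont

variable {G : Type*} {X : Type*} [Group G] [TopologicalSpace G] [TopologicalSpace X]
  [T2Space X] [MulAction G X] [ContinuousSMul G X]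

/-- a point with trivial stabilizer is a continuity point of the stabilizer map -/
theorem continuousAt_stabilizerMap {z : X} (hz : MulAction.stabilizer G z = ⊥) :
    ContinuousAt (stabilizerMap G X) z := by
  rw [ContinuousAt]
  rw [TopologicalSpace.tendsto_nhds_generateFrom_iff]
  rintro s (⟨C, hC, rfl⟩ | ⟨U, hU, rfl⟩) hs
  · have h1 : ∀ c ∈ C, c • z ≠ z := by
      intro c hc hcz
      have hmem : c ∈ ((MulAction.stabilizer G z : Subgroup G) : Set G) ∩ C := ⟨hcz, hc⟩
      have hs' : ((MulAction.stabilizer G z : Subgroup G) : Set G) ∩ C = ∅ := hs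
      rw [hs'] at hmem
      exact hmem
    -- openness of the set of points not fixed by any element of C
    have hopen : ∀ᶠ x in 𝓝 z, ∀ c ∈ C, c • x ≠ x := by
      refine hC.eventually_forall_of_forall_eventually fun c hc => ?_
      have hne : IsOpen {p : X × G | p.2 • p.1 ≠ p.1} :=
        isOpen_ne_fun (by fun_prop) continuous_fst
      exact hne.mem_nhds (h1 c hc)
    filter_upwards [hopen] with x hx
    change ((MulAction.stabilizer G x : Subgroup G) : Set G) ∩ C = ∅
    rw [Set.eq_empty_iff_forall_notMem]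
    rintro c ⟨hc1, hc2⟩
    exact hx c hc2 hc1
  · filter_upwards with x
    obtain ⟨g, hg1, hg2⟩ := hs
    have hg1' : g ∈ MulAction.stabilizer G z := hg1
    rw [hz, Subgroup.mem_bot] at hg1'
    refine ⟨1, ?_, hg1' ▸ hg2⟩
    exact (MulAction.stabilizer G x).one_mem

end Cont

end QReg
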