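import Mathlib
import Pool.Agent.Lib.MP_b0e80c_an.Defs

open MeasureTheory Topology Set Filter
open scoped ENNReal

namespace QReg

section CStar

variable {G : Type*} [Group G] [TopologicalSpace G] [IsTopologicalGroup G]
  [LocallyCompactSpace G] [MeasurableSpace G] [BorelSpace G]
  {E : Type*} [NormedAddCommGroup E] [InnerProductSpace ℂ E] [CompleteSpace E]

/-- `T` is the operator `π(F) = ∫ F(g) π(g) dg` (integral with respect to left Haar measure, in
the weak sense). -/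
def IsIntegratedForm (π : G → (E →L[ℂ] E)) (F : G → ℂ) (T : E →L[ℂ] E) : Prop :=
  ∀ ξ η : E, inner ℂ η (T ξ) = ∫ g, F g * inner ℂ η (π g ξ) ∂(Measure.haar : Measure G)

/-- `C*_π(G)`: the norm closure of `π(L¹(G))` in `B(E)`. -/
def cstar (π : G → (E →L[ℂ] E)) : Set (E →L[ℂ] E) :=
  closure {T | ∃ F : G → ℂ, Integrable F (Measure.haar : Measure G) ∧ IsIntegratedForm π F T}

/-- A C*-algebra `A ⊆ B(E)` is simple if its only closed two-sided ideals are `0` and `A`. -/
def IsSimpleCstar (A : Set (E →L[ℂ] E)) : Prop :=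
  ∀ I : Submodule ℂ (E →L[ℂ] E), IsClosed (I : Set (E →L[ℂ] E)) → (I : Set (E →L[ℂ] E)) ⊆ A →
    (∀ a ∈ A, ∀ x ∈ I, a * x ∈ I ∧ x * a ∈ I) → I = ⊥ ∨ (I : Set (E →L[ℂ] E)) = A

end CStar


end QReg
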