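import Mathlib
import Pool.Agent.Lib.MP_b0e80c_an.OldDefs

open Topology Set Filter MeasureTheory
open scoped Pointwise

set_option linter.unusedSectionVars false

namespace QReg

open Pool.Agent.Lib.MP_b0e80c_an

section Rep

variable {G : Type*} [Group G] [TopologicalSpace G] [IsTopologicalGroup G]
  [LocallyCompactSpace G] [T2Space G] [SecondCountableTopology G] [MeasurableSpace G]
  [BorelSpace G]
  {E : Type*} [NormedAddCommGroup E] [InnerProductSpace ℂ E] [CompleteSpace E]

/-- strongly continuous contractive representation -/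
structure IsRep (π : G → (E →L[ℂ] E)) : Prop where
  map_mul : ∀ g h ξ, π (g * h) ξ = π g (π h ξ)
  norm_le : ∀ g ξ, ‖π g ξ‖ ≤ ‖ξ‖
  cont : ∀ ξ, Continuous fun g => π g ξ

variable {π : G → (E →L[ℂ] E)}

theorem IsRep.integrable (hπ : IsRep π) {F : G → ℂ} (hF : Integrable F (Measure.haar : Measure G)) (ξ : E) :
    Integrable (fun g => F g • π g ξ) (Measure.haar : Measure G) := by
  refine (hF.norm.mul_const ‖ξ‖).mono' ?_ ?_
  · exact hF.aestronglyMeasurable.smul (hπ.cont ξ).aestronglyMeasurable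
  · refine ae_of_all _ fun g => ?_
    rw [norm_smul]
    exact mul_le_mul_of_nonneg_left (hπ.norm_le g ξ) (norm_nonneg _)

/-- the integrated form as an operator -/
noncomputable def integ (hπ : IsRep π) {F : G → ℂ} (hF : Integrable F (Measure.haar : Measure G)) : E →L[ℂ] E :=
  LinearMap.mkContinuous
    { toFun := fun ξ => ∫ g, F g • π g ξ ∂(Measure.haar : Measure G)
      map_add' := fun ξ η => by
        simp only [map_add, smul_add]
        exact integral_add (hπ.integrable hF ξ) (hπ.integrable hF η)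
      map_smul' := fun c ξ => by
        simp only [map_smul, RingHom.id_apply]
        rw [← integral_smul]
        congr 1
        ext g
        rw [smul_comm] } (∫ g, ‖F g‖ ∂(Measure.haar : Measure G)) (fun ξ => by
      rw [← integral_mul_const]
      refine norm_integral_le_of_norm_le (hF.norm.mul_const ‖ξ‖) ?_
      refine ae_of_all _ fun g => ?_
      rw [norm_smul]
      exact mul_le_mul_of_nonneg_left (hπ.norm_le g ξ) (norm_nonneg _))

theorem integ_apply (hπ : IsRep π) {F : G → ℂ} (hF : Integrable F (Measure.haar : Measure G)) (ξ : E) :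
    integ hπ hF ξ = ∫ g, F g • π g ξ ∂(Measure.haar : Measure G) := rfl

theorem integ_isIntegratedForm (hπ : IsRep π) {F : G → ℂ} (hF : Integrable F (Measure.haar : Measure G)) :
    IsIntegratedForm π F (integ hπ hF) := by
  intro ξ η
  rw [integ_apply, ← integral_inner (hπ.integrable hF ξ)]
  congr 1
  ext g
  rw [inner_smul_right]

theorem eq_integ (hπ : IsRep π) {F : G → ℂ} (hF : Integrable F (Measure.haar : Measure G)) {T : E →L[ℂ] E}
    (hT : IsIntegratedForm π F T) : T = integ hπ hF := by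
  ext ξ
  refine ext_inner_left ℂ fun η => ?_
  rw [hT ξ η, integ_isIntegratedForm hπ hF ξ η]

/-- the operators `π(F)` -/
def opSet (π : G → (E →L[ℂ] E)) : Set (E →L[ℂ] E) :=
  {T | ∃ F : G → ℂ, Integrable F (Measure.haar : Measure G) ∧ IsIntegratedForm π F T}

theorem cstar_eq (π : G → (E →L[ℂ] E)) : cstar π = closure (opSet π) := rfl

theorem opSet_add (hπ : IsRep π) {S T : E →L[ℂ] E} (hS : S ∈ opSet π) (hT : T ∈ opSet π) :
    S + T ∈ opSet π := by
  obtain ⟨F, hF, hSF⟩ := hS
  obtain ⟨F', hF', hTF⟩ := hT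
  refine ⟨fun g => F g + F' g, hF.add hF', ?_⟩
  rw [eq_integ hπ hF hSF, eq_integ hπ hF' hTF]
  have : integ hπ hF + integ hπ hF' = integ hπ (hF.add hF') := by
    ext ξ
    change (∫ g, F g • π g ξ ∂(Measure.haar : Measure G)) + (∫ g, F' g • π g ξ ∂(Measure.haar : Measure G)) = ∫ g, (F g + F' g) • π g ξ ∂(Measure.haar : Measure G)
    rw [← integral_add (hπ.integrable hF ξ) (hπ.integrable hF' ξ)]
    congr 1
    ext g
    rw [add_smul]
  rw [this]
  exact integ_isIntegratedForm hπ _

theorem opSet_smul (hπ : IsRep π) (c : ℂ) {T : E →L[ℂ] E} (hT : T ∈ opSet π) :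
    c • T ∈ opSet π := by
  obtain ⟨F, hF, hTF⟩ := hT
  refine ⟨fun g => c * F g, hF.const_mul c, ?_⟩
  intro ξ η
  rw [ContinuousLinearMap.smul_apply, inner_smul_right, hTF ξ η, ← integral_const_mul]
  congr 1
  ext g
  ring

theorem opSet_zero (hπ : IsRep π) : (0 : E →L[ℂ] E) ∈ opSet π :=
  ⟨fun _ => 0, integrable_zero _ _ _, fun ξ η => by simp⟩

theorem opSet_mul (hπ : IsRep π) {S T : E →L[ℂ] E} (hS : S ∈ opSet π) (hT : T ∈ opSet π) :
    S * T ∈ opSet π := by
  obtain ⟨F1, hF1, hS1⟩ := hS
  obtain ⟨F2, hF2, hT2⟩ := hT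
  have hT2' := eq_integ hπ hF2 hT2
  have hprod : Integrable (fun p : G × G => F1 p.1 * F2 (p.1⁻¹ * p.2)) ((Measure.haar : Measure G).prod (Measure.haar : Measure G)) := by
    have h := hF1.mul_prod hF2
    exact (measurePreserving_prod_inv_mul (Measure.haar : Measure G) (Measure.haar : Measure G)).integrable_comp_of_integrable h
  have hF : Integrable (fun x => ∫ g, F1 g * F2 (g⁻¹ * x) ∂(Measure.haar : Measure G)) (Measure.haar : Measure G) := hprod.integral_prod_right
  refine ⟨fun x => ∫ g, F1 g * F2 (g⁻¹ * x) ∂(Measure.haar : Measure G), hF, ?_⟩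
  intro ξ η
  rw [ContinuousLinearMap.mul_apply, hS1]
  have h1 : ∀ g, inner ℂ η (π g (T ξ)) = ∫ x, F2 (g⁻¹ * x) * inner ℂ η (π x ξ) ∂(Measure.haar : Measure G) := by
    intro g
    rw [hT2', integ_apply, ← ContinuousLinearMap.integral_comp_comm _ (hπ.integrable hF2 ξ),
      ← integral_inner ((π g).integrable_comp (hπ.integrable hF2 ξ))]
    rw [← integral_mul_left_eq_self (μ := (Measure.haar : Measure G)) (fun x => F2 (g⁻¹ * x) * inner ℂ η (π x ξ)) g]
    congr 1
    ext x
    rw [inv_mul_cancel_left, map_smul, inner_smul_right, hπ.map_mul]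
  have hint2 : Integrable (Function.uncurry fun g x =>
      F1 g * F2 (g⁻¹ * x) * inner ℂ η (π x ξ)) ((Measure.haar : Measure G).prod (Measure.haar : Measure G)) := by
    refine (hprod.norm.mul_const (‖η‖ * ‖ξ‖)).mono' ?_ ?_
    · refine hprod.aestronglyMeasurable.mul ?_
      have : Continuous fun p : G × G => inner ℂ η (π p.2 ξ) :=
        continuous_const.inner ((hπ.cont ξ).comp continuous_snd)
      exact this.aestronglyMeasurable
    · refine ae_of_all _ fun p => ?_
      simp only [Function.uncurry]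
      rw [norm_mul]
      refine mul_le_mul_of_nonneg_left ?_ (norm_nonneg _)
      exact (norm_inner_le_norm _ _).trans
        (mul_le_mul_of_nonneg_left (hπ.norm_le _ _) (norm_nonneg _))
  calc ∫ g, F1 g * inner ℂ η (π g (T ξ)) ∂(Measure.haar : Measure G)
      = ∫ g, ∫ x, F1 g * F2 (g⁻¹ * x) * inner ℂ η (π x ξ) ∂(Measure.haar : Measure G) ∂(Measure.haar : Measure G) := by
        congr 1
        ext g
        rw [h1 g, ← integral_const_mul]
        congr 1
        ext x
        ring
    _ = ∫ x, ∫ g, F1 g * F2 (g⁻¹ * x) * inner ℂ η (π x ξ) ∂(Measure.haar : Measure G) ∂(Measure.haar : Measure G) :=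
        integral_integral_swap hint2
    _ = ∫ x, (∫ g, F1 g * F2 (g⁻¹ * x) ∂(Measure.haar : Measure G)) * inner ℂ η (π x ξ) ∂(Measure.haar : Measure G) := by
        congr 1
        ext x
        rw [integral_mul_const]

theorem cstar_add (hπ : IsRep π) {S T : E →L[ℂ] E} (hS : S ∈ cstar π) (hT : T ∈ cstar π) :
    S + T ∈ cstar π :=
  map_mem_closure₂ continuous_add hS hT fun _ h1 _ h2 => opSet_add hπ h1 h2

theorem cstar_mul (hπ : IsRep π) {S T : E →L[ℂ] E} (hS : S ∈ cstar π) (hT : T ∈ cstar π) :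
    S * T ∈ cstar π :=
  map_mem_closure₂ continuous_mul hS hT fun _ h1 _ h2 => opSet_mul hπ h1 h2

theorem cstar_smul (hπ : IsRep π) (c : ℂ) {T : E →L[ℂ] E} (hT : T ∈ cstar π) :
    c • T ∈ cstar π :=
  map_mem_closure (continuous_const_smul c) hT fun _ h => opSet_smul hπ c h

theorem cstar_zero (hπ : IsRep π) : (0 : E →L[ℂ] E) ∈ cstar π := subset_closure (opSet_zero hπ)

/-- the ideal -/
def idealI (hπ : IsRep π) (f : ℕ → E) : Submodule ℂ (E →L[ℂ] E) where
  carrier := {T | T ∈ cstar π ∧ ∀ S ∈ cstar π, Tendsto (fun j => T (S (f j))) atTop (𝓝 0)}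
  add_mem' := by
    rintro T T' ⟨h1, h2⟩ ⟨h1', h2'⟩
    refine ⟨cstar_add hπ h1 h1', fun S hS => ?_⟩
    simpa using (h2 S hS).add (h2' S hS)
  zero_mem' := ⟨cstar_zero hπ, fun S hS => by simp⟩
  smul_mem' := by
    rintro c T ⟨h1, h2⟩
    refine ⟨cstar_smul hπ c h1, fun S hS => ?_⟩
    simpa using (h2 S hS).const_smul c

theorem isClosed_idealI (hπ : IsRep π) (f : ℕ → E) (hf : ∀ j, ‖f j‖ = 1) :
    IsClosed (idealI hπ f : Set (E →L[ℂ] E)) := by
  refine isClosed_of_closure_subset fun T hT => ?_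
  refine ⟨?_, fun S hS => ?_⟩
  · have : (idealI hπ f : Set (E →L[ℂ] E)) ⊆ cstar π := fun T hT => hT.1
    exact closure_minimal this isClosed_closure hT
  · rw [Metric.tendsto_atTop]
    intro ε hε
    rw [Metric.mem_closure_iff] at hT
    obtain ⟨T', hT', hd⟩ := hT (ε / (2 * (‖S‖ + 1))) (by positivity)
    have h2 := hT'.2 S hS
    rw [Metric.tendsto_atTop] at h2
    obtain ⟨N, hN⟩ := h2 (ε / 2) (half_pos hε)
    refine ⟨N, fun n hn => ?_⟩
    have h3 := hN n hn
    rw [dist_zero_right] at h3 ⊢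
    have e : T (S (f n)) = (T - T') (S (f n)) + T' (S (f n)) := by simp
    rw [e]
    refine (norm_add_le _ _).trans_lt ?_
    have h4 : ‖(T - T') (S (f n))‖ ≤ ‖T - T'‖ * (‖S‖ * 1) := by
      refine ((T - T').le_opNorm _).trans ?_
      refine mul_le_mul_of_nonneg_left ?_ (norm_nonneg _)
      rw [← hf n]
      exact S.le_opNorm _
    rw [dist_eq_norm] at hd
    have h5 : ‖T - T'‖ * (‖S‖ * 1) ≤ ε / (2 * (‖S‖ + 1)) * (‖S‖ + 1) :=
      mul_le_mul hd.le (by linarith) (by positivity) (by positivity)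
    have h6 : ε / (2 * (‖S‖ + 1)) * (‖S‖ + 1) = ε / 2 := by field_simp
    linarith

theorem idealI_ideal (hπ : IsRep π) (f : ℕ → E) :
    ∀ a ∈ cstar π, ∀ x ∈ idealI hπ f, a * x ∈ idealI hπ f ∧ x * a ∈ idealI hπ f := by
  rintro a ha x ⟨hx1, hx2⟩
  refine ⟨⟨cstar_mul hπ ha hx1, fun S hS => ?_⟩, ⟨cstar_mul hπ hx1 ha, fun S hS => ?_⟩⟩
  · have := (a.continuous.tendsto 0).comp (hx2 S hS)
    rw [map_zero] at this
    exact this
  · exact hx2 (a * S) (cstar_mul hπ ha hS)

theorem integrable_indicator_one {L : Set G} (hLc : IsCompact L) (hLo : IsOpen L) :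
    Integrable (L.indicator fun _ => (1 : ℂ)) (Measure.haar : Measure G) :=
  (integrable_indicator_iff hLo.measurableSet).2
    (integrableOn_const (by exact hLc.measure_lt_top.ne) (by simp))

/-- The criterion. -/
theorem not_simple (hπ : IsRep π) (L K : Subgroup G) (hLc : IsCompact (L : Set G))
    (hLo : IsOpen (L : Set G)) (hKc : IsCompact (K : Set G)) (hKo : IsOpen (K : Set G))
    (hcomm : ∀ a ∈ L, ∀ b ∈ L, a * b = b * a)
    (f : ℕ → E) (hf : ∀ j, ‖f j‖ = 1) (hK : ∀ k ∈ K, ∀ᶠ j in atTop, π k (f j) = f j)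
    (hK' : ∀ᶠ j in atTop, ∀ k ∈ K, π k (f j) = f j)
    (hL : ∀ h : G, ∃ l ∈ L, ∀ᶠ j in atTop, π (h⁻¹ * l * h) (f j) = -f j)
    (hξ : ∃ ξ : E, ξ ≠ 0 ∧ ∀ l ∈ L, π l ξ = ξ) :
    ¬ IsSimpleCstar (cstar π) := by
  intro hsimple
  set pL := integ hπ (integrable_indicator_one hLc hLo) with hpL
  set pK := integ hπ (integrable_indicator_one hKc hKo) with hpK
  have hpLm : pL ∈ cstar π :=
    subset_closure ⟨_, integrable_indicator_one hLc hLo, integ_isIntegratedForm hπ _⟩
  have hpKm : pK ∈ cstar π :=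
    subset_closure ⟨_, integrable_indicator_one hKc hKo, integ_isIntegratedForm hπ _⟩
  -- vectors negated by an element of L are killed
  have hkill : ∀ (ζ : E) (l : G), l ∈ L → π l ζ = -ζ → pL ζ = 0 := by
    intro ζ l hl hζ
    have h1 : pL ζ = -pL ζ := by
      conv_lhs => rw [hpL, integ_apply]
      rw [hpL, integ_apply, ← integral_neg,
        ← integral_mul_left_eq_self (μ := (Measure.haar : Measure G))
          (fun g => -((L : Set G).indicator (fun _ => (1:ℂ)) g • π g ζ)) l]
      congr 1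
      ext g
      by_cases hg : g ∈ (L : Set G)
      · have hlg : l * g ∈ (L : Set G) := L.mul_mem hl hg
        rw [indicator_of_mem hg, indicator_of_mem hlg, one_smul, one_smul, hcomm l hl g hg,
          hπ.map_mul, hζ, map_neg, neg_neg]
      · have hlg : l * g ∉ (L : Set G) := by
          intro h
          exact hg ((L.mul_mem_cancel_left hl).1 h)
        rw [indicator_of_notMem hg, indicator_of_notMem hlg, zero_smul, zero_smul, neg_zero]
    have h2 : (2 : ℂ) • pL ζ = 0 := by
      rw [two_smul]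
      nth_rw 1 [h1]
      simp
    exact (smul_eq_zero.1 h2).resolve_left (by norm_num)
  have hpt : ∀ h : G, ∀ᶠ j in atTop, pL (π h (f j)) = 0 := by
    intro h
    obtain ⟨l, hl, hj⟩ := hL h
    filter_upwards [hj] with j hj
    refine hkill _ l hl ?_
    have : π l (π h (f j)) = π h (π (h⁻¹ * l * h) (f j)) := by
      rw [← hπ.map_mul, ← hπ.map_mul]
      congr 2
      group
    rw [this, hj, map_neg]
  -- pL ∈ I
  have hpLI : pL ∈ idealI hπ f := by
    refine ⟨hpLm, ?_⟩
    -- first for integrated forms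
    have hop : ∀ S ∈ opSet π, Tendsto (fun j => pL (S (f j))) atTop (𝓝 0) := by
      rintro S ⟨F, hF, hSF⟩
      rw [eq_integ hπ hF hSF]
      have e : ∀ j, pL (integ hπ hF (f j)) = ∫ g, F g • pL (π g (f j)) ∂(Measure.haar : Measure G) := by
        intro j
        have e1 := ContinuousLinearMap.integral_comp_comm pL (hπ.integrable hF (f j))
        have e2 : pL (integ hπ hF (f j)) = pL (∫ g, F g • π g (f j) ∂(Measure.haar : Measure G)) := rfl
        rw [e2, ← e1]
        simp only [map_smul]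
      simp only [e]
      have hz : (0 : E) = ∫ g : G, (0 : E) ∂(Measure.haar : Measure G) := by simp
      rw [hz]
      refine tendsto_integral_of_dominated_convergence (fun g => ‖F g‖ * ‖pL‖) ?_ ?_ ?_ ?_
      · intro j
        refine hF.aestronglyMeasurable.smul ?_
        exact (pL.continuous.comp (hπ.cont (f j))).aestronglyMeasurable
      · exact hF.norm.mul_const _
      · intro j
        refine ae_of_all _ fun g => ?_
        rw [norm_smul]
        refine mul_le_mul_of_nonneg_left ?_ (norm_nonneg _)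
        refine (pL.le_opNorm _).trans ?_
        have := hπ.norm_le g (f j)
        rw [hf j] at this
        nlinarith [norm_nonneg pL]
      · refine ae_of_all _ fun g => ?_
        refine tendsto_const_nhds.congr' ?_
        filter_upwards [hpt g] with j hj
        rw [hj, smul_zero]
    intro S hS
    rw [Metric.tendsto_atTop]
    intro ε hε
    have hS' : S ∈ closure (opSet π) := hS
    rw [Metric.mem_closure_iff] at hS'
    obtain ⟨S', hS'm, hd⟩ := hS' (ε / (2 * (‖pL‖ + 1))) (by positivity)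
    have h2 := hop S' hS'm
    rw [Metric.tendsto_atTop] at h2
    obtain ⟨N, hN⟩ := h2 (ε / 2) (half_pos hε)
    refine ⟨N, fun n hn => ?_⟩
    have h3 := hN n hn
    rw [dist_zero_right] at h3 ⊢
    have e : pL (S (f n)) = pL ((S - S') (f n)) + pL (S' (f n)) := by simp
    rw [e]
    refine (norm_add_le _ _).trans_lt ?_
    have h4 : ‖pL ((S - S') (f n))‖ ≤ ‖pL‖ * (‖S - S'‖ * 1) := by
      refine (pL.le_opNorm _).trans ?_
      refine mul_le_mul_of_nonneg_left ?_ (norm_nonneg _)
      rw [← hf n]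
      exact (S - S').le_opNorm _
    rw [dist_eq_norm] at hd
    have h5 : ‖pL‖ * (‖S - S'‖ * 1) ≤ (‖pL‖ + 1) * (ε / (2 * (‖pL‖ + 1))) :=
      mul_le_mul (by linarith) (by linarith) (by positivity) (by positivity)
    have h6 : (‖pL‖ + 1) * (ε / (2 * (‖pL‖ + 1))) = ε / 2 := by field_simp
    linarith
  have hfix : ∀ (M : Subgroup G) (hMc : IsCompact (M : Set G)) (hMo : IsOpen (M : Set G))
      (ζ : E), (∀ m ∈ M, π m ζ = ζ) →
      integ hπ (integrable_indicator_one hMc hMo) ζ = ((Measure.haar : Measure G).real (M : Set G) : ℂ) • ζ := by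
    intro M hMc hMo ζ hζ
    rw [integ_apply]
    have : (fun g => (M : Set G).indicator (fun _ => (1:ℂ)) g • π g ζ) =
        fun g => (M : Set G).indicator (fun _ => (1:ℂ)) g • ζ := by
      ext g
      by_cases hg : g ∈ (M : Set G)
      · rw [indicator_of_mem hg, hζ g hg]
      · rw [indicator_of_notMem hg, zero_smul, zero_smul]
    rw [this, integral_smul_const, integral_indicator hMo.measurableSet]
    simp
  have hpos : ∀ (M : Subgroup G), IsCompact (M : Set G) → IsOpen (M : Set G) →
      (Measure.haar : Measure G).real (M : Set G) ≠ 0 := by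
    intro M hMc hMo
    rw [measureReal_def, ENNReal.toReal_ne_zero]
    exact ⟨(hMo.measure_pos (Measure.haar : Measure G) ⟨1, M.one_mem⟩).ne', hMc.measure_lt_top.ne⟩
  rcases hsimple (idealI hπ f) (isClosed_idealI hπ f hf) (fun T hT => hT.1)
    (idealI_ideal hπ f) with h | h
  · -- pL = 0
    rw [h, Submodule.mem_bot] at hpLI
    obtain ⟨ξ, hξ0, hξL⟩ := hξ
    have h1 := hfix L hLc hLo ξ hξL
    rw [← hpL, hpLI, ContinuousLinearMap.zero_apply] at h1
    rcases smul_eq_zero.1 h1.symm with h2 | h2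
    · exact hpos L hLc hLo (by exact_mod_cast h2)
    · exact hξ0 h2
  · -- pK ∈ I
    have hpKI : pK ∈ idealI hπ f := by
      have : pK ∈ (idealI hπ f : Set (E →L[ℂ] E)) := h ▸ hpKm
      exact this
    have h1 := hpKI.2 pK hpKm
    have h2 : ∀ᶠ j in atTop, pK (pK (f j)) =
        (((Measure.haar : Measure G).real (K : Set G) : ℂ) * ((Measure.haar : Measure G).real (K : Set G) : ℂ)) • f j := by
      filter_upwards [hK'] with j hj
      have e1 := hfix K hKc hKo (f j) hj
      rw [← hpK] at e1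
      rw [e1, map_smul, e1, smul_smul]
    have h3 : Tendsto (fun j : ℕ => ‖pK (pK (f j))‖) atTop (𝓝 0) := by
      simpa using h1.norm
    have h4 : Tendsto (fun _ : ℕ => (Measure.haar : Measure G).real (K : Set G) * (Measure.haar : Measure G).real (K : Set G)) atTop
        (𝓝 0) := by
      refine h3.congr' ?_
      filter_upwards [h2] with j hj
      rw [hj, norm_smul, hf j, mul_one, norm_mul]
      simp
    have h5 := tendsto_nhds_unique h4 tendsto_const_nhds
    have := hpos K hKc hKo
    have h6 : (Measure.haar : Measure G).real (K : Set G) * (Measure.haar : Measure G).real (K : Set G) ≠ 0 := mul_ne_zero this this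
    exact h6 h5.symm

end Rep

end QReg
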