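import Mathlib

open Set

set_option linter.unusedSectionVars false

namespace QReg

section W

variable {Γ : Type} [Group Γ]

/-- the action of `γ` on the letters `Γ × ℕ` -/
def shift (γ : Γ) (p : Γ × ℕ) : Γ × ℕ := (γ * p.1, p.2)

theorem shift_injective (γ : Γ) : Function.Injective (shift γ) := by
  intro p q h
  simp only [shift, Prod.mk.injEq, mul_right_inj] at h
  exact Prod.ext h.1 h.2

/-- the induced automorphism of the free group -/
def act (γ : Γ) : FreeGroup (Γ × ℕ) →* FreeGroup (Γ × ℕ) := FreeGroup.map (shift γ)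

theorem act_one (u : FreeGroup (Γ × ℕ)) : act (1 : Γ) u = u := by
  have : (shift (1 : Γ)) = id := by funext p; simp [shift]
  unfold act
  rw [this, FreeGroup.map.id]

theorem act_mul (γ δ : Γ) (u : FreeGroup (Γ × ℕ)) : act (γ * δ) u = act γ (act δ u) := by
  unfold act
  rw [FreeGroup.map.comp]
  congr 2
  funext p
  simp [shift, mul_assoc]

@[simp] theorem act_inv_act (γ : Γ) (u : FreeGroup (Γ × ℕ)) : act γ⁻¹ (act γ u) = u := by
  rw [← act_mul, inv_mul_cancel, act_one]

@[simp] theorem act_act_inv (γ : Γ) (u : FreeGroup (Γ × ℕ)) : act γ (act γ⁻¹ u) = u := by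
  rw [← act_mul, mul_inv_cancel, act_one]

/-- the affine permutation `u ↦ w γ(u)` -/
def aff (w : FreeGroup (Γ × ℕ)) (γ : Γ) : FreeGroup (Γ × ℕ) ≃ FreeGroup (Γ × ℕ) where
  toFun u := w * act γ u
  invFun u := act γ⁻¹ (w⁻¹ * u)
  left_inv u := by simp
  right_inv u := by simp

@[simp] theorem aff_apply (w : FreeGroup (Γ × ℕ)) (γ : Γ) (u : FreeGroup (Γ × ℕ)) :
    aff w γ u = w * act γ u := rfl

@[simp] theorem aff_symm_apply (w : FreeGroup (Γ × ℕ)) (γ : Γ) (u : FreeGroup (Γ × ℕ)) :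
    (aff w γ).symm u = act γ⁻¹ (w⁻¹ * u) := rfl

variable (Γ) in
/-- The group `(⊕_F ℤ/2) ⋊ (F ⋊ Γ)` with `F` the free group on `Γ × ℕ`. -/
@[ext] structure W where
  r : FreeGroup (Γ × ℕ) →₀ ZMod 2
  w : FreeGroup (Γ × ℕ)
  γ : Γ

namespace W

noncomputable instance : Mul (W Γ) :=
  ⟨fun x y => ⟨x.r + Finsupp.equivMapDomain (aff x.w x.γ) y.r, x.w * act x.γ y.w, x.γ * y.γ⟩⟩

instance : One (W Γ) := ⟨⟨0, 1, 1⟩⟩

noncomputable instance : Inv (W Γ) :=
  ⟨fun x => ⟨-Finsupp.equivMapDomain (aff x.w x.γ).symm x.r, act x.γ⁻¹ x.w⁻¹, x.γ⁻¹⟩⟩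

theorem mul_r (x y : W Γ) : (x * y).r = x.r + Finsupp.equivMapDomain (aff x.w x.γ) y.r := rfl
theorem mul_w (x y : W Γ) : (x * y).w = x.w * act x.γ y.w := rfl
theorem mul_γ (x y : W Γ) : (x * y).γ = x.γ * y.γ := rfl
theorem one_r : (1 : W Γ).r = 0 := rfl
theorem one_w : (1 : W Γ).w = 1 := rfl
theorem one_γ : (1 : W Γ).γ = 1 := rfl
theorem inv_r (x : W Γ) : (x⁻¹).r = -Finsupp.equivMapDomain (aff x.w x.γ).symm x.r := rfl
theorem inv_w (x : W Γ) : (x⁻¹).w = act x.γ⁻¹ x.w⁻¹ := rfl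
theorem inv_γ (x : W Γ) : (x⁻¹).γ = x.γ⁻¹ := rfl

noncomputable instance : Group (W Γ) := Group.ofLeftAxioms
  (by
    intro x y z
    ext1
    · rw [mul_r, mul_r, mul_r, mul_r, mul_w, mul_γ]
      ext u
      simp only [Finsupp.add_apply, Finsupp.equivMapDomain_apply, aff_symm_apply, mul_inv_rev,
        add_assoc, act_mul, map_mul, map_inv, act_inv_act]
      simp only [mul_assoc]
    · rw [mul_w, mul_w, mul_w, mul_w, mul_γ, map_mul, act_mul, mul_assoc]
    · simp [mul_γ, mul_assoc])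
  (by
    intro x
    ext1
    · rw [mul_r, one_r, one_w, one_γ, zero_add]
      ext u
      simp [act_one]
    · rw [mul_w, one_w, one_γ, one_mul, act_one]
    · simp [mul_γ, one_γ])
  (by
    intro x
    ext1
    · rw [mul_r, inv_r, inv_w, inv_γ, one_r]
      ext u
      simp only [Finsupp.add_apply, Finsupp.neg_apply, Finsupp.equivMapDomain_apply,
        aff_symm_apply, Equiv.symm_symm, aff_apply, Finsupp.zero_apply, inv_inv, map_mul, map_inv]
      simp only [act_act_inv, neg_add_cancel]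
    · rw [mul_w, inv_w, inv_γ, one_w, ← map_mul]; simp
    · simp [mul_γ, inv_γ, one_γ])

/-- triples -/
def equivProd : W Γ ≃ (FreeGroup (Γ × ℕ) →₀ ZMod 2) × FreeGroup (Γ × ℕ) × Γ where
  toFun x := (x.r, x.w, x.γ)
  invFun x := ⟨x.1, x.2.1, x.2.2⟩
  left_inv _ := rfl
  right_inv _ := rfl

instance [Countable Γ] : Countable (W Γ) := by
  haveI : Countable (FreeGroup (Γ × ℕ)) := by
    unfold FreeGroup; infer_instance
  exact equivProd.injective.countable

/-- projection -/
def prH : W Γ →* Γ where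
  toFun x := x.γ
  map_one' := rfl
  map_mul' _ _ := rfl

/-- embedding -/
def inH : Γ →* W Γ where
  toFun γ := ⟨0, 1, γ⟩
  map_one' := rfl
  map_mul' γ δ := by
    ext1
    · rw [mul_r]; simp
    · rw [mul_w]; simp
    · rfl

/-- the lamp at the origin -/
noncomputable def aE : W Γ := ⟨Finsupp.single 1 1, 1, 1⟩

theorem aE_mul_self : (aE : W Γ) * aE = 1 := by
  ext1
  · rw [mul_r]
    change Finsupp.single 1 1 + Finsupp.equivMapDomain (aff 1 1) (Finsupp.single 1 1) = 0
    rw [Finsupp.equivMapDomain_single]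
    simp only [aff_apply, map_one, mul_one]
    rw [← Finsupp.single_add]
    simp [show (1 : ZMod 2) + 1 = 0 from rfl]
  · rw [mul_w]; simp [aE, one_w]
  · rw [mul_γ]; simp [aE, one_γ]

theorem aE_comm (γ : Γ) : (aE : W Γ) * inH γ = inH γ * aE := by
  ext1
  · rw [mul_r, mul_r]
    change Finsupp.single 1 1 + Finsupp.equivMapDomain (aff 1 1) 0 =
      0 + Finsupp.equivMapDomain (aff 1 γ) (Finsupp.single 1 1)
    rw [Finsupp.equivMapDomain_single, Finsupp.equivMapDomain_zero]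
    simp
  · rw [mul_w, mul_w]; simp [aE, inH]
  · rw [mul_γ, mul_γ]; simp [aE, inH]

@[simp] theorem prH_inH (γ : Γ) : prH (inH γ) = γ := rfl
@[simp] theorem prH_aE : prH (aE : W Γ) = 1 := rfl

/-- the action of `W Γ` on the free group -/
instance : MulAction (W Γ) (FreeGroup (Γ × ℕ)) where
  smul x u := x.w * act x.γ u
  one_smul u := by
    change (1 : FreeGroup (Γ × ℕ)) * act (1 : Γ) u = u
    rw [one_mul, act_one]
  mul_smul x y u := by
    change (x.w * act x.γ y.w) * act (x.γ * y.γ) u = x.w * act x.γ (y.w * act y.γ u)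
    rw [map_mul, act_mul, mul_assoc]

theorem smul_def (x : W Γ) (u : FreeGroup (Γ × ℕ)) : x • u = x.w * act x.γ u := rfl

/-- parity of the number of lamps off the origin -/
noncomputable def par (r : FreeGroup (Γ × ℕ) →₀ ZMod 2) : ZMod 2 :=
  (r.sum fun _ t => t) - r 1

theorem par_add (r s : FreeGroup (Γ × ℕ) →₀ ZMod 2) : par (r + s) = par r + par s := by
  unfold par
  rw [Finsupp.sum_add_index' (fun _ => rfl) (fun _ _ _ => rfl), Finsupp.add_apply]
  ring

theorem par_zero : par (0 : FreeGroup (Γ × ℕ) →₀ ZMod 2) = 0 := by simp [par]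

theorem par_single_one (t : ZMod 2) : par (Finsupp.single (1 : FreeGroup (Γ × ℕ)) t) = 0 := by
  simp [par]

theorem par_single {u : FreeGroup (Γ × ℕ)} (hu : u ≠ 1) (t : ZMod 2) :
    par (Finsupp.single u t) = t := by
  simp [par, Finsupp.single_apply, hu]

theorem par_neg (r : FreeGroup (Γ × ℕ) →₀ ZMod 2) : par (-r) = par r := by
  have h := par_add r (-r)
  rw [add_neg_cancel, par_zero] at h
  have h2 : ∀ x y : ZMod 2, 0 = x + y → y = x := by decide
  exact h2 _ _ h

theorem par_equiv (e : FreeGroup (Γ × ℕ) ≃ FreeGroup (Γ × ℕ)) (he : e 1 = 1)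
    (r : FreeGroup (Γ × ℕ) →₀ ZMod 2) : par (Finsupp.equivMapDomain e r) = par r := by
  unfold par
  have h1 : (Finsupp.equivMapDomain e r).sum (fun _ t => t) = r.sum fun _ t => t := by
    simp [Finsupp.sum, Finsupp.equivMapDomain]
  have h2 : (Finsupp.equivMapDomain e r) 1 = r 1 := by
    rw [Finsupp.equivMapDomain_apply]
    congr 1
    rw [Equiv.symm_apply_eq, he]
  rw [h1, h2]

theorem aff_one_one (γ : Γ) : aff (1 : FreeGroup (Γ × ℕ)) γ 1 = 1 := by simp

theorem par_mul {x y : W Γ} (hx : x.w = 1) : par (x * y).r = par x.r + par y.r := by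
  rw [mul_r, par_add, hx, par_equiv _ (aff_one_one _)]

theorem par_inv {x : W Γ} (hx : x.w = 1) : par (x⁻¹).r = par x.r := by
  rw [inv_r, par_neg, hx]
  refine par_equiv _ ?_ _
  rw [Equiv.symm_apply_eq, aff_one_one]

end W

end W

end QReg
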