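import Mathlib
import Pool.Agent.Lib.MP_b0e80c_an.Grp

open Set Topology Filter
open scoped Pointwise

set_option linter.unusedSectionVars false

namespace QReg

/-- bundled countable groups -/
structure GB where
  T : Type
  grp : Group T
  cnt : Countable T

/-- the tower `Γ_0 = ℤ/2`, `Γ_{n+1} = W(Γ_n)` -/
noncomputable def Gam : ℕ → GB
  | 0 => ⟨Multiplicative (ZMod 2), inferInstance, inferInstance⟩
  | n + 1 =>
    letI := (Gam n).grp
    haveI := (Gam n).cnt
    ⟨W (Gam n).T, inferInstance, inferInstance⟩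

/-- the group `Γ_n` -/
def T (n : ℕ) : Type := (Gam n).T

noncomputable instance (n : ℕ) : Group (T n) := (Gam n).grp
instance (n : ℕ) : Countable (T n) := (Gam n).cnt

/-- `Γ_{n+1} = W(Γ_n)` -/
noncomputable def tW (n : ℕ) : T (n + 1) ≃* W (T n) := MulEquiv.refl _

/-- `Γ_0 = ℤ/2` -/
noncomputable def tZ : T 0 ≃* Multiplicative (ZMod 2) := MulEquiv.refl _

/-- projection `Γ_{n+1} → Γ_n` -/
noncomputable def pr (n : ℕ) : T (n + 1) →* T n := W.prH.comp (tW n).toMonoidHom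

/-- embedding `Γ_n → Γ_{n+1}` -/
noncomputable def io (n : ℕ) : T n →* T (n + 1) := (tW n).symm.toMonoidHom.comp W.inH

/-- the lamp `a_{n+1} ∈ Γ_{n+1}` -/
noncomputable def a (n : ℕ) : T (n + 1) := (tW n).symm W.aE

@[simp] theorem pr_io (n : ℕ) (x : T n) : pr n (io n x) = x := rfl
@[simp] theorem pr_a (n : ℕ) : pr n (a n) = 1 := rfl
theorem pr_eq (n : ℕ) (x : T (n + 1)) : pr n x = (tW n x).γ := rfl
@[simp] theorem tW_io (n : ℕ) (x : T n) : tW n (io n x) = W.inH x := rfl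
@[simp] theorem tW_a (n : ℕ) : tW n (a n) = W.aE := rfl

theorem a_mul_self (n : ℕ) : a n * a n = 1 := (tW n).injective (by
  rw [map_mul, tW_a, W.aE_mul_self, map_one])

theorem a_comm (n : ℕ) (x : T n) : a n * io n x = io n x * a n := (tW n).injective (by
  rw [map_mul, map_mul, tW_a, tW_io, W.aE_comm])

theorem a_inv (n : ℕ) : (a n)⁻¹ = a n := by
  rw [inv_eq_iff_mul_eq_one, a_mul_self]

/-- a step relation: `y ∈ ι(x){1, a}` -/
def Step (n : ℕ) (x : T n) (y : T (n + 1)) : Prop := y = io n x ∨ y = io n x * a n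

theorem Step.pr {n : ℕ} {x : T n} {y : T (n + 1)} (h : Step n x y) : pr n y = x := by
  rcases h with h | h <;> simp [h]

theorem Step.one (n : ℕ) : Step n 1 1 := Or.inl (map_one _).symm

theorem Step.mul {n : ℕ} {x x' : T n} {y y' : T (n + 1)} (h : Step n x y) (h' : Step n x' y') :
    Step n (x * x') (y * y') := by
  rcases h with rfl | rfl <;> rcases h' with rfl | rfl
  · left; rw [map_mul]
  · right; rw [map_mul, mul_assoc]
  · right; rw [map_mul, mul_assoc, a_comm, mul_assoc]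
  · left
    rw [map_mul]
    calc io n x * a n * (io n x' * a n) = io n x * (a n * io n x') * a n := by group
      _ = io n x * io n x' * (a n * a n) := by rw [a_comm]; group
      _ = _ := by rw [a_mul_self, mul_one]

theorem Step.inv {n : ℕ} {x : T n} {y : T (n + 1)} (h : Step n x y) : Step n x⁻¹ y⁻¹ := by
  rcases h with rfl | rfl
  · left; rw [map_inv]
  · right
    rw [mul_inv_rev, a_inv, ← map_inv, a_comm]

/-- level condition -/
def Lev (n : ℕ) (g : ∀ k, T k) : Prop := ∀ k, n ≤ k → Step k (g k) (g (k + 1))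

theorem Lev.mono {n m : ℕ} (h : n ≤ m) {g : ∀ k, T k} (hg : Lev n g) : Lev m g :=
  fun k hk => hg k (h.trans hk)

theorem Lev.mul {n : ℕ} {g h : ∀ k, T k} (hg : Lev n g) (hh : Lev n h) : Lev n (g * h) :=
  fun k hk => (hg k hk).mul (hh k hk)

theorem Lev.inv {n : ℕ} {g : ∀ k, T k} (hg : Lev n g) : Lev n g⁻¹ := fun k hk => (hg k hk).inv

theorem Lev.one (n : ℕ) : Lev n 1 := fun k _ => Step.one k

/-- The group `G` of the counterexample, as a subgroup of `∏ Γ_n`. -/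
noncomputable def GS : Subgroup (∀ k, T k) where
  carrier := {g | (∀ k, pr k (g (k + 1)) = g k) ∧ ∃ n, Lev n g}
  mul_mem' := by
    rintro g h ⟨h1, n, hn⟩ ⟨h1', n', hn'⟩
    refine ⟨fun k => ?_, max n n', (hn.mono (le_max_left _ _)).mul (hn'.mono (le_max_right _ _))⟩
    rw [Pi.mul_apply, Pi.mul_apply, map_mul, h1, h1']
  one_mem' := ⟨fun k => map_one _, 0, Lev.one 0⟩
  inv_mem' := by
    rintro g ⟨h1, n, hn⟩
    refine ⟨fun k => ?_, n, hn.inv⟩
    rw [Pi.inv_apply, Pi.inv_apply, map_inv, h1]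

/-- The group `G` of the counterexample. -/
def GG : Type := GS

noncomputable instance : Group GG := inferInstanceAs (Group GS)

/-- evaluation `G → Γ_n` -/
noncomputable def ev (n : ℕ) : GG →* T n := (Pi.evalMonoidHom T n).comp GS.subtype

/-- underlying sequence -/
def GG.seq (g : GG) : ∀ k, T k := (Subtype.val (p := fun g => g ∈ GS) g)

@[simp] theorem ev_apply (n : ℕ) (g : GG) : ev n g = g.seq n := rfl
@[simp] theorem seq_mul (g h : GG) : (g * h).seq = g.seq * h.seq := rfl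
@[simp] theorem seq_inv (g : GG) : (g⁻¹).seq = g.seq⁻¹ := rfl
@[simp] theorem seq_one : (1 : GG).seq = 1 := rfl

theorem GG.ext {g h : GG} (H : ∀ k, g.seq k = h.seq k) : g = h := Subtype.ext (funext H)

theorem GG.coh (g : GG) (k : ℕ) : pr k (g.seq (k + 1)) = g.seq k :=
  (Subtype.property (p := fun g => g ∈ GS) g).1 k

theorem GG.exists_lev (g : GG) : ∃ n, Lev n g.seq :=
  (Subtype.property (p := fun g => g ∈ GS) g).2

/-- construct an element -/
def GG.mk (s : ∀ k, T k) (h1 : ∀ k, pr k (s (k + 1)) = s k) (h2 : ∃ n, Lev n s) : GG :=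
  ⟨s, h1, h2⟩

@[simp] theorem GG.seq_mk (s : ∀ k, T k) (h1 : ∀ k, pr k (s (k + 1)) = s k)
    (h2 : ∃ n, Lev n s) : (GG.mk s h1 h2).seq = s := rfl

theorem GG.eq_one_of_le {g : GG} {n m : ℕ} (h : m ≤ n) (hg : g.seq n = 1) : g.seq m = 1 := by
  induction n, h using Nat.le_induction with
  | base => exact hg
  | succ n _ ih =>
    apply ih
    rw [← g.coh n, hg, map_one]

theorem GG.eq_of_le {g h : GG} {n m : ℕ} (hm : m ≤ n) (hgh : g.seq n = h.seq n) :
    g.seq m = h.seq m := by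
  have : (g⁻¹ * h).seq n = 1 := by
    rw [seq_mul, seq_inv, Pi.mul_apply, Pi.inv_apply, hgh, inv_mul_cancel]
  have := GG.eq_one_of_le hm this
  rw [seq_mul, seq_inv, Pi.mul_apply, Pi.inv_apply] at this
  exact (inv_mul_eq_one.1 this)

/-- the open subgroups `G_n` -/
noncomputable def Gsub (n : ℕ) : Subgroup GG where
  carrier := {g | Lev n g.seq}
  mul_mem' := fun h1 h2 => h1.mul h2
  one_mem' := Lev.one n
  inv_mem' := fun h => h.inv

theorem mem_Gsub {n : ℕ} {g : GG} : g ∈ Gsub n ↔ Lev n g.seq := Iff.rfl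

/-- the compact open subgroups `K_n` -/
noncomputable def Ksub (n : ℕ) : Subgroup GG := Gsub n ⊓ (ev n).ker

theorem mem_Ksub {n : ℕ} {g : GG} : g ∈ Ksub n ↔ Lev n g.seq ∧ g.seq n = 1 := Iff.rfl

theorem Gsub_mono {n m : ℕ} (h : n ≤ m) : Gsub n ≤ Gsub m := fun _ hg => Lev.mono h hg

theorem Ksub_anti {n m : ℕ} (h : n ≤ m) : Ksub m ≤ Ksub n := by
  induction m, h using Nat.le_induction with
  | base => exact le_rfl
  | succ m _ ih =>
    refine le_trans ?_ ih
    intro g hg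
    rw [mem_Ksub] at hg ⊢
    have h1 : g.seq m = 1 := GG.eq_one_of_le (Nat.le_succ m) hg.2
    refine ⟨fun k hk => ?_, h1⟩
    rcases hk.eq_or_lt with rfl | hk'
    · rw [h1, hg.2]; exact Step.one _
    · exact hg.1 k hk'

theorem exists_mem_Gsub (g : GG) : ∃ n, g ∈ Gsub n := g.exists_lev

theorem Ksub_le_Gsub (n : ℕ) : Ksub n ≤ Gsub n := inf_le_left

theorem conj_mem_Ksub {n : ℕ} {x g : GG} (hx : x ∈ Gsub n) (hg : g ∈ Ksub n) :
    x * g * x⁻¹ ∈ Ksub n := by
  rw [mem_Ksub] at hg ⊢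
  refine ⟨(Gsub n).mul_mem ((Gsub n).mul_mem hx hg.1) ((Gsub n).inv_mem hx), ?_⟩
  simp [hg.2]

/-- filter basis of neighbourhoods of `1` -/
noncomputable def basisG : GroupFilterBasis GG where
  sets := range fun n => (Ksub n : Set GG)
  nonempty := ⟨_, 0, rfl⟩
  inter_sets := by
    rintro _ _ ⟨n, rfl⟩ ⟨m, rfl⟩
    exact ⟨_, ⟨max n m, rfl⟩, subset_inter (Ksub_anti (le_max_left _ _))
      (Ksub_anti (le_max_right _ _))⟩
  one' := by
    rintro _ ⟨n, rfl⟩; exact (Ksub n).one_mem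
  mul' := by
    rintro _ ⟨n, rfl⟩
    refine ⟨_, ⟨n, rfl⟩, ?_⟩
    rintro _ ⟨x, hx, y, hy, rfl⟩
    exact (Ksub n).mul_mem hx hy
  inv' := by
    rintro _ ⟨n, rfl⟩
    exact ⟨_, ⟨n, rfl⟩, fun x hx => (Ksub n).inv_mem hx⟩
  conj' := by
    rintro x _ ⟨n, rfl⟩
    obtain ⟨m, hm⟩ := exists_mem_Gsub x
    refine ⟨_, ⟨max n m, rfl⟩, fun g hg => ?_⟩
    exact Ksub_anti (le_max_left n m)
      (conj_mem_Ksub (Gsub_mono (le_max_right n m) hm) hg)

noncomputable instance : TopologicalSpace GG := basisG.topology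
instance : IsTopologicalGroup GG := basisG.isTopologicalGroup

theorem nhds_one_basis : (𝓝 (1 : GG)).HasBasis (fun _ : ℕ => True) fun n => (Ksub n : Set GG) := by
  have h := basisG.nhds_one_hasBasis
  refine ⟨fun t => ?_⟩
  rw [h.mem_iff]
  constructor
  · rintro ⟨_, ⟨n, rfl⟩, ht⟩; exact ⟨n, trivial, ht⟩
  · rintro ⟨n, _, ht⟩; exact ⟨_, ⟨n, rfl⟩, ht⟩

theorem Ksub_isOpen (n : ℕ) : IsOpen (Ksub n : Set GG) :=
  Subgroup.isOpen_of_mem_nhds _ (nhds_one_basis.mem_of_mem trivial)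

theorem Gsub_isOpen (n : ℕ) : IsOpen (Gsub n : Set GG) :=
  Subgroup.isOpen_of_mem_nhds _
    (Filter.mem_of_superset (nhds_one_basis.mem_of_mem (i := n) trivial) (Ksub_le_Gsub n))

instance : T2Space GG := by
  refine IsTopologicalGroup.t2Space_of_one_sep fun x hx => ?_
  by_contra hcon
  push Not at hcon
  apply hx
  refine GG.ext fun k => ?_
  have : x ∈ Ksub k := hcon _ (nhds_one_basis.mem_of_mem trivial)
  exact this.2

/-- basic open sets -/
def Bas (p : Σ n, T n) : Set GG := {g | g ∈ Gsub p.1 ∧ g.seq p.1 = p.2}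

theorem mem_Bas_iff {n : ℕ} {g h : GG} (hg : g ∈ Gsub n) :
    h ∈ Bas ⟨n, g.seq n⟩ ↔ g⁻¹ * h ∈ Ksub n := by
  constructor
  · rintro ⟨h1, h2⟩
    refine ⟨(Gsub n).mul_mem ((Gsub n).inv_mem hg) h1, ?_⟩
    change (g.seq n)⁻¹ * h.seq n = 1
    rw [show h.seq n = g.seq n from h2, inv_mul_cancel]
  · rintro ⟨h1, h2⟩
    have h3 : (g.seq n)⁻¹ * h.seq n = 1 := h2
    refine ⟨?_, (inv_mul_eq_one.1 h3).symm⟩
    have := (Gsub n).mul_mem hg h1
    rwa [mul_inv_cancel_left] at this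

theorem Bas_eq {n : ℕ} {g : GG} (hg : g ∈ Gsub n) :
    Bas ⟨n, g.seq n⟩ = (fun h => g⁻¹ * h) ⁻¹' (Ksub n : Set GG) := by
  ext h; exact mem_Bas_iff hg

theorem isOpen_Bas (p : Σ n, T n) : IsOpen (Bas p) := by
  rw [isOpen_iff_forall_mem_open]
  rintro g ⟨h1, h2⟩
  refine ⟨Bas p, Subset.rfl, ?_, ⟨h1, h2⟩⟩
  obtain ⟨n, x⟩ := p
  simp only at h1 h2
  subst h2
  rw [Bas_eq h1]
  exact (Ksub_isOpen n).preimage (by fun_prop)

instance : SecondCountableTopology GG := by
  have hb : TopologicalSpace.IsTopologicalBasis (range Bas) := by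
    refine TopologicalSpace.isTopologicalBasis_of_isOpen_of_nhds ?_ ?_
    · rintro _ ⟨p, rfl⟩; exact isOpen_Bas p
    · intro g U hg hU
      have h1 : (fun h => g * h) ⁻¹' U ∈ 𝓝 (1 : GG) := by
        refine (hU.preimage (by fun_prop)).mem_nhds ?_
        simpa using hg
      obtain ⟨n, -, hn⟩ := nhds_one_basis.mem_iff.1 h1
      obtain ⟨m, hm⟩ := exists_mem_Gsub g
      have hgm : g ∈ Gsub (max n m) := Gsub_mono (le_max_right _ _) hm
      refine ⟨_, ⟨⟨max n m, g.seq (max n m)⟩, rfl⟩, ⟨hgm, rfl⟩, ?_⟩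
      intro h hh
      have h2 := (mem_Bas_iff hgm).1 hh
      have h3 := hn (Ksub_anti (le_max_left n m) h2)
      simpa using h3
  exact hb.secondCountableTopology (countable_range Bas)

end QReg
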