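import Mathlib

open Set

set_option linter.unusedSectionVars false

namespace QReg

section Words

variable {α β : Type*} [DecidableEq α] [DecidableEq β]

/-- the reduced word of `u` starts with the letter `x`. -/
def Starts (x : α × Bool) (u : FreeGroup α) : Prop := u.toWord.head? = some x

theorem starts_mul_of {c : α} {u : FreeGroup α} (h : ¬ Starts (c, false) u) :
    Starts (c, true) (FreeGroup.of c * u) := by
  unfold Starts at *
  rw [FreeGroup.toWord_mul, FreeGroup.toWord_of, List.singleton_append]
  have hr : FreeGroup.IsReduced ((c, true) :: u.toWord) := by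
    rcases hu : u.toWord with _ | ⟨b, L⟩
    · exact FreeGroup.IsReduced.singleton
    · rw [FreeGroup.isReduced_cons_cons]
      refine ⟨?_, hu ▸ FreeGroup.isReduced_toWord⟩
      intro hc
      by_contra hb
      apply h
      rw [hu, List.head?_cons]
      congr 1
      ext
      · exact hc.symm
      · simp only at hb ⊢
        cases hb2 : b.2
        · rfl
        · exact absurd hb2.symm hb
  rw [hr.reduce_eq]
  rfl

theorem toWord_map {f : α → β} (hf : Function.Injective f) (u : FreeGroup α) :
    (FreeGroup.map f u).toWord = u.toWord.map fun x => (f x.1, x.2) := by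
  have h1 : FreeGroup.map f u = FreeGroup.mk (u.toWord.map fun x => (f x.1, x.2)) := by
    conv_lhs => rw [← FreeGroup.mk_toWord (x := u)]
    rw [FreeGroup.map.mk]
  rw [h1, FreeGroup.toWord_mk]
  apply FreeGroup.IsReduced.reduce_eq
  have h2 : FreeGroup.IsReduced u.toWord := FreeGroup.isReduced_toWord
  unfold FreeGroup.IsReduced at *
  rw [List.isChain_map]
  refine h2.imp ?_
  intro a b hab h
  exact hab (hf h)

theorem starts_map {f : α → β} (hf : Function.Injective f) {x : α × Bool} {u : FreeGroup α}
    (h : Starts x u) : Starts (f x.1, x.2) (FreeGroup.map f u) := by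
  unfold Starts at *
  rw [toWord_map hf, List.head?_map, h]
  rfl

theorem Starts.unique {x y : α × Bool} {u : FreeGroup α} (h : Starts x u) (h' : Starts y u) :
    x = y := by
  unfold Starts at *
  rw [h] at h'
  exact Option.some.inj h'

end Words

end QReg

namespace QReg

section Parad

variable {α : Type*} [DecidableEq α]

theorem parad1 {c : α} {z : FreeGroup α} (h : ¬ Starts (c, true) (FreeGroup.of c * z)) :
    Starts (c, false) z := by
  by_contra hcon
  exact h (starts_mul_of hcon)

theorem parad2 {c d : α} (hcd : c ≠ d) {z : FreeGroup α}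
    (h : ¬ Starts (c, true) (FreeGroup.of c * ((FreeGroup.of d)⁻¹ * z))) :
    Starts (d, true) z := by
  have h1 := parad1 h
  have h2 : ¬ Starts (d, false) ((FreeGroup.of d)⁻¹ * z) := by
    intro h3
    have := h1.unique h3
    exact hcd (congrArg Prod.fst this)
  have h3 := starts_mul_of h2
  rwa [mul_inv_cancel_left] at h3

end Parad

end QReg
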