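import Mathlib
import Pool.Agent.Lib.MP_b0e80c_an.Tower
import Pool.Agent.Lib.MP_b0e80c_an.Words
import Pool.Agent.Lib.MP_b0e80c_an.Free

open Set Topology Filter
open scoped Pointwise

set_option linter.unusedSectionVars false
set_option linter.style.haveILetI false

namespace QReg

/-! ### compactness -/

/-- the elements of `K_0` -/
noncomputable def cseq (t : ℕ → Bool) : ∀ k, T k
  | 0 => 1
  | k + 1 => io k (cseq t k) * (if t k then a k else 1)

theorem cseq_succ (t : ℕ → Bool) (k : ℕ) :
    cseq t (k + 1) = io k (cseq t k) * (if t k then a k else 1) := rfl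

theorem cseq_step (t : ℕ → Bool) (k : ℕ) : Step k (cseq t k) (cseq t (k + 1)) := by
  rw [cseq_succ]
  by_cases h : t k
  · right; simp [h]
  · left; simp [h]

/-- the parametrization of `K_0` -/
noncomputable def kap (t : ℕ → Bool) : GG :=
  GG.mk (cseq t) (fun k => (cseq_step t k).pr) ⟨0, fun k _ => cseq_step t k⟩

theorem kap_mem (t : ℕ → Bool) : kap t ∈ Gsub 0 := fun k _ => cseq_step t k

theorem cseq_congr {t t' : ℕ → Bool} {n : ℕ} (h : ∀ k < n, t k = t' k) :
    cseq t n = cseq t' n := by
  induction n with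
  | zero => rfl
  | succ n ih =>
    rw [cseq_succ, cseq_succ, ih fun k hk => h k (hk.trans (Nat.lt_succ_self n)),
      h n (Nat.lt_succ_self n)]

theorem continuous_kap : Continuous kap := by
  rw [continuous_iff_continuousAt]
  intro t0
  have h1 : Tendsto (fun t => (kap t0)⁻¹ * kap t) (𝓝 t0) (𝓝 1) := by
    rw [nhds_one_basis.tendsto_right_iff]
    rintro n -
    have h2 : ∀ᶠ t in 𝓝 t0, ∀ k ∈ Finset.range n, t k = t0 k := by
      rw [Filter.eventually_all_finset]
      intro k _
      have : Continuous fun t : ℕ → Bool => t k := continuous_apply k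
      exact this.continuousAt.eventually (show ∀ᶠ b in 𝓝 (t0 k), b = t0 k by
        rw [nhds_discrete]; exact Filter.eventually_pure.2 rfl)
    filter_upwards [h2] with t ht
    refine ⟨(Gsub n).mul_mem ((Gsub n).inv_mem ?_) ?_, ?_⟩
    · exact Gsub_mono (Nat.zero_le n) (kap_mem t0)
    · exact Gsub_mono (Nat.zero_le n) (kap_mem t)
    · change (cseq t0 n)⁻¹ * cseq t n = 1
      rw [cseq_congr (t := t) (t' := t0) fun k hk => ht k (Finset.mem_range.2 hk),
        inv_mul_cancel]
  have h3 : Tendsto (fun t => kap t0 * ((kap t0)⁻¹ * kap t)) (𝓝 t0) (𝓝 (kap t0 * 1)) :=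
    tendsto_const_nhds.mul h1
  simpa [ContinuousAt] using h3

theorem isCompact_K0 : IsCompact (Ksub 0 : Set GG) := by
  have : (Ksub 0 : Set GG) = range kap := by
    ext g
    constructor
    · intro hg
      classical
      refine ⟨fun k => decide (g.seq (k + 1) = io k (g.seq k) * a k), ?_⟩
      refine GG.ext fun k => ?_
      change cseq _ k = g.seq k
      induction k with
      | zero => exact hg.2.symm
      | succ k ih =>
        rw [cseq_succ, ih]
        by_cases h : g.seq (k + 1) = io k (g.seq k) * a k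
        · simp [h]
        · rcases hg.1 k (Nat.zero_le k) with h' | h'
          · simp [h, h']
          · exact absurd h' h
    · rintro ⟨t, rfl⟩
      exact ⟨kap_mem t, rfl⟩
  rw [this]
  exact isCompact_range continuous_kap

theorem isCompact_Ksub (n : ℕ) : IsCompact (Ksub n : Set GG) :=
  isCompact_K0.of_isClosed_subset (Subgroup.isClosed_of_isOpen _ (Ksub_isOpen n))
    (Ksub_anti (Nat.zero_le n))

instance : LocallyCompactSpace GG :=
  isCompact_K0.locallyCompactSpace_of_mem_nhds_of_group (nhds_one_basis.mem_of_mem trivial)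

theorem isCompact_Bas (p : Σ n, T n) : IsCompact (Bas p) := by
  rcases (Bas p).eq_empty_or_nonempty with h | ⟨g, hg⟩
  · rw [h]; exact isCompact_empty
  · obtain ⟨n, x⟩ := p
    obtain ⟨h1, h2⟩ := hg
    simp only at h1 h2
    subst h2
    have : Bas ⟨n, g.seq n⟩ = (fun h => g * h) '' (Ksub n : Set GG) := by
      ext h
      rw [mem_Bas_iff h1]
      constructor
      · intro hh; exact ⟨_, hh, by simp⟩
      · rintro ⟨k, hk, rfl⟩; simpa using hk
    rw [this]
    exact (isCompact_Ksub n).image (by fun_prop)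

theorem finite_image {C : Set GG} (hC : IsCompact C) (n : ℕ) :
    ((fun g : GG => g.seq n) '' C).Finite := by
  letI : TopologicalSpace (T n) := ⊥
  haveI : DiscreteTopology (T n) := ⟨rfl⟩
  have hc : Continuous fun g : GG => g.seq n := by
    rw [continuous_discrete_rng]
    intro x
    rw [isOpen_iff_mem_nhds]
    intro g hg
    have h1 : Tendsto (fun h : GG => g⁻¹ * h) (𝓝 g) (𝓝 1) := by
      have : Tendsto (fun h : GG => g⁻¹ * h) (𝓝 g) (𝓝 (g⁻¹ * g)) :=
        (Continuous.tendsto (by fun_prop) _)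
      simpa using this
    filter_upwards [h1 (nhds_one_basis.mem_of_mem (i := n) trivial)] with h hh
    have h2 : (g.seq n)⁻¹ * h.seq n = 1 := hh.2
    have h3 := inv_mul_eq_one.1 h2
    simp only [mem_preimage, mem_singleton_iff] at hg ⊢
    rw [← h3, hg]
  exact (hC.image hc).finite_of_discrete

theorem exists_Gsub {C : Set GG} (hC : IsCompact C) : ∃ n, C ⊆ Gsub n := by
  refine hC.elim_directed_cover (fun n => (Gsub n : Set GG)) (fun n => Gsub_isOpen n) ?_ ?_
  · intro g _
    obtain ⟨n, hn⟩ := exists_mem_Gsub g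
    exact mem_iUnion.2 ⟨n, hn⟩
  · exact directed_of_isDirected_le fun m n h => Gsub_mono h

theorem exists_Ksub_disj {C : Set GG} (hC : IsCompact C) (h1 : (1 : GG) ∉ C) :
    ∃ n, ∀ g ∈ C, g ∉ Ksub n := by
  have : Cᶜ ∈ 𝓝 (1 : GG) := hC.isClosed.isOpen_compl.mem_nhds h1
  obtain ⟨n, -, hn⟩ := nhds_one_basis.mem_iff.1 this
  exact ⟨n, fun g hg hgn => hn hgn hg⟩

/-! ### lifts -/

/-- the sequence with entry `x` at `n + 1`, trivial before, and constant afterwards -/
noncomputable def liftS (n : ℕ) (x : T (n + 1)) : ∀ k, T k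
  | 0 => 1
  | k + 1 => if h : k = n then h ▸ x else io k (liftS n x k)

theorem liftS_le {n : ℕ} (x : T (n + 1)) {k : ℕ} (h : k ≤ n) : liftS n x k = 1 := by
  induction k with
  | zero => rfl
  | succ k ih =>
    change (if h : k = n then h ▸ x else io k (liftS n x k)) = 1
    rw [dif_neg (by lia), ih (by lia), map_one]

theorem liftS_self {n : ℕ} (x : T (n + 1)) : liftS n x (n + 1) = x := by
  change (if h : n = n then h ▸ x else io n (liftS n x n)) = x
  rw [dif_pos rfl]

theorem liftS_succ {n : ℕ} (x : T (n + 1)) {k : ℕ} (h : n ≠ k) :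
    liftS n x (k + 1) = io k (liftS n x k) := by
  change (if h : k = n then h ▸ x else io k (liftS n x k)) = _
  rw [dif_neg (Ne.symm h)]

/-- lift of a kernel element of `Γ_{n+1} → Γ_n` to `G` -/
noncomputable def liftG (n : ℕ) (x : T (n + 1)) (hx : pr n x = 1) : GG :=
  GG.mk (liftS n x) (fun k => by
    rcases eq_or_ne n k with rfl | h
    · rw [liftS_self, hx, liftS_le x le_rfl]
    · rw [liftS_succ x h, pr_io]) ⟨n + 1, fun k hk => Or.inl (liftS_succ x (by lia))⟩

@[simp] theorem liftG_seq (n : ℕ) (x : T (n + 1)) (hx : pr n x = 1) :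
    (liftG n x hx).seq = liftS n x := rfl

/-! ### free point -/

section FreePt

/-- `G` acts on the free group over `Γ_n × ℕ` -/
@[reducible] noncomputable def actZ (n : ℕ) : MulAction GG (FreeGroup (T n × ℕ)) :=
  MulAction.compHom _ ((tW n).toMonoidHom.comp (ev (n + 1)))

theorem actZ_def (n : ℕ) (g : GG) (z : FreeGroup (T n × ℕ)) :
    letI := actZ n
    g • z = (tW n (g.seq (n + 1))).w * act (tW n (g.seq (n + 1))).γ z := rfl

theorem exists_fb_not_fixed (C : Set GG) (hC : IsCompact C) (h1 : (1 : GG) ∉ C) :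
    ∃ x : FB GG, ∀ c ∈ C, c • x ≠ x := by
  classical
  obtain ⟨n1, hn1⟩ := exists_Gsub hC
  obtain ⟨n2, hn2⟩ := exists_Ksub_disj hC h1
  set n := max n1 n2 with hn
  have hCG : ∀ c ∈ C, c ∈ Gsub n := fun c hc => Gsub_mono (le_max_left _ _) (hn1 hc)
  have hCK : ∀ c ∈ C, c ∉ Ksub n := fun c hc h => hn2 c hc (Ksub_anti (le_max_right _ _) h)
  letI := actZ n
  have hZ : TrivNear GG (FreeGroup (T n × ℕ)) := by
    filter_upwards [nhds_one_basis.mem_of_mem (i := n + 1) trivial] with u hu z
    rw [actZ_def, show u.seq (n + 1) = 1 from hu.2, map_one]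
    simp [W.one_w, W.one_γ, act_one]
  let lc : T n × ℕ := (1, 0)
  let ld : T n × ℕ := (1, 1)
  let le : T n × ℕ := (1, 2)
  let w : Fin 3 → FreeGroup (T n × ℕ) :=
    ![(FreeGroup.of lc)⁻¹, FreeGroup.of ld * (FreeGroup.of lc)⁻¹,
      FreeGroup.of le * (FreeGroup.of lc)⁻¹]
  let st : Fin 3 → (T n × ℕ) × Bool := ![(lc, false), (ld, true), (le, true)]
  have hst : Function.Injective st := by
    intro i j hij
    fin_cases i <;> fin_cases j <;> simp_all [st, lc, ld, le]
  let g : Fin 3 → GG := fun i => liftG n ((tW n).symm ⟨0, w i, 1⟩) rfl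
  have hgact : ∀ i z, g i • z = w i * z := by
    intro i z
    rw [actZ_def, liftG_seq, liftS_self, MulEquiv.apply_symm_apply]
    simp [act_one]
  let U : Set (FreeGroup (T n × ℕ)) := {z | Starts (lc, true) z}
  have hcomp : ∀ i z, z ∉ g i • U → Starts (st i) z := by
    intro i z hz
    rw [Set.mem_smul_set_iff_inv_smul_mem] at hz
    have e : (g i)⁻¹ • z = (w i)⁻¹ * z := by
      rw [inv_smul_eq_iff, hgact, mul_inv_cancel_left]
    rw [e] at hz
    have hz' : ¬ Starts (lc, true) ((w i)⁻¹ * z) := hz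
    fin_cases i
    · change Starts (lc, false) z
      have e2 : (w 0)⁻¹ * z = FreeGroup.of lc * z := by simp [w]
      exact parad1 (by rw [← e2]; exact hz')
    · change Starts (ld, true) z
      have e2 : (w 1)⁻¹ * z = FreeGroup.of lc * ((FreeGroup.of ld)⁻¹ * z) := by
        simp [w, mul_assoc]
      exact parad2 (c := lc) (by simp [lc, ld]) (by rw [← e2]; exact hz')
    · change Starts (le, true) z
      have e2 : (w 2)⁻¹ * z = FreeGroup.of lc * ((FreeGroup.of le)⁻¹ * z) := by
        simp [w, mul_assoc]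
      exact parad2 (c := lc) (by simp [lc, le]) (by rw [← e2]; exact hz')
  refine exists_not_fixed hZ C U ?_ g ?_
  · intro c hc z hz hcz
    have hstep := hCG c hc n le_rfl
    have hw : (tW n (c.seq (n + 1))).w = 1 := by
      rcases hstep with h | h <;> rw [h]
      · rfl
      · rw [map_mul, tW_io, tW_a, W.mul_w]; simp [W.inH, W.aE]
    have hγ : (tW n (c.seq (n + 1))).γ = c.seq n := by
      rw [← pr_eq]; exact c.coh n
    have hne : c.seq n ≠ 1 := fun h => hCK c hc ⟨hCG c hc, h⟩
    have h3 : Starts (shift (c.seq n) lc, true) (act (c.seq n) z) :=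
      starts_map (shift_injective (c.seq n)) hz
    have h4 : Starts (lc, true) (act (c.seq n) z) := by
      have : c • z = act (c.seq n) z := by
        rw [actZ_def, hw, hγ, one_mul]
      rw [← this]; exact hcz
    have h5 := h3.unique h4
    simp only [shift, lc, mul_one, Prod.mk.injEq, and_true] at h5
    exact hne h5
  · intro i j hij z
    by_contra hcon
    push Not at hcon
    exact hij (hst ((hcomp i z hcon.1).unique (hcomp j z hcon.2)))

theorem exists_free : ∃ x : FB GG, MulAction.stabilizer GG x = ⊥ :=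
  exists_free_point exists_fb_not_fixed

end FreePt

end QReg
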