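import Mathlib
import Pool.Agent.Lib.MP_b0e80c_an.Tower2

open Set Topology Filter
open scoped Pointwise

set_option linter.unusedSectionVars false
set_option linter.style.haveILetI false

namespace QReg

/-! ### the locally finite subgroups `P_n` and their characters -/

/-- membership in `P_n` -/
def InP : ∀ n, T n → Prop
  | 0, _ => True
  | n + 1, x => (tW n x).w = 1 ∧ InP n (pr n x)

/-- the additive character (parity) -/
noncomputable def psi : ∀ n, T n → ZMod 2
  | 0, x => Multiplicative.toAdd (tZ x)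
  | n + 1, x => W.par (tW n x).r + psi n (pr n x)

theorem InP_succ {n : ℕ} {x : T (n + 1)} :
    InP (n + 1) x ↔ (tW n x).w = 1 ∧ InP n (pr n x) := Iff.rfl

theorem psi_succ (n : ℕ) (x : T (n + 1)) :
    psi (n + 1) x = W.par (tW n x).r + psi n (pr n x) := rfl

theorem InP_one (n : ℕ) : InP n 1 := by
  induction n with
  | zero => trivial
  | succ n ih => exact ⟨by rw [map_one, W.one_w], by rw [map_one]; exact ih⟩

theorem InP_mul {n : ℕ} {x y : T n} (hx : InP n x) (hy : InP n y) : InP n (x * y) := by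
  induction n with
  | zero => trivial
  | succ n ih =>
    refine ⟨?_, ?_⟩
    · rw [map_mul, W.mul_w, hx.1, hy.1]; simp
    · rw [map_mul]; exact ih hx.2 hy.2

theorem InP_inv {n : ℕ} {x : T n} (hx : InP n x) : InP n x⁻¹ := by
  induction n with
  | zero => trivial
  | succ n ih =>
    refine ⟨?_, ?_⟩
    · rw [map_inv, W.inv_w, hx.1]; simp
    · rw [map_inv]; exact ih hx.2

theorem psi_one (n : ℕ) : psi n 1 = 0 := by
  induction n with
  | zero => rfl
  | succ n ih => rw [psi_succ, map_one, map_one, ih, W.one_r, W.par_zero, add_zero]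

theorem psi_mul {n : ℕ} {x y : T n} (hx : InP n x) : psi n (x * y) = psi n x + psi n y := by
  induction n with
  | zero => rfl
  | succ n ih =>
    rw [psi_succ, psi_succ, psi_succ, map_mul, map_mul, W.par_mul hx.1, ih hx.2]
    ring

theorem psi_inv {n : ℕ} {x : T n} (hx : InP n x) : psi n x⁻¹ = psi n x := by
  have h := psi_mul (n := n) (x := x) (y := x⁻¹) hx
  rw [mul_inv_cancel, psi_one] at h
  have h2 : ∀ x y : ZMod 2, 0 = x + y → y = x := by decide
  exact h2 _ _ h

theorem Step.w {n : ℕ} {x : T n} {y : T (n + 1)} (h : Step n x y) : (tW n y).w = 1 := by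
  rcases h with rfl | rfl
  · rfl
  · rw [map_mul, tW_io, tW_a, W.mul_w]; simp [W.inH, W.aE]

theorem Step.par {n : ℕ} {x : T n} {y : T (n + 1)} (h : Step n x y) :
    W.par (tW n y).r = 0 := by
  rcases h with rfl | rfl
  · exact W.par_zero
  · rw [map_mul, tW_io, tW_a, W.par_mul (by rfl)]
    have h1 : W.par (W.inH x).r = 0 := W.par_zero
    have h2 : W.par (W.aE : W (T n)).r = 0 := W.par_single_one 1
    rw [h1, h2, add_zero]

theorem Step.InP {n : ℕ} {x : T n} {y : T (n + 1)} (h : Step n x y) :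
    InP (n + 1) y ↔ InP n x := by
  rw [InP_succ, h.w, h.pr]; simp

theorem Step.psi {n : ℕ} {x : T n} {y : T (n + 1)} (h : Step n x y) :
    psi (n + 1) y = psi n x := by
  rw [psi_succ, h.par, h.pr, zero_add]

theorem Lev.InP {n m : ℕ} (hnm : n ≤ m) {g : ∀ k, T k} (hg : Lev n g) :
    InP m (g m) ↔ InP n (g n) := by
  induction m, hnm using Nat.le_induction with
  | base => rfl
  | succ m hm ih => rw [(hg m hm).InP, ih]

theorem Lev.psi {n m : ℕ} (hnm : n ≤ m) {g : ∀ k, T k} (hg : Lev n g) :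
    psi m (g m) = psi n (g n) := by
  induction m, hnm using Nat.le_induction with
  | base => rfl
  | succ m hm ih => rw [(hg m hm).psi, ih]

/-- membership in `P` -/
def InPG (g : GG) : Prop := ∃ n, g ∈ Gsub n ∧ InP n (g.seq n)

theorem InPG.of_le {g : GG} {n : ℕ} (h1 : g ∈ Gsub n) (hg : InPG g) : InP n (g.seq n) := by
  obtain ⟨m, hm1, hm2⟩ := hg
  have h2 := (Lev.InP (le_max_left m n) hm1).2 hm2
  exact (Lev.InP (le_max_right m n) h1).1 h2

theorem InPG_iff {g : GG} {n : ℕ} (h1 : g ∈ Gsub n) : InPG g ↔ InP n (g.seq n) :=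
  ⟨fun h => h.of_le h1, fun h => ⟨n, h1, h⟩⟩

open Classical in
/-- the parity on `G` -/
noncomputable def Psi (g : GG) : ZMod 2 := psi (Nat.find g.exists_lev) (g.seq (Nat.find g.exists_lev))

theorem Psi_eq {g : GG} {n : ℕ} (h : g ∈ Gsub n) : Psi g = psi n (g.seq n) := by
  classical
  have h1 := Nat.find_spec g.exists_lev
  have h2 : Nat.find g.exists_lev ≤ n := Nat.find_min' _ h
  exact (Lev.psi h2 h1).symm

theorem Psi_mul {g h : GG} (hg : InPG g) : Psi (g * h) = Psi g + Psi h := by
  obtain ⟨n, hn⟩ := exists_mem_Gsub g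
  obtain ⟨m, hm⟩ := exists_mem_Gsub h
  have h1 : g ∈ Gsub (max n m) := Gsub_mono (le_max_left _ _) hn
  have h2 : h ∈ Gsub (max n m) := Gsub_mono (le_max_right _ _) hm
  rw [Psi_eq h1, Psi_eq h2, Psi_eq ((Gsub _).mul_mem h1 h2), seq_mul, Pi.mul_apply,
    psi_mul (hg.of_le h1)]

theorem Psi_inv {g : GG} (hg : InPG g) : Psi g⁻¹ = Psi g := by
  obtain ⟨n, hn⟩ := exists_mem_Gsub g
  rw [Psi_eq hn, Psi_eq ((Gsub n).inv_mem hn), seq_inv, Pi.inv_apply, psi_inv (hg.of_le hn)]

theorem Psi_K0 {g : GG} (hg : g ∈ Ksub 0) : Psi g = 0 := by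
  rw [Psi_eq (Ksub_le_Gsub 0 hg), show g.seq 0 = 1 from hg.2, psi_one]

theorem InPG_K0 {g : GG} (hg : g ∈ Ksub 0) : InPG g :=
  ⟨0, hg.1, trivial⟩

/-! ### local finiteness -/

theorem exists_finite_subgroup (n : ℕ) (A : Set (T n)) (hA : A.Finite) (hAP : ∀ x ∈ A, InP n x) :
    ∃ B : Subgroup (T n), (B : Set (T n)).Finite ∧ A ⊆ B ∧ ∀ x ∈ B, InP n x := by
  classical
  induction n with
  | zero =>
    haveI : Finite (T 0) := Finite.of_injective tZ tZ.injective
    exact ⟨⊤, Set.toFinite _, fun _ _ => trivial, fun _ _ => trivial⟩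
  | succ n ih =>
    obtain ⟨B', hB'f, hAB', hB'P⟩ := ih (pr n '' A) (hA.image _) (by
      rintro _ ⟨x, hx, rfl⟩; exact (hAP x hx).2)
    set S0 : Set (FreeGroup (T n × ℕ)) := ⋃ x ∈ A, ((tW n x).r.support : Set _) with hS0
    have hS0f : S0.Finite := hA.biUnion fun x _ => Finset.finite_toSet _
    set S : Set (FreeGroup (T n × ℕ)) := ⋃ b ∈ (B' : Set (T n)), act b '' S0 with hS
    have hSf : S.Finite := hB'f.biUnion fun b _ => hS0f.image _
    have hSact : ∀ b ∈ B', ∀ u ∈ S, act b u ∈ S := by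
      intro b hb u hu
      rw [hS, mem_iUnion₂] at hu ⊢
      obtain ⟨c, hc, v, hv, rfl⟩ := hu
      exact ⟨b * c, B'.mul_mem hb hc, v, hv, act_mul b c v⟩
    have hS0S : S0 ⊆ S := by
      intro u hu
      rw [hS, mem_iUnion₂]
      exact ⟨1, B'.one_mem, u, hu, act_one u⟩
    let B : Subgroup (T (n + 1)) :=
      { carrier := {x | (tW n x).w = 1 ∧ pr n x ∈ B' ∧ ∀ u, (tW n x).r u ≠ 0 → u ∈ S}
        mul_mem' := by
          rintro x y ⟨hx1, hx2, hx3⟩ ⟨hy1, hy2, hy3⟩
          refine ⟨?_, ?_, ?_⟩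
          · rw [map_mul, W.mul_w, hx1, hy1]; simp
          · rw [map_mul]; exact B'.mul_mem hx2 hy2
          · intro u hu
            rw [map_mul, W.mul_r, Finsupp.add_apply, Finsupp.equivMapDomain_apply,
              aff_symm_apply, hx1, inv_one, one_mul] at hu
            by_contra hcon
            have e1 : (tW n x).r u = 0 := by
              by_contra h; exact hcon (hx3 u h)
            have e2 : (tW n y).r (act (tW n x).γ⁻¹ u) = 0 := by
              by_contra h
              have h2 := hSact _ hx2 _ (hy3 _ h)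
              rw [pr_eq, act_act_inv] at h2
              exact hcon h2
            exact hu (by rw [e1, e2, add_zero])
        one_mem' := by
          refine ⟨by rw [map_one, W.one_w], by rw [map_one]; exact B'.one_mem, ?_⟩
          intro u hu
          rw [map_one, W.one_r] at hu
          exact absurd rfl hu
        inv_mem' := by
          rintro x ⟨hx1, hx2, hx3⟩
          refine ⟨?_, ?_, ?_⟩
          · change (tW n x⁻¹).w = 1
            rw [map_inv, W.inv_w, hx1]; simp
          · change pr n x⁻¹ ∈ B'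
            rw [map_inv]; exact B'.inv_mem hx2
          · intro u hu
            rw [map_inv, W.inv_r, Finsupp.neg_apply, Finsupp.equivMapDomain_symm_apply, aff_apply,
              hx1, one_mul] at hu
            have h1 : (tW n x).r (act (tW n x).γ u) ≠ 0 := fun h => hu (by rw [h, neg_zero])
            have h2 := hSact _ (B'.inv_mem hx2) _ (hx3 _ h1)
            rwa [pr_eq, act_inv_act] at h2 }
    refine ⟨B, ?_, ?_, ?_⟩
    · haveI : Finite S := hSf.to_subtype
      haveI : Finite B' := hB'f.to_subtype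
      let F : B → (S → ZMod 2) × B' := fun x =>
        (fun u => (tW n x.1).r u.1, ⟨pr n x.1, x.2.2.1⟩)
      have hF : Function.Injective F := by
        rintro ⟨x, hx1, hx2, hx3⟩ ⟨y, hy1, hy2, hy3⟩ hxy
        simp only [F, Prod.mk.injEq, Subtype.mk.injEq] at hxy
        obtain ⟨h1, h2⟩ := hxy
        refine Subtype.ext ((tW n).injective ?_)
        ext1
        · ext u
          by_cases hu : u ∈ S
          · exact congrFun h1 ⟨u, hu⟩
          · have e1 : (tW n x).r u = 0 := by
              by_contra h; exact hu (hx3 u h)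
            have e2 : (tW n y).r u = 0 := by
              by_contra h; exact hu (hy3 u h)
            rw [e1, e2]
        · exact hx1.trans hy1.symm
        · exact h2
      haveI : Finite B := Finite.of_injective F hF
      exact Set.toFinite (B : Set (T (n + 1)))
    · intro x hx
      refine ⟨(hAP x hx).1, hAB' ⟨x, hx, rfl⟩, fun u hu => hS0S ?_⟩
      rw [hS0, mem_iUnion₂]
      exact ⟨x, hx, by simpa using hu⟩
    · rintro x ⟨hx1, hx2, -⟩
      exact ⟨hx1, hB'P _ hx2⟩

theorem exists_compact_subgroup (A : Set GG) (hA : IsCompact A) (hAP : ∀ g ∈ A, InPG g) :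
    ∃ M : Subgroup GG, IsCompact (M : Set GG) ∧ IsOpen (M : Set GG) ∧ A ⊆ M ∧
      ∀ g ∈ M, InPG g := by
  obtain ⟨n, hn⟩ := exists_Gsub hA
  obtain ⟨B, hBf, hAB, hBP⟩ := exists_finite_subgroup n _ (finite_image hA n) (by
    rintro _ ⟨g, hg, rfl⟩
    exact (hAP g hg).of_le (hn hg))
  let M : Subgroup GG := Gsub n ⊓ B.comap (ev n)
  have hM : (M : Set GG) = ⋃ x ∈ (B : Set (T n)), Bas ⟨n, x⟩ := by
    ext g
    rw [mem_iUnion₂]
    constructor
    · rintro ⟨h1, h2⟩; exact ⟨g.seq n, h2, h1, rfl⟩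
    · rintro ⟨x, hx, h1, h2⟩
      refine ⟨h1, ?_⟩
      change g.seq n ∈ B
      rw [show g.seq n = x from h2]; exact hx
  refine ⟨M, ?_, ?_, ?_, ?_⟩
  · rw [hM]; exact hBf.isCompact_biUnion fun x _ => isCompact_Bas _
  · rw [hM]; exact isOpen_biUnion fun x _ => isOpen_Bas _
  · intro g hg; exact ⟨hn hg, hAB ⟨g, hg, rfl⟩⟩
  · rintro g ⟨h1, h2⟩; exact ⟨n, h1, hBP _ h2⟩

/-- exhausting sequence of compact open subgroups of `P` -/
theorem exists_exhaustion : ∃ M : ℕ → Subgroup GG,
    (∀ j, IsCompact (M j : Set GG)) ∧ (∀ j, IsOpen (M j : Set GG)) ∧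
    (∀ j, ∀ g ∈ M j, InPG g) ∧ Ksub 0 ≤ M 0 ∧ Monotone M ∧ ∀ g, InPG g → ∃ j, g ∈ M j := by
  classical
  let Ix := {p : Σ n, T n // InP p.1 p.2}
  haveI : Nonempty Ix := ⟨⟨⟨0, 1⟩, trivial⟩⟩
  obtain ⟨e, he⟩ := exists_surjective_nat Ix
  let St := {M : Subgroup GG // IsCompact (M : Set GG) ∧ IsOpen (M : Set GG) ∧ ∀ g ∈ M, InPG g}
  have hstep : ∀ (M : St) (j : ℕ), ∃ M' : St, M.1 ≤ M'.1 ∧ Bas (e j).1 ⊆ M'.1 := by
    intro M j
    obtain ⟨M', h1, h2, h3, h4⟩ := exists_compact_subgroup ((M.1 : Set GG) ∪ Bas (e j).1)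
      (M.2.1.union (isCompact_Bas _)) (by
        rintro g (hg | hg)
        · exact M.2.2.2 g hg
        · refine ⟨_, hg.1, ?_⟩
          rw [hg.2]; exact (e j).2)
    exact ⟨⟨M', h1, h2, h4⟩, fun g hg => h3 (Or.inl hg), fun g hg => h3 (Or.inr hg)⟩
  choose nx hnx1 hnx2 using hstep
  let M0 : St := ⟨Ksub 0, isCompact_K0, Ksub_isOpen 0, fun g hg => InPG_K0 hg⟩
  let M : ℕ → St := fun j => Nat.rec M0 (fun j M => nx M j) j
  have hMs : ∀ j, M (j + 1) = nx (M j) j := fun j => rfl
  have hmono : Monotone fun j => (M j).1 := by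
    refine monotone_nat_of_le_succ fun j => ?_
    rw [hMs]; exact hnx1 _ _
  refine ⟨fun j => (M j).1, fun j => (M j).2.1, fun j => (M j).2.2.1, fun j => (M j).2.2.2,
    le_rfl, hmono, ?_⟩
  rintro g ⟨n, hn1, hn2⟩
  obtain ⟨j, hj⟩ := he ⟨⟨n, g.seq n⟩, hn2⟩
  refine ⟨j + 1, ?_⟩
  change g ∈ (M (j + 1)).1
  rw [hMs]
  apply hnx2
  rw [hj]
  exact ⟨hn1, rfl⟩

/-! ### the subgroup `L` -/

theorem L_comm : ∀ x ∈ Gsub 0, ∀ y ∈ Gsub 0, x * y = y * x := by
  intro x hx y hy
  refine GG.ext fun k => ?_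
  rw [seq_mul, seq_mul, Pi.mul_apply, Pi.mul_apply]
  induction k with
  | zero => exact tZ.injective (by rw [map_mul, map_mul, mul_comm])
  | succ k ih =>
    rcases hx k (Nat.zero_le k) with h | h <;> rcases hy k (Nat.zero_le k) with h' | h' <;>
      rw [h, h']
    · rw [← map_mul, ih, map_mul]
    · rw [← mul_assoc, ← map_mul, ih, map_mul, mul_assoc, mul_assoc, a_comm]
    · rw [mul_assoc, a_comm, ← mul_assoc, ← map_mul, ih, map_mul, mul_assoc]
    · have e1 : io k (x.seq k) * a k * (io k (y.seq k) * a k) =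
          io k (x.seq k) * io k (y.seq k) := by
        calc io k (x.seq k) * a k * (io k (y.seq k) * a k)
            = io k (x.seq k) * (a k * io k (y.seq k)) * a k := by group
          _ = io k (x.seq k) * io k (y.seq k) * (a k * a k) := by rw [a_comm]; group
          _ = _ := by rw [a_mul_self, mul_one]
      have e2 : io k (y.seq k) * a k * (io k (x.seq k) * a k) =
          io k (y.seq k) * io k (x.seq k) := by
        calc io k (y.seq k) * a k * (io k (x.seq k) * a k)
            = io k (y.seq k) * (a k * io k (x.seq k)) * a k := by group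
          _ = io k (y.seq k) * io k (x.seq k) * (a k * a k) := by rw [a_comm]; group
          _ = _ := by rw [a_mul_self, mul_one]
      rw [e1, e2, ← map_mul, ih, map_mul]

theorem isCompact_L : IsCompact (Gsub 0 : Set GG) := by
  haveI : Finite (T 0) := Finite.of_injective tZ tZ.injective
  have : (Gsub 0 : Set GG) = ⋃ x : T 0, Bas ⟨0, x⟩ := by
    ext g
    rw [mem_iUnion]
    constructor
    · intro h; exact ⟨g.seq 0, h, rfl⟩
    · rintro ⟨x, h, _⟩; exact h
  rw [this]
  exact isCompact_iUnion fun x => isCompact_Bas _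

/-- the generator of `Γ_0` -/
noncomputable def tau : T 0 := tZ.symm (Multiplicative.ofAdd 1)

/-- constant lift from level `0` -/
noncomputable def baseS (x : T 0) : ∀ k, T k
  | 0 => x
  | k + 1 => io k (baseS x k)

/-- `a_0 ∈ G` -/
noncomputable def baseG (x : T 0) : GG :=
  GG.mk (baseS x) (fun _ => rfl) ⟨0, fun _ _ => Or.inl rfl⟩

/-- the key algebraic property: every conjugate of the pair `(P, φ)` is nontrivial on `L` -/
theorem key_aux (n : ℕ) : ∀ x : T n, ∃ l : GG, l ∈ Gsub 0 ∧
    InP n (x⁻¹ * l.seq n * x) ∧ psi n (x⁻¹ * l.seq n * x) = 1 := by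
  induction n with
  | zero =>
    intro x
    refine ⟨baseG tau, fun k _ => Or.inl rfl, trivial, ?_⟩
    have : x⁻¹ * (baseG tau).seq 0 * x = tau := by
      apply tZ.injective
      rw [map_mul, map_mul, map_inv, mul_comm, mul_inv_cancel_left]
      rfl
    rw [this]
    change Multiplicative.toAdd (tZ tau) = 1
    unfold tau
    rw [MulEquiv.apply_symm_apply]
    rfl
  | succ n ih =>
    intro x
    by_cases hw : (tW n x).w = 1
    · obtain ⟨l, hl, h1, h2⟩ := ih (pr n x)
      have hstep : Step n (l.seq n) (l.seq (n + 1)) := hl n (Nat.zero_le n)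
      refine ⟨l, hl, ⟨?_, ?_⟩, ?_⟩
      · rw [map_mul, map_mul, map_inv, W.mul_w, W.mul_w, W.inv_w, hw, hstep.w]; simp
      · rw [map_mul, map_mul, map_inv, hstep.pr]; exact h1
      · have e1 : (tW n (x⁻¹ * l.seq (n + 1) * x)) =
            (tW n x)⁻¹ * (tW n (l.seq (n + 1)) * tW n x) := by
          rw [map_mul, map_mul, map_inv, mul_assoc]
        have hinv : ((tW n x)⁻¹).w = 1 := by rw [W.inv_w, hw]; simp
        have e2 : W.par (tW n (x⁻¹ * l.seq (n + 1) * x)).r = 0 := by
          rw [e1, W.par_mul hinv, W.par_inv hw, W.par_mul hstep.w, hstep.par, zero_add]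
          exact CharTwo.add_self_eq_zero _
        rw [psi_succ, e2, zero_add, map_mul, map_mul, map_inv, hstep.pr, h2]
    · refine ⟨liftG n (a n) (pr_a n), ?_, ?_, ?_⟩
      · intro k _
        rcases lt_trichotomy k n with h | h | h
        · left
          rw [liftG_seq, liftS_succ _ (by lia)]
        · subst h
          right
          rw [liftG_seq, liftS_self, liftS_le _ le_rfl, map_one, one_mul]
        · left
          rw [liftG_seq, liftS_succ _ (by lia)]
      · rw [liftG_seq, liftS_self]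
        refine ⟨?_, ?_⟩
        · rw [map_mul, map_mul, map_inv, tW_a, W.mul_w, W.mul_w, W.inv_w, W.mul_γ, W.inv_γ]
          have e1 : (W.aE : W (T n)).w = 1 := rfl
          have e2 : (W.aE : W (T n)).γ = 1 := rfl
          rw [e1, e2, map_one, mul_one, mul_one, ← map_mul, inv_mul_cancel, map_one]
        · rw [map_mul, map_mul, map_inv, pr_a, mul_one, inv_mul_cancel]
          exact InP_one n
      · rw [liftG_seq, liftS_self, psi_succ]
        have e0 : pr n (x⁻¹ * a n * x) = 1 := by
          rw [map_mul, map_mul, map_inv, pr_a, mul_one, inv_mul_cancel]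
        rw [e0, psi_one, add_zero, map_mul, map_mul, map_inv, tW_a]
        have e1 : (W.aE : W (T n)).w = 1 := rfl
        have e2 : (W.aE : W (T n)).γ = 1 := rfl
        have e3 : (W.aE : W (T n)).r = Finsupp.single 1 1 := rfl
        have hr : ((tW n x)⁻¹ * W.aE * tW n x).r =
            Finsupp.single (act (tW n x).γ⁻¹ (tW n x).w⁻¹) 1 := by
          ext u
          rw [W.mul_r, W.mul_r, W.inv_r, W.mul_w, W.mul_γ, W.inv_w, W.inv_γ, e1, e2, e3]
          simp only [Finsupp.add_apply, Finsupp.neg_apply, Finsupp.equivMapDomain_apply,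
            Equiv.symm_symm, aff_apply, aff_symm_apply, map_one, mul_one, inv_inv, map_mul,
            map_inv]
          simp only [act_act_inv]
          have h2 : ∀ p q r : ZMod 2, p = r → -p + q + r = q := by decide
          rw [h2 _ _ _ rfl]
          have hiff : (1 = (tW n x).w * act (tW n x).γ u) ↔
              (act (tW n x).γ⁻¹ (tW n x).w)⁻¹ = u := by
            constructor
            · intro h
              have h3 : (tW n x).w = (act (tW n x).γ u)⁻¹ := eq_inv_of_mul_eq_one_left h.symm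
              rw [h3, map_inv, act_inv_act, inv_inv]
            · intro h
              rw [← h, map_inv, act_act_inv, mul_inv_cancel]
          classical
          rw [Finsupp.single_apply, Finsupp.single_apply]
          exact if_congr hiff rfl rfl
        rw [hr, W.par_single]
        intro hcon
        apply hw
        have := congrArg (act (tW n x).γ) hcon
        rw [act_act_inv, map_one, inv_eq_one] at this
        exact this

theorem key (h : GG) : ∃ l ∈ Gsub 0, InPG (h⁻¹ * l * h) ∧ Psi (h⁻¹ * l * h) = 1 := by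
  obtain ⟨n, hn⟩ := exists_mem_Gsub h
  obtain ⟨l, hl, h1, h2⟩ := key_aux n (h.seq n)
  have hmem : h⁻¹ * l * h ∈ Gsub n :=
    (Gsub n).mul_mem ((Gsub n).mul_mem ((Gsub n).inv_mem hn) (Gsub_mono (Nat.zero_le n) hl)) hn
  refine ⟨l, hl, ⟨n, hmem, h1⟩, ?_⟩
  rw [Psi_eq hmem]
  exact h2

end QReg
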