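import Mathlib
import Pool.Agent.Lib.MP_b0e80c_an.NonSimple
import Pool.Agent.Lib.MP_b0e80c_an.Tower3

open Topology Set Filter MeasureTheory
open scoped Pointwise ENNReal

set_option linter.unusedSectionVars false
set_option linter.style.haveILetI false

namespace QReg

open Pool.Agent.Lib.MP_b0e80c_an

section General

variable {G Q : Type*} [Group G] [TopologicalSpace G] [IsTopologicalGroup G]
  [LocallyCompactSpace G] [T2Space G] [SecondCountableTopology G] [MeasurableSpace G]
  [BorelSpace G]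
  [TopologicalSpace Q] [R1Space Q] [MeasurableSpace Q] [BorelSpace Q] [MulAction G Q]
  [ContinuousSMul G Q] (ν : Measure Q) [SMulInvariantMeasure G Q ν] [IsLocallyFiniteMeasure ν]
  [ν.InnerRegularCompactLTTop]

/-- the Koopman representation of an invariant measure -/
noncomputable def rep (g : G) : Lp ℂ 2 ν →L[ℂ] Lp ℂ 2 ν :=
  (Lp.compMeasurePreservingₗᵢ ℂ (fun x : Q => g⁻¹ • x)
    (measurePreserving_smul g⁻¹ ν)).toContinuousLinearMap

theorem rep_eq_smul (g : G) (f : Lp ℂ 2 ν) : rep ν g f = DomMulAct.mk g⁻¹ • f := rfl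

theorem rep_ae (g : G) (f : Lp ℂ 2 ν) : (rep ν g f : Q → ℂ) =ᵐ[ν] fun x => f (g⁻¹ • x) :=
  Lp.coeFn_compMeasurePreserving _ _

theorem rep_toLp (g : G) {F : Q → ℂ} (hF : MemLp F 2 ν) :
    rep ν g (hF.toLp F) = (hF.comp_measurePreserving (measurePreserving_smul g⁻¹ ν)).toLp
      (fun x => F (g⁻¹ • x)) := rfl

theorem isRep : IsRep (rep (G := G) ν) where
  map_mul g h ξ := by
    rw [rep_eq_smul, rep_eq_smul, rep_eq_smul, smul_smul, mul_inv_rev, ← DomMulAct.mk_mul]
  norm_le g ξ := by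
    rw [rep_eq_smul, DomMulAct.norm_smul_Lp]
  cont ξ := by
    haveI : Fact ((2 : ℝ≥0∞) ≠ ∞) := ⟨by simp⟩
    have h1 : Continuous fun g : G => DomMulAct.mk g⁻¹ :=
      DomMulAct.continuous_mk.comp continuous_inv
    exact h1.smul continuous_const

variable {ν} in
/-- vectors from compact open subgroups and functions of modulus one -/
theorem exists_vec (e : G ≃ₜ Q) (he : ∀ g x, e (g * x) = g • e x)
    (hν : ν = Measure.map e (Measure.haar : Measure G))
    (M : Subgroup G) (hMc : IsCompact (M : Set G)) (hMo : IsOpen (M : Set G)) (s : G → ℂ)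
    (hs : Continuous s) (hs1 : ∀ x, ‖s x‖ = 1) :
    ∃ f : Lp ℂ 2 ν, ‖f‖ = 1 ∧ ∀ p ∈ M, ∀ c : ℂ, (∀ x ∈ M, s (p⁻¹ * x) = c * s x) →
      rep ν p f = c • f := by
  set S : Set Q := e.symm ⁻¹' (M : Set G) with hS
  have hSo : IsOpen S := hMo.preimage e.symm.continuous
  have hpre : e ⁻¹' S = (M : Set G) := by
    ext x; simp [hS]
  have hSm : ν S = (Measure.haar : Measure G) (M : Set G) := by
    rw [hν, Measure.map_apply e.continuous.measurable hSo.measurableSet, hpre]
  have hSfin : ν S ≠ ∞ := by rw [hSm]; exact hMc.measure_lt_top.ne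
  have hSpos : ν S ≠ 0 := by
    rw [hSm]; exact (hMo.measure_pos _ ⟨1, M.one_mem⟩).ne'
  have hsym : ∀ (g : G) (x : Q), e.symm (g • x) = g * e.symm x := by
    intro g x
    apply e.injective
    rw [e.apply_symm_apply, he, e.apply_symm_apply]
  set F : Q → ℂ := S.indicator (fun x => s (e.symm x)) with hF
  have hFL : MemLp F 2 ν := by
    rw [hF, memLp_indicator_iff_restrict hSo.measurableSet]
    haveI : IsFiniteMeasure (ν.restrict S) := ⟨by
      rw [Measure.restrict_apply_univ]; exact lt_top_iff_ne_top.2 hSfin⟩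
    refine MemLp.of_bound (hs.comp e.symm.continuous).aestronglyMeasurable 1 ?_
    exact ae_of_all _ fun x => (hs1 _).le
  have hne : hFL.toLp F ≠ 0 := by
    intro h0
    rw [Lp.eq_zero_iff_ae_eq_zero] at h0
    have h1 : F =ᵐ[ν] 0 := hFL.coeFn_toLp.symm.trans h0
    apply hSpos
    refine measure_mono_null ?_ (ae_iff.1 h1)
    intro x hx h2
    rw [hF, indicator_of_mem hx] at h2
    have := hs1 (e.symm x)
    rw [h2] at this
    simp at this
  set v := hFL.toLp F with hv
  have hv1 : ∀ p ∈ M, ∀ c : ℂ, (∀ x ∈ M, s (p⁻¹ * x) = c * s x) → rep ν p v = c • v := by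
    intro p hp c hc
    rw [hv, rep_toLp, ← MemLp.toLp_const_smul]
    apply MemLp.toLp_congr
    refine ae_of_all _ fun x => ?_
    change F (p⁻¹ • x) = c * F x
    by_cases hx : x ∈ S
    · have hx' : p⁻¹ • x ∈ S := by
        change e.symm (p⁻¹ • x) ∈ M
        rw [hsym]
        exact M.mul_mem (M.inv_mem hp) hx
      rw [hF, indicator_of_mem hx, indicator_of_mem hx', hsym]
      exact hc _ hx
    · have hx' : p⁻¹ • x ∉ S := by
        intro h
        change e.symm (p⁻¹ • x) ∈ M at h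
        rw [hsym] at h
        apply hx
        change e.symm x ∈ M
        have := M.mul_mem hp h
        rwa [mul_inv_cancel_left] at this
      rw [hF, indicator_of_notMem hx, indicator_of_notMem hx', mul_zero]
  refine ⟨((‖v‖⁻¹ : ℝ) : ℂ) • v, ?_, ?_⟩
  · have := norm_smul_inv_norm (𝕜 := ℂ) hne
    simpa using this
  · intro p hp c hc
    rw [map_smul, hv1 p hp c hc, smul_comm]

end General

section Special

/-- the sign -/
noncomputable def sgn (a : ZMod 2) : ℂ := if a = 0 then 1 else -1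

theorem sgn_add (a b : ZMod 2) : sgn (a + b) = sgn a * sgn b := by
  have h : ∀ a : ZMod 2, a = 0 ∨ a = 1 := by decide
  have h10 : (1 : ZMod 2) ≠ 0 := by decide
  have h11 : (1 : ZMod 2) + 1 = 0 := by decide
  rcases h a with rfl | rfl <;> rcases h b with rfl | rfl <;> simp [sgn, h10, h11]

theorem norm_sgn (a : ZMod 2) : ‖sgn a‖ = 1 := by
  unfold sgn
  split <;> simp

theorem continuous_sgn_Psi : Continuous fun g : GG => sgn (Psi g) := by
  rw [continuous_iff_continuousAt]
  intro g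
  have h1 : {x : GG | x * g⁻¹ ∈ Ksub 0} ∈ 𝓝 g := by
    have ho : IsOpen {x : GG | x * g⁻¹ ∈ Ksub 0} :=
      (Ksub_isOpen 0).preimage (by fun_prop : Continuous fun x : GG => x * g⁻¹)
    refine ho.mem_nhds ?_
    change g * g⁻¹ ∈ Ksub 0
    rw [mul_inv_cancel]
    exact one_mem _
  have h2 : (fun x : GG => sgn (Psi x)) =ᶠ[𝓝 g] fun _ => sgn (Psi g) := by
    filter_upwards [h1] with x hx
    have : x = (x * g⁻¹) * g := by group
    rw [this, Psi_mul (InPG_K0 hx), Psi_K0 hx, zero_add]
  exact (continuousAt_const.congr h2.symm)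

noncomputable instance : MeasurableSpace GG := borel GG
instance : BorelSpace GG := ⟨rfl⟩

theorem rep_not_simple {Q : Type*} [TopologicalSpace Q] [R1Space Q] [MeasurableSpace Q]
    [BorelSpace Q] [MulAction GG Q] [ContinuousSMul GG Q] {ν : Measure Q}
    [SMulInvariantMeasure GG Q ν] [IsLocallyFiniteMeasure ν] [ν.InnerRegularCompactLTTop]
    (e : GG ≃ₜ Q) (he : ∀ g x, e (g * x) = g • e x)
    (hν : ν = Measure.map e (Measure.haar : Measure GG)) :
    ¬ IsSimpleCstar (cstar (rep (G := GG) ν)) := by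
  obtain ⟨M, hMc, hMo, hMP, hKM, hmono, hex⟩ := exists_exhaustion
  have hv := fun j => exists_vec e he hν (M j) (hMc j) (hMo j) (fun g => sgn (Psi g))
    continuous_sgn_Psi (fun x => norm_sgn _)
  choose f hf1 hf2 using hv
  have hf3 : ∀ j, ∀ p ∈ M j, rep ν p (f j) = sgn (Psi p) • f j := by
    intro j p hp
    refine hf2 j p hp _ fun x _ => ?_
    rw [Psi_mul (hMP j _ ((M j).inv_mem hp)), Psi_inv (hMP j p hp), sgn_add]
  have hK : ∀ j, ∀ k ∈ Ksub 0, rep ν k (f j) = f j := by
    intro j k hk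
    rw [hf3 j k (hmono (Nat.zero_le j) (hKM hk)), Psi_K0 hk]
    simp [sgn]
  obtain ⟨ξ, hξ1, hξ2⟩ := exists_vec e he hν (Gsub 0) isCompact_L (Gsub_isOpen 0) (fun _ => 1)
    continuous_const (fun x => by simp)
  refine not_simple (isRep ν) (Gsub 0) (Ksub 0) isCompact_L (Gsub_isOpen 0) isCompact_K0
    (Ksub_isOpen 0) L_comm f hf1 (fun k hk => Eventually.of_forall fun j => hK j k hk)
    (Eventually.of_forall hK) ?_ ⟨ξ, ?_, ?_⟩
  · intro h
    obtain ⟨l, hl, h1, h2⟩ := key h
    refine ⟨l, hl, ?_⟩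
    obtain ⟨j0, hj0⟩ := hex _ h1
    filter_upwards [eventually_ge_atTop j0] with j hj
    rw [hf3 j _ (hmono hj hj0), h2]
    simp [sgn]
  · intro h0
    rw [h0, norm_zero] at hξ1
    exact zero_ne_one hξ1
  · intro l hl
    have := hξ2 l hl 1 (fun x _ => by simp)
    rwa [one_smul] at this

end Special

end QReg
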