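import Mathlib
import Pool.Agent.Lib.MP_b0e80c_an.Rep
import Pool.Agent.Lib.MP_b0e80c_an.Furst
import Pool.Agent.Lib.MP_b0e80c_an.Free

open Topology Set Filter MeasureTheory
open scoped Pointwise ENNReal

set_option linter.unusedSectionVars false
set_option linter.style.haveILetI false

namespace QReg

open Pool.Agent.Lib.MP_b0e80c_an

section Inv

variable {G Q : Type*} [Group G] [TopologicalSpace G] [IsTopologicalGroup G]
  [LocallyCompactSpace G] [T2Space G] [SecondCountableTopology G] [MeasurableSpace G]
  [BorelSpace G]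
  [TopologicalSpace Q] [MeasurableSpace Q] [BorelSpace Q] [MulAction G Q]

theorem continuousSMul_of_equiv (e : G ≃ₜ Q) (he : ∀ g x, e (g * x) = g • e x) :
    ContinuousSMul G Q := ⟨by
  have : (fun p : G × Q => p.1 • p.2) = fun p : G × Q => e (p.1 * e.symm p.2) := by
    funext p
    rw [he, e.apply_symm_apply]
  rw [this]
  exact e.continuous.comp (continuous_fst.mul (e.symm.continuous.comp continuous_snd))⟩

theorem smulInvariant_of_equiv (e : G ≃ₜ Q) (he : ∀ g x, e (g * x) = g • e x) :
    SMulInvariantMeasure G Q (Measure.map e (Measure.haar : Measure G)) := ⟨by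
  intro c s hs
  haveI := continuousSMul_of_equiv e he
  have hm : Measurable fun x : Q => c • x := (continuous_const_smul c).measurable
  rw [Measure.map_apply e.continuous.measurable hs,
    Measure.map_apply e.continuous.measurable (hm hs)]
  have : e ⁻¹' ((fun x : Q => c • x) ⁻¹' s) = (fun x : G => c * x) ⁻¹' (e ⁻¹' s) := by
    ext x
    simp [he]
  rw [this, measure_preimage_mul]⟩

end Inv

section Bridge

variable {G : Type*} [Group G] [TopologicalSpace G] [IsTopologicalGroup G]
  [LocallyCompactSpace G] [MeasurableSpace G] [BorelSpace G]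
  {E : Type*} [NormedAddCommGroup E] [InnerProductSpace ℂ E] [CompleteSpace E]

theorem cstar_bridge (π : G → (E →L[ℂ] E)) :
    (Pool.Agent.Lib.MP_b0e80c_an.cstar (E := E) π : Set (E →L[ℂ] E)) = cstar π := rfl

theorem simple_bridge (A : Set (E →L[ℂ] E))
    (h : Pool.Agent.Lib.MP_b0e80c_an.IsSimpleCstar (E := E) A) : IsSimpleCstar A := by
  intro I hIc hIA hI
  rcases h (I : Set (E →L[ℂ] E)) ⟨hIA, hIc, I.zero_mem, fun x hx y hy => I.add_mem hx hy,
    fun c x hx => I.smul_mem c hx, fun a ha x hx => (hI a ha x hx).1,
    fun a ha x hx => (hI a ha x hx).2⟩ with h1 | h1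
  · left
    rw [eq_bot_iff]
    intro x hx
    have : x ∈ ({0} : Set (E →L[ℂ] E)) := h1 ▸ hx
    exact this
  · right
    exact h1

end Bridge

/-- the reduced group C*-algebra of `GG` is not simple -/
theorem not_reducedSimple : ¬ ReducedSimple GG := by
  intro h
  have h1 := h (fun g => (rep (Measure.haar : Measure GG) g)) (fun g f => rep_ae _ g f)
  refine rep_not_simple (ν := (Measure.haar : Measure GG)) (Homeomorph.refl GG) (fun g x => rfl)
    ?_ (simple_bridge _ h1)
  have : (⇑(Homeomorph.refl GG)) = id := rfl
  rw [this, Measure.map_id]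

/-- the quasi-regular representation for the trivial subgroup -/
theorem not_quasiRegularSimple (H : Subgroup GG) (hz : H = ⊥) : ¬ QuasiRegularSimple H := by
  intro h
  let e0 : GG ≃ Quo H := Equiv.ofBijective (fun g : GG => (QuotientGroup.mk g : GG ⧸ H)) (by
    refine ⟨fun a b hab => ?_, fun q => ?_⟩
    · have h1 : a⁻¹ * b ∈ H := QuotientGroup.eq.1 hab
      rw [hz, Subgroup.mem_bot] at h1
      exact (inv_mul_eq_one.1 h1)
    · exact QuotientGroup.mk_surjective q)
  let e : GG ≃ₜ Quo H := e0.toHomeomorphOfContinuousOpen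
    (continuous_quotient_mk' : Continuous (QuotientGroup.mk : GG → GG ⧸ H))
    (QuotientGroup.isOpenMap_coe : IsOpenMap (QuotientGroup.mk : GG → GG ⧸ H))
  have he : ∀ g x, e (g * x) = g • e x := fun g x => rfl
  haveI : ContinuousSMul GG (Quo H) := continuousSMul_of_equiv e he
  haveI : T2Space (Quo H) := e.t2Space
  haveI : LocallyCompactSpace (Quo H) := e.symm.isClosedEmbedding.locallyCompactSpace
  haveI : SecondCountableTopology (Quo H) := e.symm.secondCountableTopology
  set ν : Measure (Quo H) := Measure.map e (Measure.haar : Measure GG) with hν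
  haveI : SMulInvariantMeasure GG (Quo H) ν := smulInvariant_of_equiv e he
  haveI : ν.Regular := Measure.Regular.map e
  have hmap : ∀ g : GG, Measure.map (fun x : Quo H => g • x) ν = ν := fun g =>
    (measurePreserving_smul g ν).map_eq
  have hrad : IsQuasiInvariantRadon H ν := by
    refine ⟨inferInstance, ?_, ?_⟩
    · intro h0
      have h1 : ν univ = 0 := by rw [h0]; rfl
      rw [hν, Measure.map_apply e.continuous.measurable MeasurableSet.univ, preimage_univ] at h1
      exact (isOpen_univ.measure_pos (Measure.haar : Measure GG) ⟨1, trivial⟩).ne' h1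
    · intro g
      rw [hmap]
  have hrep : ∀ (g : GG) (f : Lp ℂ 2 ν), (rep ν g f : Quo H → ℂ) =ᵐ[ν] fun x =>
      ((Real.sqrt ((Measure.map (fun x : Quo H => g • x) ν).rnDeriv ν x).toReal : ℝ) : ℂ) *
        f (g⁻¹ • x) := by
    intro g f
    rw [hmap]
    filter_upwards [rep_ae ν g f, Measure.rnDeriv_self ν] with x hx1 hx2
    rw [hx1, hx2]
    simp
  have h1 := h ν hrad (fun g => rep ν g) hrep
  exact rep_not_simple (ν := ν) e he hν (simple_bridge _ h1)

/-- The counterexample. -/
theorem main :
    ∃ (G : Type) (_ : Group G) (_ : TopologicalSpace G) (_ : IsTopologicalGroup G)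
      (_ : LocallyCompactSpace G) (_ : T2Space G) (_ : SecondCountableTopology G)
      (_ : MeasurableSpace G) (_ : BorelSpace G)
      (X : Type) (_ : TopologicalSpace X) (_ : CompactSpace X) (_ : T2Space X)
      (_ : MeasurableSpace X) (_ : BorelSpace X) (_ : MulAction G X) (_ : ContinuousSMul G X)
      (z : X),
      IsFurstenbergBoundary G X ∧
      ContinuousAt (stabilizerMap G X) z ∧
      MulAction.stabilizer G z = ⊥ ∧
      ¬ QuasiRegularSimple (MulAction.stabilizer G z) ∧
      ¬ ReducedSimple G := by
  obtain ⟨z, hz⟩ := exists_free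
  exact ⟨GG, inferInstance, inferInstance, inferInstance, inferInstance, inferInstance,
    inferInstance, inferInstance, inferInstance, FB GG, inferInstance, inferInstance,
    inferInstance, inferInstance, inferInstance, inferInstance, inferInstance, z,
    FB.isFurstenberg GG, continuousAt_stabilizerMap hz, hz, not_quasiRegularSimple _ hz,
    not_reducedSimple⟩

/-- The positive statement of Q1. -/
def Q1 : Prop :=
  ∀ (G : Type) [Group G] [TopologicalSpace G] [IsTopologicalGroup G] [LocallyCompactSpace G]
    [T2Space G] [SecondCountableTopology G] [MeasurableSpace G] [BorelSpace G]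
    (X : Type) [TopologicalSpace X] [CompactSpace X] [T2Space X] [MeasurableSpace X]
    [BorelSpace X] [MulAction G X] [ContinuousSMul G X],
    IsFurstenbergBoundary G X →
    ∀ z : X, ContinuousAt (stabilizerMap G X) z →
      QuasiRegularSimple (MulAction.stabilizer G z)

theorem not_Q1 : ¬ Q1 := by
  intro h
  obtain ⟨G, _, _, _, _, _, _, _, _, X, _, _, _, _, _, _, _, z, h1, h2, h3, h4, h5⟩ := main
  exact h4 (h G X h1 z h2)

end QReg
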